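import Mathlib
import Pool.Agent.Mg.F655169a.Gc9f9fa

set_option linter.all false

section

/-! Statements of the lemmas for the theorem on exceptional lines.
Plan: /team-store/655169_h38_PROOF.md -/

open Polynomial Finset

namespace Pool.Agent.MP_655169_nt.FL

/-- Mahler measure of an integer polynomial. -/
noncomputable def MM (Q : ℤ[X]) : ℝ := (Q.map (Int.castRingHom ℂ)).mahlerMeasure

/-- A size system: `Sz x m n H` says that `x` has denominator exponent `m` (algebraic part),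
degree `n` in `θ` and size `H`. -/
structure Sys (θ : ℂ) where
  Sz : ℂ → ℕ → ℕ → ℝ → Prop
  c : ℝ
  hc : 1 ≤ c
  nonneg : ∀ {x : ℂ} {m n : ℕ} {H : ℝ}, Sz x m n H → 0 ≤ H
  mono : ∀ {x : ℂ} {m n m' n' : ℕ} {H H' : ℝ}, Sz x m n H → m ≤ m' → n ≤ n' → H ≤ H' →
    Sz x m' n' H'
  add : ∀ {x y : ℂ} {m n : ℕ} {H H' : ℝ}, Sz x m n H → Sz y m n H' → Sz (x + y) m n (H + H')
  mul : ∀ {x y : ℂ} {m n m' n' : ℕ} {H H' : ℝ}, Sz x m n H → Sz y m' n' H' →
    Sz (x * y) (m + m') (n + n') (H * H')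
  int : ∀ z : ℤ, Sz (z : ℂ) 0 0 |(z : ℝ)|
  out : ∀ {x : ℂ} {m n : ℕ} {h : ℝ}, x ≠ 0 → 0 ≤ h → Sz x m n (Real.exp h) →
    ∃ Q : ℤ[X], Q ≠ 0 ∧ (Q.natDegree : ℝ) ≤ c * n ∧ MM Q ≤ Real.exp (c * (m + n + h + 1)) ∧
      ‖aeval θ Q‖ ≤ ‖x‖ * Real.exp (c * (m + n + h + 1))

/-- `x` acts on the family `b` by a matrix over `ℤ[θ]` of degree `d` and size `H`. -/
def Rep {D : ℕ} (θ : ℂ) (b : Fin D → ℂ) (x : ℂ) (d : ℕ) (H : ℝ) : Prop :=
  ∃ M : Matrix (Fin D) (Fin D) ℤ[X],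
    (∀ (z : ℂ) (i : Fin D), ∑ j, ‖aeval z (M i j)‖ ≤ H * (max 1 ‖z‖) ^ d) ∧
      ∀ i, x * b i = ∑ j, aeval θ (M i j) * b j

def RepOutStmt : Prop :=
  ∀ (D : ℕ) (θ : ℂ) (b : Fin D → ℂ) (x : ℂ) (d : ℕ) (H : ℝ), Transcendental ℚ θ → b ≠ 0 → x ≠ 0 →
    1 ≤ H → Rep θ b x d H →
    ∃ Q : ℤ[X], Q ≠ 0 ∧ Q.natDegree ≤ D * d ∧ MM Q ≤ (2 * H) ^ D ∧
      ‖aeval θ Q‖ ≤ ‖x‖ * (2 * H * (max 1 ‖θ‖) ^ d) ^ D

def FamStmt : Prop :=
  ∀ (θ : ℂ) (A B : Finset ℂ), Transcendental ℚ θ → (∀ x ∈ A, IsAlgebraic ℚ x) →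
    (∀ x ∈ B, IsAlgebraic (Algebra.adjoin ℚ ({θ} : Set ℂ)) x) →
    ∃ (D : ℕ) (b : Fin D → ℂ) (a : ℤ) (q : ℤ[X]), b ≠ 0 ∧ a ≠ 0 ∧ q ≠ 0 ∧
      (∀ x ∈ A, ∃ M : Matrix (Fin D) (Fin D) ℤ,
        ∀ i, (a : ℂ) * x * b i = ∑ j, (M i j : ℂ) * b j) ∧
      (∀ x ∈ B, ∃ M : Matrix (Fin D) (Fin D) ℤ[X],
        ∀ i, aeval θ q * x * b i = ∑ j, aeval θ (M i j) * b j)

def SysStmt : Prop :=
  ∀ (θ : ℂ) (A B : Finset ℂ), Transcendental ℚ θ → (∀ x ∈ A, IsAlgebraic ℚ x) →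
    (∀ x ∈ B, IsAlgebraic (Algebra.adjoin ℚ ({θ} : Set ℂ)) x) →
    ∃ S : Sys θ, (∀ x ∈ A, S.Sz x 1 0 1) ∧ ∀ x ∈ B, S.Sz x 0 1 1

def BoxStmt : Prop :=
  ∀ (ι : Type) [Fintype ι] (M P : ℕ) (a : ℕ → ι → ℂ) (B ε : ℝ), 0 < ε → 0 ≤ B →
    (∀ m < M, ∀ i, ‖a m i‖ ≤ B) →
    (2 * ((Fintype.card ι : ℝ) * P * B) / ε + 3) ^ (2 * M) < ((P : ℝ) + 1) ^ Fintype.card ι →
    ∃ p : ι → ℤ, p ≠ 0 ∧ (∀ i, |p i| ≤ (P : ℤ)) ∧ ∀ m < M, ‖∑ i, (p i : ℂ) * a m i‖ ≤ 2 * ε

def SmallStmt : Prop :=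
  ∀ (ι : Type) [Fintype ι] (f : ι → ℂ → ℂ) (M P S0 : ℕ) (ρ E B ε : ℝ),
    (∀ i, Differentiable ℂ (f i)) → 1 ≤ ρ → 1 ≤ E → 0 < ε → 0 ≤ B →
    (∀ i z, ‖z‖ = 2 * Real.exp 1 * ρ * E → ‖f i z‖ ≤ B) →
    (2 * ((Fintype.card ι : ℝ) * P * B) / ε + 3) ^ (2 * M) < ((P : ℝ) + 1) ^ Fintype.card ι →
    ∃ p : ι → ℤ, p ≠ 0 ∧ (∀ i, |p i| ≤ (P : ℤ)) ∧ ∀ μ : ℂ, ‖μ‖ ≤ ρ → ∀ σ ≤ S0,
      ‖iteratedDeriv σ (fun z => ∑ i, (p i : ℂ) * f i z) μ‖ ≤
        S0.factorial * (2 * M * ε + 2 * ((Fintype.card ι : ℝ) * P * B) * (E⁻¹) ^ M)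

def RankStmt : Prop :=
  ∀ (ι κ : Type) [Fintype ι] [Fintype κ] (ω : ι → ℂ) (y : κ → ℂ) (T0 S0 : ℕ) (Ω ρ : ℝ)
    (c : ι → Fin T0 → ℂ), Function.Injective ω → Function.Injective y → 0 ≤ Ω →
    (∀ i, ‖ω i‖ ≤ Ω) → 1 ≤ ρ → (∀ k, ‖y k‖ ≤ ρ) →
    4 * ((Fintype.card ι : ℝ) * T0) + 13 * (Ω * ρ) + 1 ≤ (Fintype.card κ : ℝ) * S0 →
    (∀ k, ∀ σ < S0, iteratedDeriv σ
      (fun z => ∑ i, ∑ τ : Fin T0, c i τ * (z ^ (τ : ℕ) * Complex.exp (ω i * z))) (y k) = 0) →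
    c = 0

/-- The sizes of the generators. -/
structure Gen {θ : ℂ} (S : Sys θ) (β L₁ L₂ : ℂ) (eL ew : ℕ) : Prop where
  hθ : S.Sz θ 0 1 1
  hβ : S.Sz β 1 0 1
  a₁ : S.Sz (Complex.exp L₁) 1 0 1
  a₂ : S.Sz (Complex.exp L₂) 1 0 1
  l₁ : S.Sz L₁ 1 eL 1
  l₂ : S.Sz L₂ 1 eL 1
  w₁ : S.Sz (Complex.exp (β * L₁)) 1 ew 1
  w₂ : S.Sz (Complex.exp (β * L₂)) 1 ew 1

def EntryStmt : Prop :=
  ∀ (θ : ℂ) (S : Sys θ) (β L₁ L₂ : ℂ) (eL ew : ℕ), Gen S β L₁ L₂ eL ew → ∀ τ j k σ s t : ℕ,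
    S.Sz (iteratedDeriv σ (fun z : ℂ => z ^ τ * Complex.exp (((j : ℂ) + k * β) * z))
        ((s : ℂ) * L₁ + t * L₂))
      (σ + τ + (j + k) * (s + t)) (τ * eL + k * (s + t) * ew)
      (2 ^ σ * (τ : ℝ) ^ τ * ((s : ℝ) + t + 1) ^ τ * ((j : ℝ) + k + 1) ^ σ)

/-- The numerical conditions on the parameters. -/
structure Ok (T0 T1 T2 S0 S1 S2 n0 M : ℕ) (h U E K : ℝ) : Prop where
  hK : 1 ≤ K
  hE : 1 ≤ E
  hU : 1 ≤ U
  hT0 : 1 ≤ T0
  hT1 : 1 ≤ T1
  hT2 : 1 ≤ T2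
  hS1 : 1 ≤ S1
  hS2 : 1 ≤ S2
  hn0 : 1 ≤ n0
  rank : 4 * ((T1 : ℝ) * T2 * T0) + 13 * (K * (T1 + T2) * (K * (S1 + S2))) + 1 ≤
    (S1 : ℝ) * S2 * S0
  hm : (S0 : ℝ) + T0 + (T1 + T2) * (S1 + S2) ≤ h
  hH : (n0 : ℝ) * T0 * T1 * T2 *
    (2 ^ S0 * (T0 : ℝ) ^ T0 * ((S1 : ℝ) + S2) ^ T0 * ((T1 : ℝ) + T2) ^ S0) ≤ Real.exp h
  hB : K ^ n0 * (2 * Real.exp 1 * (K * (S1 + S2)) * E) ^ T0 *
    Real.exp (K * (T1 + T2) * (2 * Real.exp 1 * (K * (S1 + S2)) * E)) ≤ Real.exp U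
  hS : (S0.factorial : ℝ) * (2 * M + 2) ≤ Real.exp U
  hL : (n0 : ℝ) * T0 * T1 * T2 * Real.exp h ≤ Real.exp U
  hM : Real.exp (4 * U) ≤ E ^ M
  box : 10 * M * U ≤ (n0 : ℝ) * T0 * T1 * T2 * h

/-- Distinct frequencies and distinct points. -/
structure Inj (β L₁ L₂ : ℂ) (T1 T2 S1 S2 : ℕ) : Prop where
  fr : ∀ j k j' k' : ℕ, j < T1 → k < T2 → j' < T1 → k' < T2 →
    (j : ℂ) + k * β = (j' : ℂ) + k' * β → j = j' ∧ k = k'
  pt : ∀ s t s' t' : ℕ, s < S1 → t < S2 → s' < S1 → t' < S2 →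
    (s : ℂ) * L₁ + t * L₂ = (s' : ℂ) * L₁ + t' * L₂ → s = s' ∧ t = t'

def CoreStmt : Prop :=
  ∀ (θ : ℂ) (S : Sys θ) (β L₁ L₂ : ℂ) (eL ew T0 T1 T2 S0 S1 S2 n0 M : ℕ) (h U E K : ℝ),
    Transcendental ℚ θ → Gen S β L₁ L₂ eL ew → Ok T0 T1 T2 S0 S1 S2 n0 M h U E K →
    ‖θ‖ ≤ K → ‖β‖ ≤ K → ‖L₁‖ ≤ K → ‖L₂‖ ≤ K → Inj β L₁ L₂ T1 T2 S1 S2 →
    ∃ x : ℂ, x ≠ 0 ∧ S.Sz x (S0 + T0 + (T1 + T2) * (S1 + S2))
      (n0 - 1 + (T0 - 1) * eL + (T2 - 1) * (S1 + S2) * ew) (Real.exp (2 * h)) ∧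
      ‖x‖ ≤ Real.exp (-U)

/-- The shape of the parameters at level `k`. -/
structure Shape (w k T0 T1 T2 S1 S2 n0 : ℕ) : Prop where
  hT0 : 1 ≤ T0
  hT1 : 1 ≤ T1
  hT2 : 1 ≤ T2
  hS1 : 1 ≤ S1
  hS2 : 1 ≤ S2
  hn0 : 1 ≤ n0
  eT : T0 * T1 * T2 = (2 ^ k) ^ 2 * w ^ 2 * n0
  eS : S1 * S2 = w * n0
  n0le : n0 ≤ (2 ^ k) ^ 2 * w
  T0le : T0 ≤ (2 ^ k) ^ 2 * w
  p₁ : (T1 + T2) * (S1 + S2) ≤ 4 * (2 ^ k) ^ 2 * w ^ 3
  p₂ : (T1 + T2) * (S1 + S2) ≤ 4 * 2 ^ k * w ^ 2 * n0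

/-- The height parameter at level `k`. -/
noncomputable def hh (w k : ℕ) : ℝ := 100 * ((2 : ℝ) ^ k) ^ 2 * w * k

def NumStmt : Prop :=
  ∀ K u : ℝ, 1 ≤ K → 2 ≤ u → ∃ w : ℕ, 1 ≤ w ∧ ∃ k₀ : ℕ, ∀ k, k₀ ≤ k →
    ∀ T0 T1 T2 S1 S2 n0 : ℕ, Shape w k T0 T1 T2 S1 S2 n0 →
      ∃ M : ℕ, Ok T0 T1 T2 (5 * (2 ^ k) ^ 2 * w) S1 S2 n0 M (hh w k) (u * n0 * hh w k) (2 ^ k) K

def ResStmt : Prop :=
  ∀ (θ : ℂ) (P Q : ℤ[X]), P ≠ 0 → Q ≠ 0 →
    IsCoprime (P.map (Int.castRingHom ℚ)) (Q.map (Int.castRingHom ℚ)) →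
    1 ≤ max ‖aeval θ P‖ ‖aeval θ Q‖ * 2 ^ (P.natDegree * Q.natDegree) *
      MM P ^ Q.natDegree * MM Q ^ P.natDegree

/-- Gel'fond's criterion. -/
def CritStmt : Prop :=
  ∀ (θ : ℂ) (A : ℝ) (d h : ℕ → ℝ) (k₀ : ℕ), Transcendental ℚ θ → 1 ≤ A →
    (∀ k, k₀ ≤ k → 1 ≤ d k ∧ d k ≤ h k ∧ d k ≤ d (k + 1) ∧ h k ≤ h (k + 1) ∧
      d (k + 1) ≤ A * d k ∧ h (k + 1) ≤ A * h k) →
    Filter.Tendsto h Filter.atTop Filter.atTop →
    ¬ ∀ k, k₀ ≤ k → ∃ Q : ℤ[X], Q ≠ 0 ∧ (Q.natDegree : ℝ) ≤ d k ∧ MM Q ≤ Real.exp (h k) ∧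
      ‖aeval θ Q‖ ≤ Real.exp (-(10 * A * d k * h k))

/-- Hermite-Lindemann. -/
def HLStmt : Prop := ∀ L : ℂ, L ≠ 0 → IsAlgebraic ℚ (Complex.exp L) → Transcendental ℚ L

/-- Gel'fond-Schneider. -/
def GSStmt : Prop :=
  ∀ β L : ℂ, IsAlgebraic ℚ β → (∀ r : ℚ, β ≠ (r : ℂ)) → L ≠ 0 → IsAlgebraic ℚ (Complex.exp L) →
    Transcendental ℚ (Complex.exp (β * L))

/-- Brownawell-Waldschmidt, in the case needed. -/
def BWStmt : Prop :=
  ∀ β L₁ L₂ θ : ℂ, IsAlgebraic ℚ β → (∀ r : ℚ, β ≠ (r : ℂ)) →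
    (∀ s t : ℤ, (s : ℂ) * L₁ + t * L₂ = 0 → s = 0 ∧ t = 0) →
    IsAlgebraic ℚ (Complex.exp L₁) → IsAlgebraic ℚ (Complex.exp L₂) → Transcendental ℚ θ →
    IsAlgebraic (Algebra.adjoin ℚ ({θ} : Set ℂ)) L₁ →
    IsAlgebraic (Algebra.adjoin ℚ ({θ} : Set ℂ)) L₂ →
    IsAlgebraic (Algebra.adjoin ℚ ({θ} : Set ℂ)) (Complex.exp (β * L₁)) →
    IsAlgebraic (Algebra.adjoin ℚ ({θ} : Set ℂ)) (Complex.exp (β * L₂)) → False

/-- Two exceptional logarithms on different lines give independent powers. -/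
def IndStmt : Prop :=
  ∀ β L₁ L₂ : ℂ, IsAlgebraic ℚ β → (∀ r : ℚ, β ≠ (r : ℂ)) → L₁ ≠ 0 → L₂ ≠ 0 →
    (∀ q : ℚ, L₂ ≠ (q : ℂ) * L₁) → IsAlgebraic ℚ (Complex.exp L₁) →
    IsAlgebraic ℚ (Complex.exp L₂) → ¬ AlgebraicIndependent ℚ ![L₁, Complex.exp (β * L₁)] →
    ¬ AlgebraicIndependent ℚ ![L₂, Complex.exp (β * L₂)] →
    AlgebraicIndependent ℚ ![Complex.exp (β * L₁), Complex.exp (β * L₂)]

def ValStmt : Prop :=
  ∀ w₁ w₂ : ℂ, AlgebraicIndependent ℚ ![w₁, w₂] →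
    ∃ O : ValuationSubring ℂ, (∀ q : ℚ, (q : ℂ) ∈ O) ∧
      ∀ i j : ℤ, O.valuation w₁ ^ i * O.valuation w₂ ^ j = 1 → i = 0 ∧ j = 0

/-- Values of algebraically dependent numbers. -/
structure PairStmt : Prop where
  alg : ∀ (O : ValuationSubring ℂ), (∀ q : ℚ, (q : ℂ) ∈ O) → ∀ c : ℂ, IsAlgebraic ℚ c → c ≠ 0 →
    O.valuation c = 1
  dep : ∀ (O : ValuationSubring ℂ), (∀ q : ℚ, (q : ℂ) ∈ O) → ∀ L c w : ℂ, IsAlgebraic ℚ c →
    L - c ≠ 0 → Transcendental ℚ w → ¬ AlgebraicIndependent ℚ ![L, w] →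
    ∃ i j : ℤ, ¬ (i = 0 ∧ j = 0) ∧ O.valuation (L - c) ^ i * O.valuation w ^ j = 1
  unit : ∀ (O : ValuationSubring ℂ), (∀ q : ℚ, (q : ℂ) ∈ O) → ∀ L w : ℂ, w ≠ 0 →
    (∀ c : ℂ, IsAlgebraic ℚ c → O.valuation (L - c) = 1) → ¬ AlgebraicIndependent ℚ ![L, w] →
    O.valuation w = 1

def CoverStmt : Prop :=
  ∀ (O : ValuationSubring ℂ), (∀ q : ℚ, (q : ℂ) ∈ O) → ∀ (V : Submodule ℚ ℂ),
    FiniteDimensional ℚ V → (∃ L₀ ∈ V, Transcendental ℚ L₀) →
    ∃ (A : O.ValueGroup) (H : Submodule ℚ ℂ), A ≠ 0 ∧ H < V ∧ ∀ L ∈ V, L ∉ H → ∀ w : ℂ,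
      Transcendental ℚ w → ¬ AlgebraicIndependent ℚ ![L, w] →
      ∃ i j : ℤ, j ≠ 0 ∧ O.valuation w ^ j = A ^ i

end Pool.Agent.MP_655169_nt.FL

end

section

/-! A common finite family on which finitely many algebraic numbers act by integer matrices and
finitely many numbers algebraic over the ring generated by a number act by polynomial matrices. -/

open Polynomial Finset

namespace Pool.Agent.MP_655169_nt.FL

namespace FamL

theorem common (R : Type) [CommRing R] [IsDomain R] [Algebra R ℂ] (S : Finset ℂ)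
    (hS : ∀ x ∈ S, IsAlgebraic R x) : ∃ r : R, r ≠ 0 ∧ ∀ x ∈ S, IsIntegral R (r • x) := by
  classical
  induction S using Finset.induction_on with
  | empty => exact ⟨1, one_ne_zero, fun x hx => absurd hx (Finset.notMem_empty x)⟩
  | insert y S _ ih =>
    obtain ⟨r, hr, h⟩ := ih (fun x hx => hS x (Finset.mem_insert_of_mem hx))
    obtain ⟨s, hs, hy⟩ := (hS y (Finset.mem_insert_self y S)).exists_integral_multiple
    refine ⟨r * s, mul_ne_zero hr hs, fun x hx => ?_⟩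
    rcases Finset.mem_insert.mp hx with rfl | hx
    · rw [mul_smul]
      exact hy.smul r
    · rw [mul_comm, mul_smul]
      exact (h x hx).smul s

theorem gen (R : Type) [CommRing R] [IsDomain R] [Algebra R ℂ] (S : Finset ℂ)
    (hS : ∀ x ∈ S, IsAlgebraic R x) :
    ∃ (r : R) (n : ℕ) (u : Fin n → ℂ), r ≠ 0 ∧ u ≠ 0 ∧ ∀ x ∈ S, ∃ M : Matrix (Fin n) (Fin n) R,
      ∀ i, algebraMap R ℂ r * x * u i = ∑ j, algebraMap R ℂ (M i j) * u j := by
  classical
  obtain ⟨r, hr, h⟩ := common R S hS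
  have hfin : ((fun x : ℂ => r • x) '' (S : Set ℂ)).Finite := S.finite_toSet.image _
  have hfg : (Algebra.adjoin R ((fun x : ℂ => r • x) '' (S : Set ℂ))).toSubmodule.FG := by
    refine fg_adjoin_of_finite hfin ?_
    rintro _ ⟨x, hx, rfl⟩
    exact h x hx
  obtain ⟨n, u, hu⟩ := Submodule.fg_iff_exists_fin_generating_family.mp hfg
  have hmem : ∀ i, u i ∈ Algebra.adjoin R ((fun x : ℂ => r • x) '' (S : Set ℂ)) := by
    intro i
    have : u i ∈ Submodule.span R (Set.range u) := Submodule.subset_span ⟨i, rfl⟩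
    rw [hu] at this
    exact this
  refine ⟨r, n, u, hr, ?_, fun x hx => ?_⟩
  · intro h0
    have h1 : (1 : ℂ) ∈ Submodule.span R (Set.range u) := by
      rw [hu]
      exact Subalgebra.one_mem _
    obtain ⟨c, hc⟩ := (Submodule.mem_span_range_iff_exists_fun R).mp h1
    simp [h0] at hc
  · have key : ∀ i, ∃ c : Fin n → R, ∑ j, c j • u j = (r • x) * u i := by
      intro i
      refine (Submodule.mem_span_range_iff_exists_fun R).mp ?_
      rw [hu]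
      exact Subalgebra.mul_mem _ (Algebra.subset_adjoin ⟨x, hx, rfl⟩) (hmem i)
    choose c hc using key
    refine ⟨Matrix.of c, fun i => ?_⟩
    rw [← Algebra.smul_def, ← hc i]
    simp [Algebra.smul_def]

theorem den (θ c : ℂ) (hc : c ∈ Algebra.adjoin ℚ ({θ} : Set ℂ)) :
    ∃ (N : ℤ) (g : ℤ[X]), N ≠ 0 ∧ aeval θ g = (N : ℂ) * c := by
  rw [Algebra.adjoin_singleton_eq_range_aeval] at hc
  obtain ⟨f, rfl⟩ := hc
  obtain ⟨N, hN, h⟩ := IsLocalization.integerNormalization_spec (nonZeroDivisors ℤ) f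
  refine ⟨N, IsLocalization.integerNormalization (nonZeroDivisors ℤ) f,
    nonZeroDivisors.ne_zero hN, ?_⟩
  rw [← aeval_map_algebraMap ℚ, h, map_zsmul]
  simp

theorem alg (θ x : ℂ) (hx : IsAlgebraic (Algebra.adjoin ℚ ({θ} : Set ℂ)) x) :
    @IsAlgebraic ℤ[X] ℂ _ _ (aeval θ : ℤ[X] →ₐ[ℤ] ℂ).toRingHom.toAlgebra x := by
  let _ : Algebra ℤ[X] ℂ := (aeval θ : ℤ[X] →ₐ[ℤ] ℂ).toRingHom.toAlgebra
  let t : Algebra.adjoin ℚ ({θ} : Set ℂ) := ⟨θ, Algebra.self_mem_adjoin_singleton ℚ θ⟩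
  let _ : Algebra ℤ[X] (Algebra.adjoin ℚ ({θ} : Set ℂ)) :=
    (aeval t : ℤ[X] →ₐ[ℤ] _).toRingHom.toAlgebra
  have hval : ∀ g : ℤ[X], ((aeval t g : Algebra.adjoin ℚ ({θ} : Set ℂ)) : ℂ) = aeval θ g := by
    intro g
    exact (aeval_algHom_apply
      ((Algebra.adjoin ℚ ({θ} : Set ℂ)).val.toRingHom.toIntAlgHom) t g).symm
  have _ : IsScalarTower ℤ[X] (Algebra.adjoin ℚ ({θ} : Set ℂ)) ℂ :=
    IsScalarTower.of_algebraMap_eq fun g => (hval g).symm
  have _ : Algebra.IsAlgebraic ℤ[X] (Algebra.adjoin ℚ ({θ} : Set ℂ)) := by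
    refine ⟨fun c => ?_⟩
    obtain ⟨N, g, hN, h⟩ := den θ c c.2
    refine ⟨C (C N) * X - C g, ?_, ?_⟩
    · intro h0
      have := congrArg (fun p : ℤ[X][X] => p.coeff 1) h0
      simp at this
      exact hN this
    · rw [map_sub, map_mul, aeval_C, aeval_C, aeval_X]
      apply Subtype.ext
      change ((aeval t (C N) : Algebra.adjoin ℚ ({θ} : Set ℂ)) : ℂ) * c -
        ((aeval t g : Algebra.adjoin ℚ ({θ} : Set ℂ)) : ℂ) = 0
      rw [hval, hval, h]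
      simp
  exact hx.restrictScalars ℤ[X]

end FamL

theorem fam : FamStmt := by
  intro θ A B _ hA hB
  classical
  let _ : Algebra ℤ[X] ℂ := (aeval θ : ℤ[X] →ₐ[ℤ] ℂ).toRingHom.toAlgebra
  obtain ⟨a, n, u, ha, hu, hMA⟩ := FamL.gen ℤ A
    (fun x hx => (IsFractionRing.isAlgebraic_iff ℤ ℚ ℂ).mpr (hA x hx))
  obtain ⟨q, m, v, hq, hv, hMB⟩ := FamL.gen ℤ[X] B (fun x hx => FamL.alg θ x (hB x hx))
  refine ⟨n * m, fun k => u (finProdFinEquiv.symm k).1 * v (finProdFinEquiv.symm k).2, a, q,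
    ?_, ha, hq, fun x hx => ?_, fun x hx => ?_⟩
  · obtain ⟨i, hi⟩ := Function.ne_iff.mp hu
    obtain ⟨j, hj⟩ := Function.ne_iff.mp hv
    refine Function.ne_iff.mpr ⟨finProdFinEquiv (i, j), ?_⟩
    simp only [Equiv.symm_apply_apply]
    exact mul_ne_zero hi hj
  · obtain ⟨M, hM⟩ := hMA x hx
    refine ⟨Matrix.of fun k l => if (finProdFinEquiv.symm k).2 = (finProdFinEquiv.symm l).2 then
      M (finProdFinEquiv.symm k).1 (finProdFinEquiv.symm l).1 else 0, fun k => ?_⟩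
    obtain ⟨⟨i, j⟩, rfl⟩ := finProdFinEquiv.surjective k
    rw [← finProdFinEquiv.sum_comp, Fintype.sum_prod_type]
    simp only [Matrix.of_apply, Equiv.symm_apply_apply]
    have h := hM i
    simp only [eq_intCast] at h
    rw [← mul_assoc, h, Finset.sum_mul]
    refine Finset.sum_congr rfl fun i' _ => ?_
    rw [Finset.sum_eq_single j]
    · rw [if_pos rfl]
      ring
    · intro j' _ hj'
      rw [if_neg (Ne.symm hj')]
      simp
    · intro hj
      exact absurd (Finset.mem_univ j) hj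
  · obtain ⟨M, hM⟩ := hMB x hx
    refine ⟨Matrix.of fun k l => if (finProdFinEquiv.symm k).1 = (finProdFinEquiv.symm l).1 then
      M (finProdFinEquiv.symm k).2 (finProdFinEquiv.symm l).2 else 0, fun k => ?_⟩
    obtain ⟨⟨i, j⟩, rfl⟩ := finProdFinEquiv.surjective k
    rw [← finProdFinEquiv.sum_comp, Fintype.sum_prod_type]
    simp only [Matrix.of_apply, Equiv.symm_apply_apply]
    have h : aeval θ q * x * v j = ∑ j', aeval θ (M j j') * v j' := hM j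
    rw [Finset.sum_eq_single i]
    · have e : aeval θ q * x * (u i * v j) = u i * (aeval θ q * x * v j) := by ring
      rw [e, h, Finset.mul_sum]
      refine Finset.sum_congr rfl fun j' _ => ?_
      rw [if_pos rfl]
      ring
    · intro i' _ hi'
      refine Finset.sum_eq_zero fun j' _ => ?_
      rw [if_neg (Ne.symm hi')]
      simp
    · intro hi
      exact absurd (Finset.mem_univ i) hi

end Pool.Agent.MP_655169_nt.FL

end

section

/-! Construction of a size system from matrix representations. -/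

open Polynomial Finset

namespace Pool.Agent.MP_655169_nt.FL

namespace SysBL

open Filter

variable {D : ℕ} {θ : ℂ} {b : Fin D → ℂ} {x y : ℂ} {d d' : ℕ} {H H' : ℝ}

lemma cast {x' : ℂ} (h : Rep θ b x d H) (e1 : x = x') (e2 : d = d') (e3 : H = H') :
    Rep θ b x' d' H' := e1 ▸ e2 ▸ e3 ▸ h

lemma nonneg (hb : b ≠ 0) (h : Rep θ b x d H) : 0 ≤ H := by
  obtain ⟨i, -⟩ := Function.ne_iff.1 hb
  obtain ⟨M, h1, -⟩ := h
  have := (sum_nonneg fun j _ => norm_nonneg _).trans (h1 0 i)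
  simpa using this

lemma mono (hb : b ≠ 0) (h : Rep θ b x d H) (hd : d ≤ d') (hH : H ≤ H') : Rep θ b x d' H' := by
  have h0 := nonneg hb h
  obtain ⟨M, h1, h2⟩ := h
  refine ⟨M, fun z i => (h1 z i).trans ?_, h2⟩
  exact mul_le_mul hH (pow_le_pow_right₀ (le_max_left _ _) hd) (by positivity) (h0.trans hH)

lemma add (h : Rep θ b x d H) (h' : Rep θ b y d H') : Rep θ b (x + y) d (H + H') := by
  obtain ⟨M, h1, h2⟩ := h
  obtain ⟨M', h1', h2'⟩ := h'
  refine ⟨M + M', fun z i => ?_, fun i => ?_⟩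
  · rw [add_mul]
    refine le_trans ?_ (add_le_add (h1 z i) (h1' z i))
    rw [← sum_add_distrib]
    refine sum_le_sum fun j _ => ?_
    rw [Matrix.add_apply, map_add]
    exact norm_add_le _ _
  · rw [add_mul, h2, h2', ← sum_add_distrib]
    refine sum_congr rfl fun j _ => ?_
    rw [Matrix.add_apply, map_add, add_mul]

lemma mul (h : Rep θ b x d H) (h' : Rep θ b y d' H') : Rep θ b (x * y) (d + d') (H * H') := by
  obtain ⟨M, h1, h2⟩ := h
  obtain ⟨M', h1', h2'⟩ := h'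
  refine ⟨M' * M, fun z i => ?_, fun i => ?_⟩
  · have h0 : 0 ≤ H * max 1 ‖z‖ ^ d := (sum_nonneg fun j _ => norm_nonneg _).trans (h1 z i)
    calc ∑ k, ‖aeval z ((M' * M) i k)‖
        ≤ ∑ k, ∑ j, ‖aeval z (M' i j)‖ * ‖aeval z (M j k)‖ := by
          refine sum_le_sum fun k _ => ?_
          rw [Matrix.mul_apply, map_sum]
          refine (norm_sum_le _ _).trans (sum_le_sum fun j _ => ?_)
          rw [map_mul, norm_mul]
      _ = ∑ j, ‖aeval z (M' i j)‖ * ∑ k, ‖aeval z (M j k)‖ := by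
          rw [sum_comm]
          exact sum_congr rfl fun j _ => (mul_sum _ _ _).symm
      _ ≤ ∑ j, ‖aeval z (M' i j)‖ * (H * max 1 ‖z‖ ^ d) :=
          sum_le_sum fun j _ => mul_le_mul_of_nonneg_left (h1 z j) (norm_nonneg _)
      _ ≤ H' * max 1 ‖z‖ ^ d' * (H * max 1 ‖z‖ ^ d) := by
          rw [← sum_mul]
          exact mul_le_mul_of_nonneg_right (h1' z i) h0
      _ = _ := by ring
  · calc x * y * b i = ∑ j, aeval θ (M' i j) * (x * b j) := by
          rw [mul_assoc, h2', mul_sum]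
          exact sum_congr rfl fun j _ => by ring
      _ = ∑ j, ∑ k, aeval θ (M' i j) * aeval θ (M j k) * b k := by
          refine sum_congr rfl fun j _ => ?_
          rw [h2, mul_sum]
          exact sum_congr rfl fun k _ => by ring
      _ = _ := by
          rw [sum_comm]
          refine sum_congr rfl fun k _ => ?_
          rw [Matrix.mul_apply, map_sum, sum_mul]
          exact sum_congr rfl fun j _ => by rw [map_mul]

lemma scalar (q : ℤ[X]) (h : ∀ z : ℂ, ‖aeval z q‖ ≤ H * max 1 ‖z‖ ^ d) :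
    Rep θ b (aeval θ q) d H := by
  refine ⟨Matrix.diagonal fun _ => q, fun z i => ?_, fun i => ?_⟩
  · rw [sum_eq_single i (fun j _ hj => by simp [Matrix.diagonal_apply_ne' _ hj]) (by simp),
      Matrix.diagonal_apply_eq]
    exact h z
  · rw [sum_eq_single i (fun j _ hj => by simp [Matrix.diagonal_apply_ne' _ hj]) (by simp),
      Matrix.diagonal_apply_eq]

lemma int (z : ℤ) : Rep θ b (z : ℂ) 0 |(z : ℝ)| :=
  cast (scalar (C z) (fun w => by simp)) (by simp) rfl rfl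

lemma pow (h : Rep θ b x d H) (k : ℕ) : Rep θ b (x ^ k) (d * k) (H ^ k) := by
  induction k with
  | zero => exact cast (int 1) (by simp) rfl (by simp)
  | succ k ih => exact cast (mul ih h) (pow_succ _ _).symm rfl (pow_succ _ _).symm

lemma poly_bd (q : ℤ[X]) : ∀ᶠ N : ℕ in atTop, ∀ z : ℂ, ‖aeval z q‖ ≤ N * max 1 ‖z‖ ^ N := by
  filter_upwards [eventually_ge_atTop q.natDegree, tendsto_natCast_atTop_atTop.eventually_ge_atTop
    (∑ i ∈ range (q.natDegree + 1), |(q.coeff i : ℝ)|)] with N h1 h2 z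
  rw [aeval_eq_sum_range]
  refine (norm_sum_le _ _).trans (le_trans ?_ (mul_le_mul_of_nonneg_right h2 (by positivity)))
  rw [sum_mul]
  refine sum_le_sum fun i hi => ?_
  rw [zsmul_eq_mul, norm_mul, norm_pow, Complex.norm_intCast]
  refine mul_le_mul_of_nonneg_left ?_ (abs_nonneg _)
  exact (pow_le_pow_left₀ (norm_nonneg _) (le_max_right _ _) i).trans
    (pow_le_pow_right₀ (le_max_left _ _) ((Nat.lt_succ_iff.1 (mem_range.1 hi)).trans h1))

lemma ev_poly (hb : b ≠ 0) (M : Matrix (Fin D) (Fin D) ℤ[X])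
    (h : ∀ i, x * b i = ∑ j, aeval θ (M i j) * b j) : ∀ᶠ N : ℕ in atTop, Rep θ b x N N := by
  obtain ⟨K, hK⟩ := (eventually_all.2 fun i => eventually_all.2 fun j => poly_bd (M i j)).exists
  have hR : Rep θ b x K (D * K) := by
    refine ⟨M, fun z i => (sum_le_sum fun j _ => hK i j z).trans_eq ?_, h⟩
    simp [mul_assoc]
  filter_upwards [eventually_ge_atTop K, eventually_ge_atTop (D * K)] with N h1 h2
  exact mono hb hR h1 (by exact_mod_cast h2)

lemma ev_int (hb : b ≠ 0) (M : Matrix (Fin D) (Fin D) ℤ)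
    (h : ∀ i, x * b i = ∑ j, (M i j : ℂ) * b j) : ∀ᶠ N : ℕ in atTop, Rep θ b x 0 N := by
  have hR : Rep θ b x 0 (∑ i, ∑ j, |(M i j : ℝ)|) := by
    refine ⟨fun i j => C (M i j), fun z i => ?_, fun i => by simpa using h i⟩
    have := single_le_sum (f := fun i => ∑ j, |(M i j : ℝ)|)
      (fun i _ => sum_nonneg fun j _ => abs_nonneg _) (mem_univ i)
    simpa using this
  filter_upwards [tendsto_natCast_atTop_atTop.eventually_ge_atTop (∑ i, ∑ j, |(M i j : ℝ)|)]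
    with N h1
  exact mono hb hR le_rfl h1

lemma pow_le_exp {u E : ℝ} (h0 : 0 ≤ u) (h : u ≤ Real.exp E) (k : ℕ) :
    u ^ k ≤ Real.exp (k * E) := by
  rw [Real.exp_nat_mul]
  exact pow_le_pow_left₀ h0 h k

end SysBL

open SysBL Filter in
theorem sysB (h1 : RepOutStmt) (h2 : FamStmt) : SysStmt := by
  intro θ A B hθ hA hB
  obtain ⟨D, b, a, q, hb, ha, hq, hA', hB'⟩ := h2 θ A B hθ hA hB
  obtain ⟨N, ⟨⟨⟨hN, haN⟩, hqN⟩, hAN⟩, hBN⟩ := (((((eventually_ge_atTop 1).and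
    (tendsto_natCast_atTop_atTop.eventually_ge_atTop |(a : ℝ)|)).and (poly_bd q)).and
    ((eventually_all_finset A).2 fun x hx => (hA' x hx).elim fun M h => ev_int (θ := θ) hb M h)).and
    ((eventually_all_finset B).2 fun x hx => (hB' x hx).elim fun M h => ev_poly hb M h)).exists
  have hN1 : (1 : ℝ) ≤ N := by exact_mod_cast hN
  have hQ : aeval θ q ≠ 0 := by
    intro e
    refine hθ ⟨q.map (Int.castRingHom ℚ), (Polynomial.map_ne_zero_iff Int.cast_injective).2 hq, ?_⟩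
    rw [← e]
    exact aeval_map_algebraMap ℚ θ q
  have ra : Rep θ b (a : ℂ) 0 N := mono hb (int a) le_rfl haN
  have rq : Rep θ b (aeval θ q) N N := scalar q hqN
  obtain ⟨r, hr⟩ : ∃ r : ℝ, r = max 1 ‖θ‖ := ⟨_, rfl⟩
  have hr1 : 1 ≤ r ^ N := one_le_pow₀ (hr ▸ le_max_left _ _)
  obtain ⟨E, hE⟩ : ∃ E : ℝ, E = N + r ^ N + 1 := ⟨_, rfl⟩
  have hE1 : 1 ≤ E := by linarith
  have hEe := Real.add_one_le_exp E
  have hD : (0 : ℝ) ≤ D := Nat.cast_nonneg D
  refine ⟨⟨fun x m n H => Rep θ b ((a : ℂ) ^ m * aeval θ q ^ n * x) (N * n) (H * N ^ (m + n)),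
    (2 * D + 2) * E, by nlinarith, fun h => ?_, ?_, fun h h' => ?_, fun h h' => ?_, fun z => ?_,
    ?_⟩, fun x hx => ?_, fun x hx => ?_⟩
  · exact (mul_nonneg_iff_of_pos_right (by positivity)).1 (nonneg hb h)
  · intro x m n m' n' H H' h hm hn hH
    obtain ⟨k, rfl⟩ := Nat.exists_eq_add_of_le hm
    obtain ⟨l, rfl⟩ := Nat.exists_eq_add_of_le hn
    refine mono hb (cast (mul (mul (pow ra k) (pow rq l)) h) (by ring) (by ring) rfl) le_rfl ?_
    calc (N : ℝ) ^ k * N ^ l * (H * N ^ (m + n)) = H * N ^ (m + k + (n + l)) := by ring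
      _ ≤ _ := mul_le_mul_of_nonneg_right hH (by positivity)
  · exact cast (add h h') (by ring) rfl (by ring)
  · exact cast (mul h h') (by ring) (by ring) (by ring)
  · exact cast (int z) (by ring) rfl (by ring)
  · intro x m n h hx hh hR
    have hx' : (a : ℂ) ^ m * aeval θ q ^ n * x ≠ 0 :=
      mul_ne_zero (mul_ne_zero (pow_ne_zero _ (Int.cast_ne_zero.2 ha)) (pow_ne_zero _ hQ)) hx
    obtain ⟨P, hP, p1, p2, p3⟩ := h1 D θ b _ _ _ hθ hb hx'
      (one_le_mul_of_one_le_of_one_le (Real.one_le_exp hh) (one_le_pow₀ hN1)) hR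
    obtain ⟨T, hT⟩ : ∃ T : ℝ, T = E * (m + n + h + 1) := ⟨_, rfl⟩
    have hm : (0 : ℝ) ≤ m := Nat.cast_nonneg m
    have hn : (0 : ℝ) ≤ n := Nat.cast_nonneg n
    have hT0 : 0 ≤ T := by rw [hT]; positivity
    have b1 : 2 * (Real.exp h * (N : ℝ) ^ (m + n)) ≤ Real.exp T := by
      calc 2 * (Real.exp h * (N : ℝ) ^ (m + n))
          ≤ Real.exp E * (Real.exp h * Real.exp ((m + n : ℕ) * E)) :=
            mul_le_mul (by linarith) (mul_le_mul_of_nonneg_left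
              (pow_le_exp (by linarith) (by linarith) _) (Real.exp_pos h).le) (by positivity)
              (Real.exp_pos E).le
        _ ≤ _ := by
            rw [← Real.exp_add, ← Real.exp_add, Real.exp_le_exp, hT]
            push_cast
            nlinarith
    have b2 : r ^ (N * n) ≤ Real.exp T := by
      rw [pow_mul]
      refine (pow_le_exp (E := E) (by linarith) (by linarith) n).trans ?_
      rw [Real.exp_le_exp, hT]
      nlinarith
    have b3 : ‖(a : ℂ) ^ m * aeval θ q ^ n‖ ≤ Real.exp (2 * T) := by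
      rw [norm_mul, norm_pow, norm_pow, Complex.norm_intCast]
      have e1 : ‖aeval θ q‖ ≤ Real.exp (2 * E) := by
        refine (hqN θ).trans ?_
        rw [← hr, two_mul, Real.exp_add]
        exact mul_le_mul (by linarith) (by linarith) (by linarith) (Real.exp_pos E).le
      refine (mul_le_mul (pow_le_exp (E := E) (abs_nonneg _) (by linarith) m)
        (pow_le_exp (norm_nonneg _) e1 n) (by positivity) (Real.exp_pos _).le).trans ?_
      rw [← Real.exp_add, Real.exp_le_exp, hT]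
      nlinarith
    have hc : (2 * D + 2) * E * (m + n + h + 1) = (2 * D + 2) * T := by rw [hT]; ring
    refine ⟨P, hP, ?_, p2.trans ?_, p3.trans ?_⟩
    · have : (P.natDegree : ℝ) ≤ D * (N * n) := by exact_mod_cast p1
      refine this.trans ?_
      rw [← mul_assoc]
      exact mul_le_mul_of_nonneg_right (by nlinarith) hn
    · refine (pow_le_exp (by positivity) b1 D).trans ?_
      rw [hc, Real.exp_le_exp]
      nlinarith
    · have b4 : 2 * (Real.exp h * (N : ℝ) ^ (m + n)) * r ^ (N * n) ≤ Real.exp (2 * T) := by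
        rw [two_mul T, Real.exp_add]
        exact mul_le_mul b1 b2 (by rw [pow_mul]; positivity) (Real.exp_pos T).le
      have b5 := pow_le_exp (by rw [pow_mul]; positivity) b4 D
      rw [← hr, hc, norm_mul, mul_comm _ ‖x‖, mul_assoc]
      refine mul_le_mul_of_nonneg_left ?_ (norm_nonneg x)
      refine (mul_le_mul b3 b5 (by rw [pow_mul]; positivity) (Real.exp_pos _).le).trans_eq ?_
      rw [← Real.exp_add]
      congr 1
      ring
  · exact cast (hAN x hx) (by ring) rfl (by ring)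
  · exact cast (hBN x hx) (by ring) (by ring) (by ring)

end Pool.Agent.MP_655169_nt.FL

end

section

open Polynomial Finset

namespace Pool.Agent.MP_655169_nt.FL

namespace EntryL

variable {θ : ℂ} (S : Sys θ)

theorem Sz_nat (n : ℕ) : S.Sz (n : ℂ) 0 0 n := by
  simpa using S.int n

theorem Sz_pow {x : ℂ} {m n : ℕ} {H : ℝ} (h : S.Sz x m n H) (e : ℕ) :
    S.Sz (x ^ e) (e * m) (e * n) (H ^ e) := by
  induction e with
  | zero => simpa using Sz_nat S 1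
  | succ e ih =>
    rw [pow_succ, pow_succ, add_one_mul, add_one_mul]
    exact S.mul ih h

theorem Sz_sum {ι : Type} (T : Finset ι) (x : ι → ℂ) (H : ι → ℝ) (m n : ℕ)
    (h : ∀ i ∈ T, S.Sz (x i) m n (H i)) : S.Sz (∑ i ∈ T, x i) m n (∑ i ∈ T, H i) := by
  classical
  induction T using Finset.induction_on with
  | empty => simpa using S.mono (Sz_nat S 0) m.zero_le n.zero_le le_rfl
  | insert a T ha ih =>
    rw [sum_insert ha, sum_insert ha]
    exact S.add (h a (mem_insert_self _ _)) (ih fun i hi => h i (mem_insert_of_mem hi))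

theorem desc_le (τ ν : ℕ) : τ.descFactorial ν ≤ τ ^ τ := by
  rcases lt_or_ge τ ν with h | h
  · rw [Nat.descFactorial_of_lt h]
    exact Nat.zero_le _
  · refine (Nat.descFactorial_le_pow τ ν).trans ?_
    rcases Nat.eq_zero_or_pos τ with rfl | h0
    · rw [Nat.le_zero.1 h]
    · exact Nat.pow_le_pow_right h0 h

end EntryL

open EntryL in
theorem entry : EntryStmt := by
  intro θ S β L₁ L₂ eL ew G τ j k σ s t
  have hy : S.Sz ((s : ℂ) * L₁ + t * L₂) 1 eL ((s : ℝ) + t + 1) :=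
    S.mono (S.add (S.mul (Sz_nat S s) G.l₁) (S.mul (Sz_nat S t) G.l₂)) (by omega) (by omega)
      (by linarith)
  have hl : S.Sz ((j : ℂ) + k * β) 1 0 ((j : ℝ) + k + 1) :=
    S.mono (S.add (S.mono (Sz_nat S j) zero_le_one le_rfl le_rfl) (S.mul (Sz_nat S k) G.hβ))
      (by omega) (by omega) (by linarith)
  have he : S.Sz (Complex.exp (((j : ℂ) + k * β) * ((s : ℂ) * L₁ + t * L₂))) ((j + k) * (s + t))
      (k * (s + t) * ew) 1 := by
    have e : ((j : ℂ) + k * β) * ((s : ℂ) * L₁ + t * L₂) = (j * s : ℕ) * L₁ + (j * t : ℕ) * L₂ +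
        (k * s : ℕ) * (β * L₁) + (k * t : ℕ) * (β * L₂) := by
      push_cast
      ring
    rw [e, Complex.exp_add, Complex.exp_add, Complex.exp_add, Complex.exp_nat_mul,
      Complex.exp_nat_mul, Complex.exp_nat_mul, Complex.exp_nat_mul]
    exact S.mono (S.mul (S.mul (S.mul (Sz_pow S G.a₁ _) (Sz_pow S G.a₂ _)) (Sz_pow S G.w₁ _))
      (Sz_pow S G.w₂ _)) (le_of_eq (by ring)) (le_of_eq (by ring)) (by simp)
  rw [LogPow.EvalL.der]
  refine S.mono (Sz_sum S _ _ (fun ν => (σ.choose ν : ℝ) *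
    ((τ : ℝ) ^ τ * ((s : ℝ) + t + 1) ^ τ * ((j : ℝ) + k + 1) ^ σ)) _ _ fun ν _ => ?_)
    le_rfl le_rfl (le_of_eq ?_)
  · refine S.mono (S.mul (S.mul (Sz_nat S _) (S.mul (Sz_nat S _) (Sz_pow S hy _)))
      (S.mul (Sz_pow S hl _) he)) (by omega) ?_ ?_
    · have := Nat.mul_le_mul_right eL (Nat.sub_le τ ν)
      omega
    · have h1 : (τ.descFactorial ν : ℝ) ≤ (τ : ℝ) ^ τ := by exact_mod_cast desc_le τ ν
      have h2 : ((s : ℝ) + t + 1) ^ (τ - ν) ≤ ((s : ℝ) + t + 1) ^ τ :=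
        pow_le_pow_right₀ (le_add_of_nonneg_left (by positivity)) (Nat.sub_le _ _)
      have h3 : ((j : ℝ) + k + 1) ^ (σ - ν) ≤ ((j : ℝ) + k + 1) ^ σ :=
        pow_le_pow_right₀ (le_add_of_nonneg_left (by positivity)) (Nat.sub_le _ _)
      rw [mul_one, mul_assoc]
      gcongr
  · rw [← sum_mul, ← Nat.cast_sum, Nat.sum_range_choose]
    push_cast
    ring

end Pool.Agent.MP_655169_nt.FL

end

section

/-! The resultant inequality. -/

open Polynomial Finset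

namespace Pool.Agent.MP_655169_nt.FL

namespace ResL

theorem prod_le (s : Multiset ℂ) (a b : ℂ → ℝ) (c : ℝ) (h0 : ∀ x ∈ s, 0 ≤ a x)
    (h : ∀ x ∈ s, a x ≤ c * b x) : (s.map a).prod ≤ c ^ s.card * (s.map b).prod := by
  refine (Multiset.prod_map_le_prod_map₀ a (fun x => c * b x) h0 h).trans (le_of_eq ?_)
  rw [Multiset.prod_map_mul, Multiset.map_const', Multiset.prod_replicate]

theorem norm_prod (s : Multiset ℂ) (a : ℂ → ℂ) :
    ‖(s.map a).prod‖ = (s.map fun x => ‖a x‖).prod := by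
  induction s using Multiset.induction_on with
  | empty => simp
  | cons x s ih => simp [ih]

theorem norm_eval (f : ℂ[X]) (x : ℂ) :
    ‖f.eval x‖ = ‖f.leadingCoeff‖ * (f.roots.map fun s => ‖x - s‖).prod := by
  rw [(IsAlgClosed.splits f).eval_eq_prod_roots, norm_mul, norm_prod]

theorem near (f : ℂ[X]) (θ r : ℂ) (h : ∀ s ∈ f.roots, ‖θ - r‖ ≤ ‖θ - s‖) :
    ‖f.eval r‖ ≤ 2 ^ f.natDegree * ‖f.eval θ‖ := by
  rw [norm_eval, norm_eval, mul_left_comm, ← IsAlgClosed.card_roots_eq_natDegree]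
  refine mul_le_mul_of_nonneg_left (prod_le _ _ _ _ (fun _ _ => norm_nonneg _) fun s hs => ?_)
    (norm_nonneg _)
  have := norm_sub_le (θ - s) (θ - r)
  rw [show θ - s - (θ - r) = r - s by ring] at this
  linarith [h s hs]

theorem far (f : ℂ[X]) (r : ℂ) :
    ‖f.eval r‖ ≤ (2 ^ f.natDegree * f.mahlerMeasure) * (max 1 ‖r‖) ^ f.natDegree := by
  rw [norm_eval, mahlerMeasure_eq_leadingCoeff_mul_prod_roots, mul_right_comm, ← mul_pow,
    mul_left_comm, ← IsAlgClosed.card_roots_eq_natDegree]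
  refine mul_le_mul_of_nonneg_left (prod_le _ _ _ _ (fun _ _ => norm_nonneg _) fun s _ => ?_)
    (norm_nonneg _)
  have a1 := le_max_left 1 ‖r‖
  have a2 := le_max_right 1 ‖r‖
  have b1 := le_max_left 1 ‖s‖
  have b2 := le_max_right 1 ‖s‖
  nlinarith [norm_sub_le r s, mul_nonneg (sub_nonneg.2 a1) (sub_nonneg.2 b1)]

theorem core (θ r : ℂ) (f g : ℂ[X]) (hf : 1 ≤ f.mahlerMeasure) (hr : r ∈ g.roots)
    (h : ∀ s ∈ f.roots, ‖θ - r‖ ≤ ‖θ - s‖) :
    ‖resultant g f‖ ≤ ‖f.eval θ‖ * 2 ^ (f.natDegree * g.natDegree) *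
      f.mahlerMeasure ^ g.natDegree * g.mahlerMeasure ^ f.natDegree := by
  obtain ⟨T, hT⟩ := Multiset.exists_cons_of_mem hr
  have hq : g.natDegree = T.card + 1 := by
    rw [← IsAlgClosed.card_roots_eq_natDegree, hT, Multiset.card_cons]
  have h0 : 0 ≤ (T.map fun a => max 1 ‖a‖).prod :=
    Multiset.prod_map_nonneg fun _ _ => by positivity
  have h1 : ‖g.leadingCoeff‖ * (T.map fun a => max 1 ‖a‖).prod ≤ g.mahlerMeasure := by
    rw [mahlerMeasure_eq_leadingCoeff_mul_prod_roots, hT, Multiset.map_cons, Multiset.prod_cons]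
    exact mul_le_mul_of_nonneg_left (le_mul_of_one_le_left h0 (le_max_left _ _)) (norm_nonneg _)
  have h2 := prod_le T (fun x => ‖f.eval x‖) (fun a => (max 1 ‖a‖) ^ f.natDegree) _
    (fun _ _ => norm_nonneg _) fun x _ => far f x
  rw [Multiset.prod_map_pow] at h2
  have h3 := near f θ r h
  have h4 : 0 ≤ (T.map fun x => ‖f.eval x‖).prod :=
    Multiset.prod_map_nonneg fun _ _ => norm_nonneg _
  rw [resultant_eq_prod_eval g f _ le_rfl (IsAlgClosed.splits g), norm_mul, norm_pow, norm_prod, hT,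
    Multiset.map_cons, Multiset.prod_cons, hq]
  calc ‖g.leadingCoeff‖ ^ f.natDegree * (‖f.eval r‖ * (T.map fun x => ‖f.eval x‖).prod)
      ≤ ‖g.leadingCoeff‖ ^ f.natDegree * ((2 ^ f.natDegree * ‖f.eval θ‖) *
        ((2 ^ f.natDegree * f.mahlerMeasure) ^ T.card *
          (T.map fun a => max 1 ‖a‖).prod ^ f.natDegree)) := by gcongr
    _ = ‖f.eval θ‖ * 2 ^ (f.natDegree * (T.card + 1)) * (f.mahlerMeasure ^ T.card * 1) *
        (‖g.leadingCoeff‖ * (T.map fun a => max 1 ‖a‖).prod) ^ f.natDegree := by ring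
    _ ≤ _ := by rw [pow_succ f.mahlerMeasure]; gcongr

theorem half (θ r : ℂ) (P Q : ℤ[X]) (hP : P ≠ 0)
    (hc : IsCoprime (Q.map (Int.castRingHom ℂ)) (P.map (Int.castRingHom ℂ)))
    (hr : r ∈ (Q.map (Int.castRingHom ℂ)).roots)
    (h : ∀ s ∈ (P.map (Int.castRingHom ℂ)).roots, ‖θ - r‖ ≤ ‖θ - s‖) :
    1 ≤ ‖aeval θ P‖ * 2 ^ (P.natDegree * Q.natDegree) * MM P ^ Q.natDegree *
      MM Q ^ P.natDegree := by
  have h1 := core θ r _ _ (one_le_mahlerMeasure_of_ne_zero hP) hr h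
  have h2 := resultant_ne_zero _ _ hc
  rw [resultant_map_map] at h1 h2
  rw [natDegree_map_eq_of_injective (Int.castRingHom ℂ).injective_int,
    natDegree_map_eq_of_injective (Int.castRingHom ℂ).injective_int] at h1 h2
  rw [← eval_map_algebraMap]
  refine le_trans ?_ h1
  rw [eq_intCast] at h2 ⊢
  rw [Complex.norm_intCast]
  exact_mod_cast Int.one_le_abs (Int.cast_ne_zero.1 h2)

end ResL

theorem res : ResStmt := by
  intro θ P Q hP hQ hc
  have e : ∀ R : ℤ[X], (R.map (Int.castRingHom ℚ)).map (algebraMap ℚ ℂ)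
      = R.map (Int.castRingHom ℂ) := fun R => by
    rw [Polynomial.map_map]
    congr 1
  have hc' : IsCoprime (P.map (Int.castRingHom ℂ)) (Q.map (Int.castRingHom ℂ)) := by
    have := hc.map (mapRingHom (algebraMap ℚ ℂ))
    rwa [coe_mapRingHom, e, e] at this
  have m1 : 0 ≤ MM P := mahlerMeasure_nonneg _
  have m2 : 0 ≤ MM Q := mahlerMeasure_nonneg _
  classical
  rcases ((P.map (Int.castRingHom ℂ)).roots + (Q.map (Int.castRingHom ℂ)).roots).toFinset.eq_empty_or_nonempty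
    with h | h
  · rw [Multiset.toFinset_eq_empty, add_eq_zero] at h
    have d : ∀ R : ℤ[X], (R.map (Int.castRingHom ℂ)).roots = 0 → R.natDegree = 0 := fun R hR => by
      rw [← natDegree_map_eq_of_injective (Int.castRingHom ℂ).injective_int,
        ← IsAlgClosed.card_roots_eq_natDegree, hR, Multiset.card_zero]
    rw [d P h.1, d Q h.2]
    simp only [mul_zero, pow_zero, mul_one]
    refine le_trans ?_ (le_max_left _ _)
    have := one_le_mahlerMeasure_of_ne_zero hP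
    rw [mahlerMeasure_eq_leadingCoeff_mul_prod_roots, h.1] at this
    rw [← eval_map_algebraMap, algebraMap_int_eq, ResL.norm_eval, h.1]
    exact this
  · obtain ⟨r, hr, hm⟩ := exists_min_image _ (fun s => ‖θ - s‖) h
    simp only [Multiset.mem_toFinset, Multiset.mem_add] at hr hm
    rcases hr with hr | hr
    · refine (ResL.half θ r Q P hQ hc' hr fun s hs => hm s (Or.inr hs)).trans ?_
      rw [mul_comm Q.natDegree, mul_right_comm]
      gcongr
      exact le_max_right _ _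
    · refine (ResL.half θ r P Q hP hc'.symm hr fun s hs => hm s (Or.inl hs)).trans ?_
      gcongr
      exact le_max_left _ _

end Pool.Agent.MP_655169_nt.FL

end

section

open Polynomial Finset

namespace Pool.Agent.MP_655169_nt.FL

namespace CritL

theorem MM_mul (P Q : ℤ[X]) : MM (P * Q) = MM P * MM Q := by
  unfold MM
  rw [Polynomial.map_mul, mahlerMeasure_mul]

theorem one_le_MM {P : ℤ[X]} (hP : P ≠ 0) : 1 ≤ MM P := one_le_mahlerMeasure_of_ne_zero hP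

theorem MM_C (z : ℤ) : MM (C z) = ‖(z : ℂ)‖ := by
  unfold MM
  rw [Polynomial.map_C, mahlerMeasure_const]
  simp

theorem aeval_ne {θ : ℂ} (hθ : Transcendental ℚ θ) {P : ℤ[X]} (hP : P ≠ 0) : aeval θ P ≠ 0 := by
  intro h
  apply hθ
  refine ⟨P.map (Int.castRingHom ℚ), ?_, ?_⟩
  · exact (Polynomial.map_ne_zero_iff (Int.castRingHom ℚ).injective_int).mpr hP
  · rw [show Int.castRingHom ℚ = algebraMap ℤ ℚ from rfl, aeval_map_algebraMap]
    exact h

theorem unit_norm {u : ℤ[X]} (hu : IsUnit u) : ∃ z : ℤ, u = C z ∧ ‖(z : ℂ)‖ = 1 := by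
  obtain ⟨r, hr, rfl⟩ := Polynomial.isUnit_iff.mp hu
  refine ⟨r, rfl, ?_⟩
  rcases Int.isUnit_iff.mp hr with h | h <;> simp [h]

/-- The additive weight used to select a factor. -/
noncomputable def phi (θ : ℂ) (s t : ℝ) (P : ℤ[X]) : ℝ :=
  -Real.log ‖aeval θ P‖ - ((P.natDegree : ℝ) * s + Real.log (MM P) * t)

theorem phi_mul {θ : ℂ} (hθ : Transcendental ℚ θ) (s t : ℝ) {P Q : ℤ[X]} (hP : P ≠ 0)
    (hQ : Q ≠ 0) : phi θ s t (P * Q) = phi θ s t P + phi θ s t Q := by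
  unfold phi
  have h1 := one_le_MM hP
  have h2 := one_le_MM hQ
  rw [map_mul, norm_mul, Real.log_mul (norm_ne_zero_iff.mpr (aeval_ne hθ hP))
    (norm_ne_zero_iff.mpr (aeval_ne hθ hQ)), MM_mul, Real.log_mul (by linarith) (by linarith),
    natDegree_mul hP hQ]
  push_cast
  ring

theorem phi_C (θ : ℂ) (s t : ℝ) (ht : 0 ≤ t) {z : ℤ} (hz : z ≠ 0) : phi θ s t (C z) ≤ 0 := by
  unfold phi
  have h1 : 1 ≤ ‖(z : ℂ)‖ := by
    rw [← MM_C]; exact one_le_MM (by simpa using hz)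
  have h2 := Real.log_nonneg h1
  have h3 : aeval θ (C z) = (z : ℂ) := by simp
  rw [h3, MM_C, natDegree_C]
  have := mul_nonneg h2 ht
  simp only [Nat.cast_zero, zero_mul, zero_add]
  linarith

theorem select {θ : ℂ} (hθ : Transcendental ℚ θ) (s t : ℝ) (ht : 0 ≤ t) (Q : ℤ[X]) :
    Q ≠ 0 → 0 < phi θ s t Q → ∃ P : ℤ[X], Irreducible P ∧ P ∣ Q ∧ 0 < phi θ s t P := by
  induction Q using WfDvdMonoid.induction_on_irreducible with
  | zero => exact fun h => absurd rfl h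
  | unit u hu =>
    intro h0 h
    obtain ⟨z, rfl, -⟩ := unit_norm hu
    have := phi_C θ s t ht (z := z) (by simpa using h0)
    linarith
  | mul a i ha hi ih =>
    intro _ h
    rw [phi_mul hθ s t hi.ne_zero ha] at h
    by_cases h1 : 0 < phi θ s t i
    · exact ⟨i, hi, dvd_mul_right _ _, h1⟩
    · obtain ⟨P, hP, hd, hp⟩ := ih ha (by linarith)
      exact ⟨P, hP, Dvd.dvd.mul_left hd _, hp⟩

theorem good {θ : ℂ} (hθ : Transcendental ℚ θ) (A d h : ℝ) (hA : 1 ≤ A) (hd : 1 ≤ d)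
    (hh : d ≤ h) (Q : ℤ[X]) (hQ : Q ≠ 0) (h1 : (Q.natDegree : ℝ) ≤ d)
    (h2 : MM Q ≤ Real.exp h) (h3 : ‖aeval θ Q‖ ≤ Real.exp (-(10 * A * d * h))) :
    ∃ P : ℤ[X], Irreducible P ∧ 1 ≤ P.natDegree ∧ (P.natDegree : ℝ) ≤ d ∧
      Real.log (MM P) ≤ h ∧
      4 * A * ((P.natDegree : ℝ) * h + Real.log (MM P) * d) < -Real.log ‖aeval θ P‖ := by
  have hM := one_le_MM hQ
  have l2 : Real.log (MM Q) ≤ h := by
    rw [Real.log_le_iff_le_exp (by linarith)]; exact h2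
  have l3 : Real.log ‖aeval θ Q‖ ≤ -(10 * A * d * h) := by
    rw [Real.log_le_iff_le_exp (norm_pos_iff.mpr (aeval_ne hθ hQ))]; exact h3
  have hAd : 0 ≤ 4 * A * d := by positivity
  have hh0 : 0 < h := by linarith
  have hAh : 0 ≤ 4 * A * h := by positivity
  have hpos : 0 < phi θ (4 * A * h) (4 * A * d) Q := by
    unfold phi
    have e1 := mul_le_mul_of_nonneg_right h1 hAh
    have e2 := mul_le_mul_of_nonneg_right l2 hAd
    have e3 : 0 < A * d * h := by positivity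
    nlinarith
  obtain ⟨P, hP, ⟨R, hR⟩, hp⟩ := select hθ _ _ hAd Q hQ hpos
  have hR0 : R ≠ 0 := by rintro rfl; exact hQ (by simpa using hR)
  refine ⟨P, hP, ?_, ?_, ?_, ?_⟩
  · by_contra hc
    have h0 : P.natDegree = 0 := by omega
    rw [eq_C_of_natDegree_eq_zero h0] at hp
    have hz : P.coeff 0 ≠ 0 := by
      intro hz
      apply hP.ne_zero
      rw [eq_C_of_natDegree_eq_zero h0, hz, C_0]
    have := phi_C θ (4 * A * h) (4 * A * d) hAd hz
    linarith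
  · refine le_trans ?_ h1
    exact_mod_cast natDegree_le_of_dvd ⟨R, hR⟩ hQ
  · refine le_trans (Real.log_le_log (by linarith [one_le_MM hP.ne_zero]) ?_) l2
    rw [hR, MM_mul]
    nlinarith [one_le_MM hP.ne_zero, one_le_MM hR0]
  · unfold phi at hp
    linarith

theorem same_norm (θ : ℂ) {P Q : ℤ[X]} (hP : Irreducible P) (hQ : Irreducible Q)
    (hp : 1 ≤ P.natDegree)
    (h : ¬ IsCoprime (P.map (Int.castRingHom ℚ)) (Q.map (Int.castRingHom ℚ))) :
    ‖aeval θ Q‖ = ‖aeval θ P‖ := by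
  have hprim : P.IsPrimitive := hP.isPrimitive (by omega)
  have hirr := (IsPrimitive.Int.irreducible_iff_irreducible_map_cast hprim).mp hP
  rw [hirr.coprime_iff_not_dvd, not_not,
    ← IsPrimitive.Int.dvd_iff_map_cast_dvd_map_cast P Q hprim] at h
  obtain ⟨u, hu⟩ := hP.associated_of_dvd hQ h
  obtain ⟨z, hz, hn⟩ := unit_norm u.isUnit
  rw [← hu, hz, map_mul, norm_mul]
  have : aeval θ (C z) = (z : ℂ) := by simp
  rw [this, hn, mul_one]

theorem res_log (hres : ResStmt) {θ : ℂ} (hθ : Transcendental ℚ θ) {P Q : ℤ[X]} (hP : P ≠ 0)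
    (hQ : Q ≠ 0) (h : IsCoprime (P.map (Int.castRingHom ℚ)) (Q.map (Int.castRingHom ℚ))) :
    -Real.log ‖aeval θ P‖ ≤ (P.natDegree : ℝ) * Q.natDegree + Q.natDegree * Real.log (MM P) +
        P.natDegree * Real.log (MM Q) ∨
      -Real.log ‖aeval θ Q‖ ≤ (P.natDegree : ℝ) * Q.natDegree + Q.natDegree * Real.log (MM P) +
        P.natDegree * Real.log (MM Q) := by
  have h1 := hres θ P Q hP hQ h
  have m1 := one_le_MM hP
  have m2 := one_le_MM hQ
  have key : ∀ x : ℝ, 0 < x → 1 ≤ x * 2 ^ (P.natDegree * Q.natDegree) *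
      MM P ^ Q.natDegree * MM Q ^ P.natDegree →
      -Real.log x ≤ (P.natDegree : ℝ) * Q.natDegree + Q.natDegree * Real.log (MM P) +
        P.natDegree * Real.log (MM Q) := by
    intro x hx h2
    have h3 := Real.log_nonneg h2
    have p1 : 0 < MM P := by linarith
    have p2 : 0 < MM Q := by linarith
    rw [Real.log_mul (by positivity) (by positivity), Real.log_mul (by positivity) (by positivity),
      Real.log_mul (by positivity) (by positivity), Real.log_pow, Real.log_pow, Real.log_pow] at h3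
    have h4 : Real.log 2 ≤ 1 := by
      have := Real.log_le_sub_one_of_pos (x := 2) (by norm_num)
      linarith
    have h5 : (0 : ℝ) ≤ (P.natDegree : ℝ) * Q.natDegree := by positivity
    have h6 := mul_le_mul_of_nonneg_left h4 h5
    push_cast at h3
    linarith
  rcases max_cases ‖aeval θ P‖ ‖aeval θ Q‖ with ⟨e, -⟩ | ⟨e, -⟩
  · rw [e] at h1
    exact Or.inl (key _ (norm_pos_iff.mpr (aeval_ne hθ hP)) h1)
  · rw [e] at h1
    exact Or.inr (key _ (norm_pos_iff.mpr (aeval_ne hθ hQ)) h1)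

theorem num1 (A d h d' h' p q a b : ℝ) (hA : 1 ≤ A) (hd : 1 ≤ d) (hh : d ≤ h)
    (h3 : d' ≤ A * d) (h4 : h' ≤ A * h) (hp : 0 ≤ p) (ha : 0 ≤ a) (hq : q ≤ d') (hb : b ≤ h') :
    p * q + q * a + p * b ≤ 4 * A * (p * h + a * d) := by
  have e0 : A * d ≤ A * h := mul_le_mul_of_nonneg_left hh (by linarith)
  have e1 : p * q ≤ p * (A * h) := mul_le_mul_of_nonneg_left (by linarith) hp
  have e2 : q * a ≤ (A * d) * a := mul_le_mul_of_nonneg_right (by linarith) ha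
  have e3 : p * b ≤ p * (A * h) := mul_le_mul_of_nonneg_left (by linarith) hp
  have hh0 : 0 ≤ h := by linarith
  have e4 : 0 ≤ p * (A * h) := by positivity
  have e5 : 0 ≤ (A * d) * a := by positivity
  nlinarith

end CritL

open CritL in
theorem crit (h : ResStmt) : CritStmt := by
  intro θ A d hh k₀ hθ hA hk hlim hQ
  have hex : ∀ k, ∃ P : ℤ[X], k₀ ≤ k → Irreducible P ∧ 1 ≤ P.natDegree ∧
      (P.natDegree : ℝ) ≤ d k ∧ Real.log (MM P) ≤ hh k ∧
      4 * A * ((P.natDegree : ℝ) * hh k + Real.log (MM P) * d k) < -Real.log ‖aeval θ P‖ := by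
    intro k
    by_cases hk0 : k₀ ≤ k
    · obtain ⟨Q, hQ0, h1, h2, h3⟩ := hQ k hk0
      obtain ⟨P, hP⟩ := good hθ A (d k) (hh k) hA (hk k hk0).1 (hk k hk0).2.1 Q hQ0 h1 h2 h3
      exact ⟨P, fun _ => hP⟩
    · exact ⟨0, fun h => absurd h hk0⟩
  choose P hP using hex
  have step : ∀ k, k₀ ≤ k → ‖aeval θ (P (k + 1))‖ = ‖aeval θ (P k)‖ := by
    intro k hk0
    obtain ⟨i1, p1, q1, a1, b1⟩ := hP k hk0
    obtain ⟨i2, p2, q2, a2, b2⟩ := hP (k + 1) (by omega)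
    obtain ⟨c1, c2, c3, c4, c5, c6⟩ := hk k hk0
    obtain ⟨e1, e2, -⟩ := hk (k + 1) (by omega)
    refine same_norm θ i1 i2 p1 fun hc => ?_
    have l1 := Real.log_nonneg (one_le_MM i1.ne_zero)
    have l2 := Real.log_nonneg (one_le_MM i2.ne_zero)
    rcases res_log h hθ i1.ne_zero i2.ne_zero hc with g | g
    · have := num1 A (d k) (hh k) (d (k + 1)) (hh (k + 1)) _ _ _ _ hA c1 c2 c5 c6
        (Nat.cast_nonneg (P k).natDegree) l1 q2 a2
      linarith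
    · have f1 : d k ≤ A * d (k + 1) := by nlinarith
      have f2 : hh k ≤ A * hh (k + 1) := by nlinarith
      have := num1 A (d (k + 1)) (hh (k + 1)) (d k) (hh k) _ _ _ _ hA e1 e2 f1 f2
        (Nat.cast_nonneg (P (k + 1)).natDegree) l2 q1 a1
      linarith
  have const : ∀ k, k₀ ≤ k → ‖aeval θ (P k)‖ = ‖aeval θ (P k₀)‖ := by
    intro k hk0
    induction k, hk0 using Nat.le_induction with
    | base => rfl
    | succ n hn ih => rw [step n hn, ih]
  obtain ⟨k, hk1, hk0⟩ := ((hlim.eventually_ge_atTop (-Real.log ‖aeval θ (P k₀)‖)).and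
    (Filter.eventually_ge_atTop k₀)).exists
  obtain ⟨i1, p1, q1, a1, b1⟩ := hP k hk0
  obtain ⟨c1, c2, -⟩ := hk k hk0
  rw [const k hk0] at b1
  have l1 := Real.log_nonneg (one_le_MM i1.ne_zero)
  have p2 : (1 : ℝ) ≤ (P k).natDegree := by exact_mod_cast p1
  have g1 : hh k ≤ ((P k).natDegree : ℝ) * hh k := by nlinarith
  have g2 : 0 ≤ Real.log (MM (P k)) * d k := mul_nonneg l1 (by linarith)
  have g3 : 0 ≤ ((P k).natDegree : ℝ) * hh k + Real.log (MM (P k)) * d k := by linarith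
  nlinarith

end Pool.Agent.MP_655169_nt.FL

end

section

open Polynomial Finset

namespace Pool.Agent.MP_655169_nt.FL

namespace ValL

/-- The ring of all `P(w₂) + w₁ Q(w₁, w₂) / w₂ ^ n`. -/
def ring (w₁ w₂ : ℂ) : Subring ℂ where
  carrier := {x | ∃ (n : ℕ) (P : ℚ[X]) (Q : MvPolynomial (Fin 2) ℚ),
    (x - aeval w₂ P) * w₂ ^ n = w₁ * MvPolynomial.aeval ![w₁, w₂] Q}
  zero_mem' := ⟨0, 0, 0, by simp⟩
  one_mem' := ⟨0, 1, 0, by simp⟩
  neg_mem' := by
    rintro x ⟨n, P, Q, h⟩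
    exact ⟨n, -P, -Q, by simp only [map_neg]; linear_combination -h⟩
  add_mem' := by
    rintro x y ⟨n, P, Q, h⟩ ⟨m, P', Q', h'⟩
    refine ⟨n + m, P + P', Q * MvPolynomial.X 1 ^ m + Q' * MvPolynomial.X 1 ^ n, ?_⟩
    simp only [map_add, map_mul, map_pow, MvPolynomial.aeval_X, Matrix.cons_val]
    linear_combination w₂ ^ m * h + w₂ ^ n * h'
  mul_mem' := by
    rintro x y ⟨n, P, Q, h⟩ ⟨m, P', Q', h'⟩
    refine ⟨n + m, P * P', Q * MvPolynomial.X 1 ^ m * aeval (MvPolynomial.X 1) P' +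
      Q' * MvPolynomial.X 1 ^ n * aeval (MvPolynomial.X 1) P + MvPolynomial.X 0 * Q * Q', ?_⟩
    simp only [map_add, map_mul, map_pow, MvPolynomial.aeval_X, Matrix.cons_val,
      ← aeval_algHom_apply]
    linear_combination (w₂ ^ m * aeval w₂ P' + w₁ * MvPolynomial.aeval ![w₁, w₂] Q') * h +
      (w₂ ^ n * x) * h'

theorem order {Γ : Type*} [LinearOrderedCommGroupWithZero Γ] {a b : Γ} (hb0 : 0 < b) (hb : b < 1)
    (h : ∀ n : ℕ, a ≤ b ^ n) {i j : ℤ} (hi : 0 < i) : a ^ i * b ^ j ≠ 1 := by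
  obtain ⟨k, rfl⟩ : ∃ k : ℕ, i = (k + 1 : ℕ) := ⟨(i - 1).toNat, by omega⟩
  have h1 : a ^ (k + 1) ≤ b ^ (j.natAbs + 1) := by
    rw [pow_succ]
    exact (mul_le_of_le_one_left' (pow_le_one' (by simpa using h 0) k)).trans (h _)
  refine ne_of_lt (lt_of_le_of_lt (b := b ^ ((j.natAbs + 1 : ℕ) + j)) ?_
    (zpow_lt_one₀ hb0 hb (by omega)))
  rw [zpow_add₀ hb0.ne', zpow_natCast, zpow_natCast]
  exact mul_le_mul_left h1 _

end ValL

theorem val : ValStmt := by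
  intro w₁ w₂ h
  have h1 : w₁ ≠ 0 := h.ne_zero 0
  have h2 : w₂ ≠ 0 := h.ne_zero 1
  have m2 : w₂ ∈ ValL.ring w₁ w₂ := ⟨0, X, 0, by simp⟩
  have hI : Ideal.span {(⟨w₂, m2⟩ : ValL.ring w₁ w₂)} ≠ ⊤ := by
    rw [Ne, Ideal.span_singleton_eq_top, isUnit_iff_exists_inv]
    rintro ⟨⟨y, n, P, Q, hy⟩, e⟩
    have e1 : w₂ * y = 1 := congrArg Subtype.val e
    have e2 : ((1 - MvPolynomial.X 1 * aeval (MvPolynomial.X 1) P) * MvPolynomial.X 1 ^ n :
        MvPolynomial (Fin 2) ℚ) = MvPolynomial.X 0 * MvPolynomial.X 1 * Q := by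
      apply algebraicIndependent_iff_injective_aeval.1 h
      simp only [map_sub, map_one, map_mul, map_pow, MvPolynomial.aeval_X, Matrix.cons_val,
        ← aeval_algHom_apply]
      linear_combination w₂ * hy - w₂ ^ n * e1
    have e3 := congrArg (MvPolynomial.aeval ![0, (X : ℚ[X])]) e2
    simp only [map_sub, map_one, map_mul, map_pow, MvPolynomial.aeval_X, Matrix.cons_val,
      ← aeval_algHom_apply, zero_mul, mul_eq_zero] at e3
    rcases e3 with e3 | e3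
    · simpa using congrArg (eval 0) e3
    · exact X_ne_zero (eq_zero_of_pow_eq_zero e3)
  obtain ⟨O, hO, hn⟩ := Ideal.image_subset_nonunits_valuationSubring _ hI
  refine ⟨O, fun q => hO ⟨0, C q, 0, by simp⟩, fun i j hij => ?_⟩
  have b0 : 0 < O.valuation w₂ := zero_lt_iff.2 ((Valuation.ne_zero_iff _).2 h2)
  have b1 : O.valuation w₂ < 1 := O.mem_nonunits_iff.1 (hn ⟨_, Ideal.subset_span rfl, rfl⟩)
  have ab : ∀ n : ℕ, O.valuation w₁ ≤ O.valuation w₂ ^ n := fun n => by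
    have : O.valuation (w₁ / w₂ ^ n) ≤ 1 :=
      (O.valuation_le_one_iff _).2 (hO ⟨n, 0, 1, by simp [h2]⟩)
    rwa [map_div₀, map_pow, div_le_one₀ (pow_pos b0 n)] at this
  rcases lt_trichotomy i 0 with hi | rfl | hi
  · refine absurd ?_ (ValL.order b0 b1 ab (i := -i) (j := -j) (by omega))
    rw [zpow_neg, zpow_neg, ← mul_inv, hij, inv_one]
  · rw [zpow_zero, one_mul] at hij
    exact ⟨rfl, (zpow_right_strictAnti₀ b0 b1).injective (hij.trans (zpow_zero _).symm)⟩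
  · exact absurd hij (ValL.order b0 b1 ab hi)

end Pool.Agent.MP_655169_nt.FL

end

section

/-! Values of algebraically dependent numbers. -/

open Polynomial Finset

namespace Pool.Agent.MP_655169_nt.FL

namespace PairL

/-- A vanishing sum of nonzero terms has two terms of the same value. -/
theorem key (O : ValuationSubring ℂ) {ι : Type} (s : Finset ι) (f : ι → ℂ) (hs : s.Nonempty)
    (hf : ∀ i ∈ s, f i ≠ 0) (h : ∑ i ∈ s, f i = 0) :
    ∃ i ∈ s, ∃ j ∈ s, i ≠ j ∧ O.valuation (f i) = O.valuation (f j) := by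
  classical
  by_contra hc
  push Not at hc
  obtain ⟨j, hj, hm⟩ := s.exists_max_image (fun i => O.valuation (f i)) hs
  have := O.valuation.map_sum_eq_of_lt (f := f) hj fun i hi => by
    rw [mem_sdiff, mem_singleton] at hi
    exact lt_of_le_of_ne (hm i hi.1) (hc i hi.1 j hj hi.2)
  rw [h, map_zero] at this
  exact hf j hj ((Valuation.zero_iff _).1 this.symm)

theorem rat (O : ValuationSubring ℂ) (hO : ∀ q : ℚ, (q : ℂ) ∈ O) (q : ℚ) (hq : q ≠ 0) :
    O.valuation (q : ℂ) = 1 := by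
  have h1 := (O.valuation_le_one_iff _).2 (hO q)
  have h2 := (O.valuation_le_one_iff _).2 (hO q⁻¹)
  have h0 : 0 < O.valuation (q : ℂ) := (Valuation.pos_iff _).2 (by exact_mod_cast hq)
  rw [Rat.cast_inv, map_inv₀, inv_le_one₀ h0] at h2
  exact le_antisymm h1 h2

/-- A root of a polynomial whose nonzero coefficients have value one has value one. -/
theorem root (O : ValuationSubring ℂ) (p : ℂ[X]) (hp : p ≠ 0)
    (hc : ∀ j, p.coeff j ≠ 0 → O.valuation (p.coeff j) = 1) (w : ℂ) (hw : w ≠ 0)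
    (h : p.eval w = 0) : O.valuation w = 1 := by
  rw [eval_eq_sum, Polynomial.sum_def] at h
  obtain ⟨i, hi, j, hj, hij, e⟩ := key O p.support (fun n => p.coeff n * w ^ n)
    (Polynomial.support_nonempty.2 hp)
    (fun n hn => mul_ne_zero (mem_support_iff.1 hn) (pow_ne_zero _ hw)) h
  simp only [map_mul, map_pow, hc i (mem_support_iff.1 hi), hc j (mem_support_iff.1 hj),
    one_mul] at e
  by_contra h1
  exact hij ((pow_right_inj₀ ((Valuation.pos_iff _).2 hw) h1).1 e)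

theorem alg (O : ValuationSubring ℂ) (hO : ∀ q : ℚ, (q : ℂ) ∈ O) (c : ℂ) (hc : IsAlgebraic ℚ c)
    (h0 : c ≠ 0) : O.valuation c = 1 := by
  obtain ⟨p, hp, h⟩ := hc
  refine root O (p.map (algebraMap ℚ ℂ)) (Polynomial.map_ne_zero hp) (fun j hj => ?_) c h0
    (by rwa [eval_map_algebraMap])
  rw [coeff_map] at hj ⊢
  exact rat O hO _ fun e => hj (by rw [e, map_zero])

theorem pair_iff (a w : ℂ) (hw : Transcendental ℚ w) :
    AlgebraicIndependent ℚ ![a, w] ↔ Transcendental (Algebra.adjoin ℚ ({w} : Set ℂ)) a := by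
  have h1 : AlgebraicIndependent ℚ ![w] := by
    rw [algebraicIndependent_unique_type_iff]
    exact hw
  have h2 := h1.option_iff_transcendental a
  rw [show Set.range ![w] = {w} by simp] at h2
  rw [← h2]
  refine (algebraicIndependent_equiv' (finSuccEquiv 1) ?_).symm.symm
  funext i
  fin_cases i <;> rfl

theorem swap (a w : ℂ) : AlgebraicIndependent ℚ ![a, w] ↔ AlgebraicIndependent ℚ ![w, a] := by
  refine algebraicIndependent_equiv' (Equiv.swap 0 1) ?_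
  funext i
  fin_cases i <;> rfl

theorem poly (O : ValuationSubring ℂ) (hO : ∀ q : ℚ, (q : ℂ) ∈ O) (L : ℂ)
    (hL : ∀ c : ℂ, IsAlgebraic ℚ c → O.valuation (L - c) = 1) (q : ℚ[X]) (hq : q ≠ 0) :
    O.valuation (aeval L q) = 1 := by
  rw [(IsAlgClosed.splits (q.map (algebraMap ℚ ℂ))).aeval_eq_prod_aroots L, map_mul,
    map_multiset_prod]
  have h1 : O.valuation (algebraMap ℚ ℂ q.leadingCoeff) = 1 :=
    rat O hO _ (leadingCoeff_ne_zero.2 hq)
  rw [h1, one_mul]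
  refine Multiset.prod_eq_one fun x hx => ?_
  obtain ⟨y, hy, rfl⟩ := Multiset.mem_map.1 hx
  obtain ⟨c, hc, rfl⟩ := Multiset.mem_map.1 hy
  exact hL c ⟨q, hq, (mem_aroots.1 hc).2⟩

end PairL

open PairL in
theorem pair : PairStmt where
  alg := alg
  dep := by
    intro O hO L c w hc h0 hw hd
    have h1 : IsAlgebraic (Algebra.adjoin ℚ ({w} : Set ℂ)) L := by
      rw [pair_iff L w hw] at hd
      exact not_not.1 hd
    have h2 : IsAlgebraic (Algebra.adjoin ℚ ({w} : Set ℂ)) c :=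
      hc.extendScalars (algebraMap ℚ _).injective
    have h3 : ¬ AlgebraicIndependent ℚ ![L - c, w] := by
      rw [pair_iff _ w hw]
      exact not_not.2 (h1.sub h2)
    rw [algebraicIndependent_iff] at h3
    push Not at h3
    obtain ⟨p, hp, hp0⟩ := h3
    have w0 : w ≠ 0 := fun e => hw (e ▸ isAlgebraic_zero)
    rw [MvPolynomial.aeval_def, MvPolynomial.eval₂_eq'] at hp
    have hq : ∀ d ∈ p.support, p.coeff d ≠ 0 := fun d hd => MvPolynomial.mem_support_iff.1 hd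
    obtain ⟨d, hd, e, he, hde, h⟩ := key O p.support _ (MvPolynomial.support_nonempty.2 hp0)
      (fun d hd => by
        refine mul_ne_zero ((_root_.map_ne_zero _).2 (hq d hd)) ?_
        simp [Fin.prod_univ_two, h0, w0]) hp
    have r1 : O.valuation (algebraMap ℚ ℂ (p.coeff d)) = 1 := rat O hO _ (hq d hd)
    have r2 : O.valuation (algebraMap ℚ ℂ (p.coeff e)) = 1 := rat O hO _ (hq e he)
    simp only [map_mul, r1, r2, one_mul, Fin.prod_univ_two, map_pow, Matrix.cons_val_zero,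
      Matrix.cons_val_one] at h
    have a0 : O.valuation (L - c) ≠ 0 := (Valuation.ne_zero_iff _).2 h0
    have b0 : O.valuation w ≠ 0 := (Valuation.ne_zero_iff _).2 w0
    refine ⟨(d 0 : ℤ) - e 0, (d 1 : ℤ) - e 1, fun hh => hde ?_, ?_⟩
    · ext i
      fin_cases i
      · have := hh.1
        simp only [Fin.zero_eta]
        omega
      · have := hh.2
        simp only [Fin.mk_one]
        omega
    · rw [zpow_sub₀ a0, zpow_sub₀ b0, div_mul_div_comm, zpow_natCast, zpow_natCast, zpow_natCast,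
        zpow_natCast, h]
      exact div_self (mul_ne_zero (pow_ne_zero _ a0) (pow_ne_zero _ b0))
  unit := by
    intro O hO L w w0 hL hd
    have hT : Transcendental ℚ L := fun h => by
      have := hL L h
      rw [sub_self, map_zero] at this
      exact zero_ne_one this
    rw [swap, pair_iff w L hT] at hd
    obtain ⟨p, hp, h⟩ := not_not.1 hd
    refine root O (p.map (algebraMap _ ℂ))
      ((Polynomial.map_ne_zero_iff Subtype.val_injective).2 hp) (fun j hj => ?_) w w0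
      (by rwa [eval_map_algebraMap])
    rw [coeff_map] at hj ⊢
    obtain ⟨q, hq⟩ := (Algebra.adjoin_singleton_eq_range_aeval ℚ L).le (p.coeff j).2
    have e : aeval L q = algebraMap _ ℂ (p.coeff j) := hq
    rw [← e] at hj ⊢
    exact poly O hO L hL q fun e' => hj (by rw [e', map_zero])

end Pool.Agent.MP_655169_nt.FL

end

section

open Polynomial Finset

namespace Pool.Agent.MP_655169_nt.FL

namespace CoverL

theorem le_one (h : PairStmt) {O : ValuationSubring ℂ} (hO : ∀ q : ℚ, (q : ℂ) ∈ O) {c : ℂ}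
    (hc : IsAlgebraic ℚ c) : O.valuation c ≤ 1 := by
  by_cases e : c = 0
  · rw [e, map_zero]
    exact zero_le_one
  · exact (h.alg O hO c hc e).le

theorem ex_min (h : PairStmt) {O : ValuationSubring ℂ} (hO : ∀ q : ℚ, (q : ℂ) ∈ O) (x : ℂ) :
    ∃ c, IsAlgebraic ℚ c ∧ ∀ c', IsAlgebraic ℚ c' → O.valuation (x - c) ≤ O.valuation (x - c') := by
  by_cases h0 : ∃ c, IsAlgebraic ℚ c ∧ O.valuation (x - c) < 1
  · obtain ⟨c, h1, h2⟩ := h0
    refine ⟨c, h1, fun c' h3 => not_lt.1 fun h4 => ?_⟩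
    have h5 := O.valuation.map_sub_lt (h4.trans h2) h2
    rw [sub_sub_sub_cancel_left] at h5
    by_cases e : c - c' = 0
    · rw [sub_eq_zero.1 e] at h4
      exact lt_irrefl _ h4
    · exact h5.ne (h.alg O hO _ (h1.sub h3) e)
  · push Not at h0
    refine ⟨0, isAlgebraic_zero, fun c' h3 => ?_⟩
    have := O.valuation.map_add_le le_rfl ((le_one h hO h3).trans (h0 c' h3))
    rwa [sub_add_cancel, ← sub_zero x, sub_sub, zero_add] at this

/-- the numbers that are close to an algebraic number -/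
def near (h : PairStmt) {O : ValuationSubring ℂ} (hO : ∀ q : ℚ, (q : ℂ) ∈ O)
    (P : O.ValueGroup → Prop) (h0 : P 0) (h1 : ∀ a b, a ≤ b → P b → P a) : Submodule ℚ ℂ where
  carrier := {L | ∃ c, IsAlgebraic ℚ c ∧ P (O.valuation (L - c))}
  zero_mem' := ⟨0, isAlgebraic_zero, by rwa [sub_self, map_zero]⟩
  add_mem' := by
    rintro x y ⟨c, a1, a2⟩ ⟨d, b1, b2⟩
    refine ⟨c + d, a1.add b1, h1 _ _ ?_ (show P (max _ _) from max_rec' P a2 b2)⟩
    rw [add_sub_add_comm]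
    exact O.valuation.map_add _ _
  smul_mem' := by
    rintro q x ⟨c, a1, a2⟩
    have hq : IsAlgebraic ℚ (q : ℂ) := isAlgebraic_algebraMap q
    refine ⟨q * c, hq.mul a1, h1 _ _ ?_ a2⟩
    rw [Rat.smul_def, ← mul_sub, map_mul]
    exact mul_le_of_le_one_left' (le_one h hO hq)

end CoverL

open CoverL in
theorem cover (h : PairStmt) : CoverStmt := by
  classical
  rintro O hO V hV ⟨L₀, l1, l2⟩
  obtain ⟨s, hs⟩ := (Submodule.fg_iff_finiteDimensional V).2 hV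
  choose c c1 c2 using ex_min h hO
  obtain ⟨x, x1, x2⟩ := exists_max_image (insert L₀ s) (fun x => O.valuation (x - c x))
    (insert_nonempty _ _)
  have xV : x ∈ V := by
    rcases mem_insert.1 x1 with e | e
    · exact e ▸ l1
    · exact hs ▸ Submodule.subset_span e
  generalize hA : O.valuation (x - c x) = A at x2
  have A0 : A ≠ 0 := fun e => by
    have := x2 L₀ (mem_insert_self _ _)
    rw [e, le_zero_iff, map_eq_zero, sub_eq_zero] at this
    exact l2 (this ▸ c1 L₀)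
  have a1 : V ≤ near h hO (· ≤ A) zero_le fun _ _ => le_trans := by
    rw [← hs, Submodule.span_le]
    exact fun y hy => ⟨c y, c1 y, x2 y (mem_insert_of_mem hy)⟩
  refine ⟨A, V ⊓ near h hO (· < A) (zero_lt_iff.2 A0) fun _ _ => lt_of_le_of_lt, A0,
    lt_of_le_of_ne inf_le_left fun e => ?_, fun L hL hn w w1 w2 => ?_⟩
  · obtain ⟨-, d, d1, d2⟩ := e.ge xV
    exact absurd (hA ▸ c2 x d d1) (not_le.2 d2)
  obtain ⟨d, d1, d2⟩ := a1 hL
  have a2 : ∀ c', IsAlgebraic ℚ c' → A ≤ O.valuation (L - c') := fun c' h' =>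
    not_lt.1 fun e => hn ⟨hL, c', h', e⟩
  have a3 : O.valuation (L - d) = A := le_antisymm d2 (a2 d d1)
  by_cases e : A = 1
  · subst e
    refine ⟨0, 1, one_ne_zero, ?_⟩
    rw [zpow_one, zpow_zero]
    refine h.unit O hO L w (fun e => w1 (e ▸ isAlgebraic_zero)) (fun c' h' =>
      le_antisymm ?_ (a2 c' h')) w2
    have := O.valuation.map_add_le d2 (le_one h hO (d1.sub h'))
    rwa [sub_add_sub_cancel] at this
  · obtain ⟨i, j, b1, b2⟩ := h.dep O hO L d w d1 (fun e => A0 (by rw [← a3, e, map_zero])) w1 w2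
    rw [a3] at b2
    refine ⟨-i, j, fun e' => b1 ⟨?_, e'⟩, by rw [zpow_neg]; exact eq_inv_of_mul_eq_one_right b2⟩
    rw [e', zpow_zero, mul_one] at b2
    exact (zpow_eq_one_iff_right₀ zero_le e).1 b2

end Pool.Agent.MP_655169_nt.FL

end
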