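import Pool.Agent.Mg.F655169a.Gc9f9fa
import Pool.Agent.Mg.F655169b.Gb2be7b

set_option linter.all false

section



end

section

/-! Quantitative zero lemma for exponential polynomials. -/

open Polynomial NumberField Finset

namespace LogPow

namespace QZL

theorem ep_diff {ι : Type} (s : Finset ι) (ω : ι → ℂ) (p : ι → ℂ[X]) :
    Differentiable ℂ (ep s ω p) := by
  unfold ep
  refine Differentiable.fun_sum fun i _ => ?_
  exact (p i).differentiable.mul ((differentiable_id.const_mul (ω i)).cexp)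

theorem prod_le {κ : Type} (u : Finset κ) (μ : κ → ℂ) (Sg : κ → ℕ) (z : ℂ) (a : ℝ)
    (h : ∀ k ∈ u, ‖z - μ k‖ ≤ a) :
    ‖∏ k ∈ u, (z - μ k) ^ Sg k‖ ≤ a ^ (∑ k ∈ u, Sg k) := by
  rw [norm_prod, ← Finset.prod_pow_eq_pow_sum]
  refine Finset.prod_le_prod (fun k _ => norm_nonneg _) fun k hk => ?_
  rw [norm_pow]
  exact pow_le_pow_left₀ (norm_nonneg _) (h k hk) _

theorem le_prod {κ : Type} (u : Finset κ) (μ : κ → ℂ) (Sg : κ → ℕ) (z : ℂ) (a : ℝ)
    (ha : 0 ≤ a) (h : ∀ k ∈ u, a ≤ ‖z - μ k‖) :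
    a ^ (∑ k ∈ u, Sg k) ≤ ‖∏ k ∈ u, (z - μ k) ^ Sg k‖ := by
  rw [norm_prod, ← Finset.prod_pow_eq_pow_sum]
  refine Finset.prod_le_prod (fun k _ => pow_nonneg ha _) fun k hk => ?_
  rw [norm_pow]
  exact pow_le_pow_left₀ ha (h k hk) _

theorem maxmod (g : ℂ → ℂ) (hg : Differentiable ℂ g) (R B : ℝ) (hR : 0 < R)
    (h : ∀ z : ℂ, ‖z‖ = R → ‖g z‖ ≤ B) (z : ℂ) (hz : ‖z‖ ≤ R) : ‖g z‖ ≤ B := by
  refine Complex.norm_le_of_forall_mem_frontier_norm_le (U := Metric.ball (0 : ℂ) R)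
    Metric.isBounded_ball hg.diffContOnCl ?_ ?_
  · intro w hw
    rw [frontier_ball _ hR.ne'] at hw
    exact h w (by simpa using hw)
  · rw [closure_ball _ hR.ne']
    simpa using hz

end QZL

theorem qzStmt (hg : EpGrowStmt) (hc : EpCoeffStmt) (hn : NewtonStmt) : QZStmt := by
  intro ι κ s u ω T p μ Sg F η Ω ρ G ε hT hη hη1 hsep hΩ hω hρ hμ hμsep hF hG hsmall hε hder
  have hρ0 : 0 < ρ := by linarith
  have hfd := QZL.ep_diff s ω p
  set f := ep s ω p with hf
  set N' := ∑ k ∈ u, Sg k with hN'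
  set N := ∑ i ∈ s, T i with hN
  set H : ℝ := (N' : ℝ) * ((F + 1) * ((G + 1) * ρ)) ^ N' * ε with hH
  have hH0 : 0 ≤ H := by
    have : (0 : ℝ) ≤ (F + 1) * ((G + 1) * ρ) := by positivity
    positivity
  obtain ⟨z0, hz0, hmax⟩ := (isCompact_sphere (0 : ℂ) ρ).exists_isMaxOn
    (NormedSpace.sphere_nonempty.mpr hρ0.le) (hfd.continuous.norm.continuousOn)
  have hz0n : ‖z0‖ = ρ := by simpa using hz0
  set m := ‖f z0‖ with hm
  have hm0 : 0 ≤ m := norm_nonneg _
  have hfm : ∀ z : ℂ, ‖z‖ = ρ → ‖f z‖ ≤ m := fun z hz => hmax (by simpa using hz)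
  set A : ℝ := (N : ℝ) * G ^ N * Real.exp (Ω * ρ * (1 + G)) with hA
  have hA0 : 0 ≤ A := by
    have : (0 : ℝ) ≤ G := by linarith
    positivity
  have hgrow : ∀ z : ℂ, ‖z‖ ≤ G * ρ → ‖f z‖ ≤ A * m :=
    hg ι s ω T p Ω ρ G m hT hΩ hω hρ0 (by linarith) hfm
  obtain ⟨g, hgd, hge⟩ := hn κ u μ Sg F ρ ε f hfd hρ hμ hμsep hF hε (by
    intro k hk σ hσ
    refine (hder k hk σ hσ).trans ?_
    have : (1 : ℝ) ≤ σ.factorial := by exact_mod_cast Nat.succ_le_of_lt σ.factorial_pos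
    nlinarith)
  have herr : ∀ z : ℂ, ‖z‖ ≤ G * ρ → ‖f z - (∏ k ∈ u, (z - μ k) ^ Sg k) * g z‖ ≤ H := by
    intro z hz
    refine (hge z).trans ?_
    rw [hH]
    have h1 : ((F : ℝ) + 1) * (‖z‖ + ρ) ≤ (F + 1) * ((G + 1) * ρ) := by
      refine mul_le_mul_of_nonneg_left (by linarith) (by positivity)
    have h2 := pow_le_pow_left₀ (by positivity) h1 N'
    have h3 : (0 : ℝ) ≤ (N' : ℝ) := by positivity
    exact mul_le_mul_of_nonneg_right (mul_le_mul_of_nonneg_left h2 h3) hε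
  have hGρ : 0 < (G - 1) * ρ := mul_pos (by linarith) hρ0
  have hP : 0 < ((G - 1) * ρ) ^ N' := pow_pos hGρ _
  have hgb : ∀ z : ℂ, ‖z‖ = G * ρ → ‖g z‖ ≤ (A * m + H) / ((G - 1) * ρ) ^ N' := by
    intro z hz
    rw [le_div_iff₀ hP]
    have h1 := QZL.le_prod u μ Sg z ((G - 1) * ρ) hGρ.le (by
      intro k hk
      have := norm_sub_norm_le z (μ k)
      have := hμ k hk
      linarith)
    have h2 : ‖(∏ k ∈ u, (z - μ k) ^ Sg k) * g z‖ ≤ A * m + H := by
      have e : (∏ k ∈ u, (z - μ k) ^ Sg k) * g z =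
          f z - (f z - (∏ k ∈ u, (z - μ k) ^ Sg k) * g z) := by ring
      rw [e]
      exact (norm_sub_le _ _).trans (add_le_add (hgrow z hz.le) (herr z hz.le))
    rw [norm_mul] at h2
    calc ‖g z‖ * ((G - 1) * ρ) ^ N' ≤ ‖g z‖ * ‖∏ k ∈ u, (z - μ k) ^ Sg k‖ :=
          mul_le_mul_of_nonneg_left h1 (norm_nonneg _)
      _ ≤ A * m + H := by rw [mul_comm]; exact h2
  have hz0G : ‖z0‖ ≤ G * ρ := by rw [hz0n]; nlinarith
  have hg0 := QZL.maxmod g hgd (G * ρ) _ (mul_pos (by linarith) hρ0) hgb z0 hz0G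
  have hp0 := QZL.prod_le u μ Sg z0 (2 * ρ) (by
    intro k hk
    have := norm_sub_le z0 (μ k)
    have := hμ k hk
    linarith)
  have hq : (2 * ρ) ^ N' * ((A * m + H) / ((G - 1) * ρ) ^ N') =
      (2 / (G - 1)) ^ N' * (A * m + H) := by
    have hG1 : G - 1 ≠ 0 := by linarith
    rw [mul_pow, mul_pow, div_pow]
    field_simp
  have hr0 : 0 ≤ 2 / (G - 1) := div_nonneg (by norm_num) (by linarith)
  have hr1 : (2 / (G - 1)) ^ N' ≤ 1 :=
    pow_le_one₀ hr0 (by rw [div_le_one (by linarith)]; linarith)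
  have hr2 : (2 / (G - 1)) ^ N' ≤ (4 / G) ^ N' := by
    refine pow_le_pow_left₀ hr0 ?_ _
    rw [div_le_div_iff₀ (by linarith) (by linarith)]
    linarith
  have hm1 : m ≤ H + (2 / (G - 1)) ^ N' * (A * m + H) := by
    have e : f z0 = (f z0 - (∏ k ∈ u, (z0 - μ k) ^ Sg k) * g z0) +
        (∏ k ∈ u, (z0 - μ k) ^ Sg k) * g z0 := by ring
    calc m = ‖(f z0 - (∏ k ∈ u, (z0 - μ k) ^ Sg k) * g z0) +
        (∏ k ∈ u, (z0 - μ k) ^ Sg k) * g z0‖ := by rw [← e]
      _ ≤ H + ‖(∏ k ∈ u, (z0 - μ k) ^ Sg k) * g z0‖ :=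
          (norm_add_le _ _).trans (add_le_add (herr z0 hz0G) le_rfl)
      _ ≤ H + (2 * ρ) ^ N' * ((A * m + H) / ((G - 1) * ρ) ^ N') := by
          rw [norm_mul]
          exact add_le_add le_rfl (mul_le_mul hp0 hg0 (norm_nonneg _) (by positivity))
      _ = _ := by rw [hq]
  have hm2 : m ≤ 4 * H := by
    have h1 : (2 / (G - 1)) ^ N' * (A * m) ≤ 1 / 2 * m := by
      calc (2 / (G - 1)) ^ N' * (A * m) ≤ (4 / G) ^ N' * (A * m) :=
            mul_le_mul_of_nonneg_right hr2 (mul_nonneg hA0 hm0)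
        _ = (4 / G) ^ N' * A * m := by ring
        _ ≤ 1 / 2 * m := mul_le_mul_of_nonneg_right hsmall hm0
    have h2 : (2 / (G - 1)) ^ N' * H ≤ 1 * H := mul_le_mul_of_nonneg_right hr1 hH0
    rw [mul_add] at hm1
    linarith
  intro i hi τ
  exact hc ι s ω T p η Ω ρ (4 * H) hT hη hη1 hsep hΩ hω hρ
    (fun z hz => (hfm z hz).trans hm2) i hi τ

end LogPow

end

section

open Polynomial NumberField Finset

namespace LogPow

namespace EpGrowL

theorem hasDerivAt_ep {ι : Type} (s : Finset ι) (ω : ι → ℂ) (p : ι → ℂ[X]) (z : ℂ) :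
    HasDerivAt (ep s ω p) (∑ i ∈ s, ((derivative (p i)).eval z * Complex.exp (ω i * z) +
      (p i).eval z * (Complex.exp (ω i * z) * ω i))) z := by
  unfold ep
  refine HasDerivAt.fun_sum fun i _ => ?_
  have h1 : HasDerivAt (fun z => ω i * z) (ω i) z := by
    simpa using (hasDerivAt_id z).const_mul (ω i)
  exact ((p i).hasDerivAt z).mul h1.cexp

theorem diff_ep {ι : Type} (s : Finset ι) (ω : ι → ℂ) (p : ι → ℂ[X]) :
    Differentiable ℂ (ep s ω p) := fun z => (hasDerivAt_ep s ω p z).differentiableAt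

theorem dop_ep {ι : Type} (s : Finset ι) (ω : ι → ℂ) (p : ι → ℂ[X]) (x : ℂ) :
    Dop x (ep s ω p) = ep s ω fun i => derivative (p i) + C (ω i - x) * p i := by
  funext z
  rw [Dop, (hasDerivAt_ep s ω p z).deriv]
  simp only [ep, Finset.mul_sum, ← Finset.sum_sub_distrib, eval_add, eval_mul, eval_C]
  exact Finset.sum_congr rfl fun i _ => by ring

open Classical in
theorem dl_ep {ι : Type} (s : Finset ι) (ω : ι → ℂ) : ∀ (l : List ℂ) (p : ι → ℂ[X]),
    (∀ i ∈ s, (p i).degree < (l.count (ω i) : ℕ)) → Dl l (ep s ω p) = 0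
  | [], p, h => by
    funext z
    refine Finset.sum_eq_zero fun i hi => ?_
    have := h i hi
    rw [List.count_nil, Nat.cast_zero, Nat.WithBot.lt_zero_iff, degree_eq_bot] at this
    rw [this, eval_zero, zero_mul]
  | x :: l, p, h => by
    rw [Dl, dop_ep]
    refine dl_ep s ω l _ fun i hi => ?_
    have h1 := h i hi
    by_cases e : x = ω i
    · rw [e, List.count_cons_self] at h1
      rw [e, sub_self, C_0, zero_mul, add_zero]
      by_cases h0 : p i = 0
      · rw [h0, derivative_zero, degree_zero]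
        exact WithBot.bot_lt_coe _
      · have h2 : (p i).degree ≤ (l.count (ω i) : ℕ) := by
          rw [degree_eq_natDegree h0] at h1 ⊢
          exact_mod_cast Nat.lt_succ_iff.1 (by exact_mod_cast h1)
        exact (degree_derivative_lt h0).trans_le h2
    · rw [List.count_cons_of_ne e] at h1
      refine (degree_add_le _ _).trans_lt (max_lt (degree_derivative_le.trans_lt h1) ?_)
      rw [← smul_eq_C_mul]
      exact (degree_smul_le _ _).trans_lt h1

open Classical in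
theorem exists_list {ι : Type} (s : Finset ι) (ω : ι → ℂ) (T : ι → ℕ) :
    ∃ l : List ℂ, l.length = ∑ i ∈ s, T i ∧ (∀ x ∈ l, ∃ i ∈ s, x = ω i) ∧
      ∀ i ∈ s, T i ≤ l.count (ω i) := by
  induction s using Finset.induction_on with
  | empty => exact ⟨[], by simp, by simp, by simp⟩
  | insert a s ha ih =>
    obtain ⟨l, h1, h2, h3⟩ := ih
    refine ⟨List.replicate (T a) (ω a) ++ l, ?_, fun x hx => ?_, fun i hi => ?_⟩
    · rw [List.length_append, List.length_replicate, h1, Finset.sum_insert ha]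
    · rcases List.mem_append.1 hx with hx | hx
      · exact ⟨a, Finset.mem_insert_self _ _, List.eq_of_mem_replicate hx⟩
      · obtain ⟨i, hi, e⟩ := h2 x hx
        exact ⟨i, Finset.mem_insert_of_mem hi, e⟩
    · rw [List.count_append]
      rcases Finset.mem_insert.1 hi with rfl | hi
      · rw [List.count_replicate_self]
        exact Nat.le_add_right _ _
      · exact (h3 i hi).trans (Nat.le_add_left _ _)

end EpGrowL

open EpGrowL in
theorem epGrow (h0 : DlZeroStmt) (h1 : GrowStmt) : EpGrowStmt := by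
  classical
  intro ι s ω T p Ω ρ G m hp hΩ hω hρ hG hm z hz
  obtain ⟨l, l1, l2, l3⟩ := exists_list s ω T
  have hl : ∀ x ∈ l, ‖x‖ ≤ Ω := fun x hx => by
    obtain ⟨i, hi, rfl⟩ := l2 x hx
    exact hω i hi
  have hm0 : 0 ≤ m := (norm_nonneg _).trans (hm (ρ : ℂ) (by
    rw [Complex.norm_real, Real.norm_of_nonneg hρ.le]))
  have hz0 := dl_ep s ω l p fun i hi => (hp i hi).trans_le (by exact_mod_cast l3 i hi)
  have key := h1 _ l Ω (diff_ep s ω p) hΩ hl hz0 z
  rw [← l1]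
  have term : ∀ k ∈ range l.length, ‖Dl (l.take k) (ep s ω p) 0‖ * ‖z‖ ^ k / k.factorial ≤
      G ^ l.length * Real.exp (Ω * ρ) * m := fun k hk => by
    have hk' : k ≤ l.length := (mem_range.1 hk).le
    have h2 := h0 _ (l.take k) Ω ρ m (diff_ep s ω p) hΩ hρ
      (fun x hx => hl x (List.mem_of_mem_take hx)) hm
    rw [List.length_take, min_eq_left hk'] at h2
    have hf : (0 : ℝ) < k.factorial := by exact_mod_cast k.factorial_pos
    have h3 : ‖z‖ ^ k ≤ G ^ l.length * ρ ^ k :=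
      (pow_le_pow_left₀ (norm_nonneg _) hz k).trans (by
        rw [mul_pow]
        exact mul_le_mul_of_nonneg_right (pow_le_pow_right₀ hG hk') (by positivity))
    rw [div_le_iff₀ hf]
    refine (mul_le_mul h2 h3 (by positivity) (by positivity)).trans (le_of_eq ?_)
    field_simp
  have hs := Finset.sum_le_card_nsmul _ _ _ term
  rw [card_range, nsmul_eq_mul] at hs
  have he : Real.exp (Ω * ‖z‖) ≤ Real.exp (Ω * (G * ρ)) :=
    Real.exp_le_exp.2 (mul_le_mul_of_nonneg_left hz hΩ)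
  refine key.trans ((mul_le_mul he hs (Finset.sum_nonneg fun k _ => by positivity)
    (Real.exp_pos _).le).trans (le_of_eq ?_))
  rw [show Ω * ρ * (1 + G) = Ω * (G * ρ) + Ω * ρ by ring, Real.exp_add]
  ring

end LogPow

end

section

/-! The coefficients of an exponential polynomial are bounded by its maximum on a circle. -/

open Polynomial NumberField Finset

namespace LogPow

namespace EpCoeffL

/-- The action of `Dl l` on the polynomial factor of `exp (ω z)`. -/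
noncomputable def Pl (ω : ℂ) : List ℂ → ℂ[X] → ℂ[X]
  | [], p => p
  | x :: l, p => Pl ω l (derivative p + C (ω - x) * p)

theorem diff_ep {ι : Type} (s : Finset ι) (ω : ι → ℂ) (p : ι → ℂ[X]) (z : ℂ) :
    HasDerivAt (ep s ω p) (∑ i ∈ s, ((derivative (p i)).eval z * Complex.exp (ω i * z) +
      (p i).eval z * (Complex.exp (ω i * z) * ω i))) z := by
  refine HasDerivAt.fun_sum fun i _ => ((p i).hasDerivAt z).fun_mul ?_
  simpa using ((hasDerivAt_id z).const_mul (ω i)).cexp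

theorem dop_ep {ι : Type} (s : Finset ι) (ω : ι → ℂ) (p : ι → ℂ[X]) (x : ℂ) :
    Dop x (ep s ω p) = ep s ω fun i => derivative (p i) + C (ω i - x) * p i := by
  funext z
  rw [Dop, (diff_ep s ω p z).deriv, ep, ep, mul_sum, ← sum_sub_distrib]
  refine sum_congr rfl fun i _ => ?_
  rw [eval_add, eval_mul, eval_C]
  ring

theorem dl_ep {ι : Type} (s : Finset ι) (ω : ι → ℂ) (l : List ℂ) (p : ι → ℂ[X]) :
    Dl l (ep s ω p) = ep s ω fun i => Pl (ω i) l (p i) := by
  induction l generalizing p with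
  | nil => rfl
  | cons x l ih => rw [Dl, dop_ep, ih]; rfl

theorem pl_append (ω : ℂ) (l l' : List ℂ) (p : ℂ[X]) :
    Pl ω (l ++ l') p = Pl ω l' (Pl ω l p) := by
  induction l generalizing p with
  | nil => rfl
  | cons x l ih => exact ih _

theorem pl_rep (ω : ℂ) (t : ℕ) (p : ℂ[X]) :
    Pl ω (List.replicate t ω) p = derivative^[t] p := by
  induction t generalizing p with
  | zero => rfl
  | succ t ih =>
    rw [List.replicate_succ, Pl, ih, sub_self, C_0, zero_mul, add_zero, Function.iterate_succ_apply]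

theorem step_coeff {p : ℂ[X]} {n : ℕ} (δ : ℂ) (h : ∀ t, n ≤ t → p.coeff t = 0) :
    ∀ t, n ≤ t → (derivative p + C δ * p).coeff t = 0 := fun t ht => by
  rw [coeff_add, coeff_derivative, coeff_C_mul, h t ht, h _ (ht.trans (Nat.le_succ t))]
  ring

theorem pl_coeff (ω : ℂ) (l : List ℂ) {p : ℂ[X]} {n : ℕ} (h : ∀ t, n ≤ t → p.coeff t = 0) :
    ∀ t, n ≤ t → (Pl ω l p).coeff t = 0 := by
  induction l generalizing p with
  | nil => exact h
  | cons x l ih => exact ih (step_coeff _ h)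

open Classical in
theorem pl_zero (ω : ℂ) (l : List ℂ) {p : ℂ[X]} (h : ∀ t, l.count ω ≤ t → p.coeff t = 0) :
    Pl ω l p = 0 := by
  induction l generalizing p with
  | nil => exact Polynomial.ext fun t => h t (Nat.zero_le t)
  | cons x l ih =>
    refine ih ?_
    by_cases hx : x = ω
    · subst hx
      rw [List.count_cons_self] at h
      intro t ht
      rw [sub_self, C_0, zero_mul, add_zero, coeff_derivative, h _ (Nat.succ_le_succ ht), zero_mul]
    · rw [List.count_cons_of_ne hx] at h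
      exact step_coeff _ h

theorem step_bd {p : ℂ[X]} {n : ℕ} {δ : ℂ} {η K : ℝ} (hη : 0 < η) (hδ : η ≤ ‖δ‖)
    (h : ∀ t, n ≤ t → p.coeff t = 0)
    (hK : ∀ t : ℕ, ‖(t.factorial : ℂ) * (derivative p + C δ * p).coeff t‖ * (2 / η) ^ t ≤ K) :
    ∀ t : ℕ, ‖(t.factorial : ℂ) * p.coeff t‖ * (2 / η) ^ t ≤ 2 / η * K := by
  have hc : 0 < 2 / η := by positivity
  have hK0 : 0 ≤ K := le_trans (by positivity) (hK 0)
  suffices H : ∀ j t : ℕ, n ≤ t + j →
      ‖(t.factorial : ℂ) * p.coeff t‖ * (2 / η) ^ t ≤ 2 / η * K from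
    fun t => H n t (Nat.le_add_left n t)
  intro j
  induction j with
  | zero =>
    intro t ht
    rw [h t ht, mul_zero, norm_zero, zero_mul]
    positivity
  | succ j ih =>
    intro t ht
    have h1 := ih (t + 1) (by omega)
    have h2 := hK t
    have e : δ * ((t.factorial : ℂ) * p.coeff t) =
        (t.factorial : ℂ) * (derivative p + C δ * p).coeff t -
          ((t + 1).factorial : ℂ) * p.coeff (t + 1) := by
      rw [coeff_add, coeff_derivative, coeff_C_mul, Nat.factorial_succ]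
      push_cast
      ring
    have h3 : η * ‖(t.factorial : ℂ) * p.coeff t‖ ≤
        ‖(t.factorial : ℂ) * (derivative p + C δ * p).coeff t‖ +
          ‖((t + 1).factorial : ℂ) * p.coeff (t + 1)‖ :=
      (mul_le_mul_of_nonneg_right hδ (norm_nonneg _)).trans
        (by rw [← norm_mul, e]; exact norm_sub_le _ _)
    have h4 : ‖((t + 1).factorial : ℂ) * p.coeff (t + 1)‖ * (2 / η) ^ t ≤ K := by
      refine le_of_mul_le_mul_left ?_ hc
      rw [pow_succ] at h1
      linarith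
    have h5 := mul_le_mul_of_nonneg_right h3 (pow_pos hc t).le
    rw [div_mul_eq_mul_div, le_div_iff₀ hη]
    linarith

theorem pl_bd (ω : ℂ) (l : List ℂ) {p : ℂ[X]} {n : ℕ} {η K : ℝ} (hη : 0 < η)
    (hl : ∀ x ∈ l, η ≤ ‖ω - x‖) (h : ∀ t, n ≤ t → p.coeff t = 0)
    (hK : ∀ t : ℕ, ‖(t.factorial : ℂ) * (Pl ω l p).coeff t‖ * (2 / η) ^ t ≤ K) :
    ∀ t : ℕ, ‖(t.factorial : ℂ) * p.coeff t‖ * (2 / η) ^ t ≤ (2 / η) ^ l.length * K := by
  induction l generalizing p with
  | nil => simpa [Pl] using hK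
  | cons x l ih =>
    intro t
    have := step_bd hη (hl x List.mem_cons_self) h
      (ih (fun y hy => hl y (List.mem_cons_of_mem _ hy)) (step_coeff _ h) hK) t
    rwa [List.length_cons, pow_succ', mul_assoc]

end EpCoeffL

open EpCoeffL in
theorem epCoeff (h0 : DlZeroStmt) : EpCoeffStmt := by
  classical
  intro ι s ω T p η Ω ρ m hp hη hη1 hsep hΩ hω hρ hm i hi τ
  have hz : ∀ j ∈ s, ∀ t, T j ≤ t → (p j).coeff t = 0 := fun j hj t ht =>
    coeff_eq_zero_of_degree_lt ((hp j hj).trans_le (by exact_mod_cast ht))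
  have hm0 : 0 ≤ m := (norm_nonneg _).trans (hm ρ (by
    rw [Complex.norm_real, Real.norm_of_nonneg (by linarith)]))
  have hc : 1 ≤ 2 / η := by
    rw [le_div_iff₀ hη]
    linarith
  obtain ⟨l, l1, l2, l3⟩ : ∃ l : List ℂ, (∀ j ∈ s.erase i, T j ≤ l.count (ω j)) ∧
      (∀ x ∈ l, ∃ j ∈ s.erase i, x = ω j) ∧ l.length + T i = ∑ j ∈ s, T j := by
    refine ⟨(∑ j ∈ s.erase i, Multiset.replicate (T j) (ω j)).toList, fun j hj => ?_,
      fun x hx => ?_, ?_⟩
    · rw [← Multiset.coe_count, Multiset.coe_toList, Multiset.count_sum']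
      refine le_trans ?_ (single_le_sum (fun _ _ => Nat.zero_le _) hj)
      rw [Multiset.count_replicate_self]
    · rw [Multiset.mem_toList, Multiset.mem_sum] at hx
      obtain ⟨j, hj, hx⟩ := hx
      exact ⟨j, hj, Multiset.eq_of_mem_replicate hx⟩
    · rw [Multiset.length_toList, Multiset.card_sum]
      simp only [Multiset.card_replicate]
      exact sum_erase_add s T hi
  set N := ∑ j ∈ s, T j
  have key : ∀ t : ℕ, ‖(t.factorial : ℂ) * (Pl (ω i) l (p i)).coeff t‖ * (2 / η) ^ t ≤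
      (2 / η) ^ T i * ((N : ℝ) ^ N * Real.exp (Ω * ρ) * m) := fun t => by
    rcases le_or_gt (T i) t with ht | ht
    · rw [pl_coeff _ _ (hz i hi) t ht, mul_zero, norm_zero, zero_mul]
      positivity
    have h1 := h0 (ep s ω p) (l ++ List.replicate t (ω i)) Ω ρ m
      (fun z => (diff_ep s ω p z).differentiableAt) hΩ (by linarith) (fun x hx => by
        rcases List.mem_append.1 hx with hx | hx
        · obtain ⟨j, hj, rfl⟩ := l2 x hx
          exact hω j (mem_of_mem_erase hj)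
        · rw [List.eq_of_mem_replicate hx]
          exact hω i hi) hm
    rw [dl_ep, ep, ← add_sum_erase s _ hi, sum_eq_zero (fun j hj => by
      rw [pl_zero _ _ fun t ht => hz j (mem_of_mem_erase hj) t
        ((l1 j hj).trans ((List.sublist_append_left _ _).count_le _ |>.trans ht)),
        eval_zero, zero_mul]), add_zero, pl_append, pl_rep, mul_zero, Complex.exp_zero, mul_one,
      ← coeff_zero_eq_eval_zero, coeff_iterate_derivative, zero_add, Nat.descFactorial_self,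
      nsmul_eq_mul, List.length_append, List.length_replicate] at h1
    have h2 : ((l.length + t).factorial : ℝ) ≤ (N : ℝ) ^ N := by
      exact_mod_cast (Nat.factorial_le (by omega)).trans (Nat.factorial_le_pow N)
    have h3 : m * (l.length + t).factorial / ρ ^ (l.length + t) ≤ m * (N : ℝ) ^ N :=
      (div_le_self (by positivity) (one_le_pow₀ hρ)).trans (mul_le_mul_of_nonneg_left h2 hm0)
    rw [mul_comm]
    refine mul_le_mul (pow_le_pow_right₀ hc ht.le) (h1.trans ?_) (norm_nonneg _) (by positivity)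
    refine (mul_le_mul_of_nonneg_right h3 (Real.exp_pos _).le).trans (le_of_eq ?_)
    ring
  have h1 := pl_bd (ω i) l hη (fun x hx => by
    obtain ⟨j, hj, rfl⟩ := l2 x hx
    exact hsep i hi j (mem_of_mem_erase hj) (ne_of_mem_erase hj).symm) (hz i hi) key τ
  rw [← mul_assoc, ← pow_add, l3] at h1
  refine le_trans ?_ (h1.trans (le_of_eq (by ring)))
  refine le_trans ?_ (le_mul_of_one_le_right (norm_nonneg _) (one_le_pow₀ hc))
  rw [norm_mul, Complex.norm_natCast]
  exact le_mul_of_one_le_left (norm_nonneg _) (by exact_mod_cast τ.factorial_pos)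

end LogPow

end

section

/-! The Newton scheme with small data. -/

open Polynomial NumberField Finset

namespace LogPow

namespace NewtonL

theorem diff_iter {g : ℂ → ℂ} (hg : Differentiable ℂ g) (j : ℕ) :
    Differentiable ℂ (iteratedDeriv j g) :=
  ContDiff.differentiable_iteratedDeriv' j hg.contDiff

theorem iter {g : ℂ → ℂ} (hg : Differentiable ℂ g) (a c : ℂ) (j : ℕ) :
    iteratedDeriv (j + 1) (fun z => c + (z - a) * g z) =
      fun x => (x - a) * iteratedDeriv (j + 1) g x + ((j : ℂ) + 1) * iteratedDeriv j g x := by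
  induction j with
  | zero =>
    funext x
    have h := (((hasDerivAt_id x).sub_const a).mul (hg x).hasDerivAt).const_add c
    rw [zero_add, iteratedDeriv_one, iteratedDeriv_one, iteratedDeriv_zero]
    refine h.deriv.trans ?_
    simp only [id, Nat.cast_zero]
    ring
  | succ j ih =>
    funext x
    rw [iteratedDeriv_succ, ih]
    have h := (((hasDerivAt_id x).sub_const a).mul (diff_iter hg (j + 1) x).hasDerivAt).add
      ((diff_iter hg j x).hasDerivAt.const_mul ((j : ℂ) + 1))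
    refine h.deriv.trans ?_
    rw [← iteratedDeriv_succ, ← iteratedDeriv_succ]
    simp only [id, Nat.cast_add, Nat.cast_one]
    ring

theorem at_node {g : ℂ → ℂ} (hg : Differentiable ℂ g) (a c : ℂ) {ε : ℝ} (j : ℕ)
    (h : ‖iteratedDeriv (j + 1) (fun z => c + (z - a) * g z) a‖ ≤ (j + 1).factorial * ε) :
    ‖iteratedDeriv j g a‖ ≤ j.factorial * ε := by
  rw [iter hg] at h
  simp only [sub_self, zero_mul, zero_add, norm_mul] at h
  have e : ‖(j : ℂ) + 1‖ = (j : ℝ) + 1 := by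
    rw [← Nat.cast_succ, Complex.norm_natCast, Nat.cast_succ]
  rw [e, Nat.factorial_succ, Nat.cast_mul, Nat.cast_succ, mul_assoc] at h
  exact le_of_mul_le_mul_left h (by positivity)

theorem off_node {g : ℂ → ℂ} (hg : Differentiable ℂ g) (a c x : ℂ) {ε : ℝ} (hε : 0 ≤ ε)
    (hc : ‖c‖ ≤ ε) (hx : 1 ≤ ‖x - a‖) (j : ℕ)
    (h : ∀ σ ≤ j, ‖iteratedDeriv σ (fun z => c + (z - a) * g z) x‖ ≤ σ.factorial * ε) :
    ‖iteratedDeriv j g x‖ ≤ j.factorial * ((j + 2) * ε) := by
  induction j with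
  | zero =>
    have h0 := h 0 le_rfl
    simp only [iteratedDeriv_zero, Nat.factorial_zero, Nat.cast_one, one_mul, Nat.cast_zero,
      zero_add] at h0 ⊢
    have h1 := norm_sub_le (c + (x - a) * g x) c
    rw [add_sub_cancel_left, norm_mul] at h1
    nlinarith [norm_nonneg (g x)]
  | succ j ih =>
    have h0 := ih fun σ hσ => h σ (hσ.trans (Nat.le_succ j))
    have h1 := h (j + 1) le_rfl
    rw [iter hg] at h1
    have e : ‖(j : ℂ) + 1‖ = (j : ℝ) + 1 := by
      rw [← Nat.cast_succ, Complex.norm_natCast, Nat.cast_succ]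
    have h2 := norm_sub_le ((x - a) * iteratedDeriv (j + 1) g x +
      ((j : ℂ) + 1) * iteratedDeriv j g x) (((j : ℂ) + 1) * iteratedDeriv j g x)
    rw [add_sub_cancel_right, norm_mul, norm_mul, e] at h2
    have h3 := mul_le_mul_of_nonneg_left h0 (show (0 : ℝ) ≤ j + 1 by positivity)
    have h4 := le_mul_of_one_le_left (norm_nonneg (iteratedDeriv (j + 1) g x)) hx
    rw [Nat.factorial_succ] at h1 ⊢
    push_cast at h1 ⊢
    nlinarith

theorem main {κ : Type} (u : Finset κ) (μ : κ → ℂ) (F : ℕ) {ρ : ℝ} (hρ : 1 ≤ ρ)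
    (hμ : ∀ k ∈ u, ‖μ k‖ ≤ ρ) (hsep : ∀ k ∈ u, ∀ l ∈ u, k ≠ l → 1 ≤ ‖μ k - μ l‖) (n : ℕ) :
    ∀ (Sg : κ → ℕ) (ε : ℝ) (f : ℂ → ℂ), ∑ k ∈ u, Sg k = n → Differentiable ℂ f →
      (∀ k ∈ u, Sg k ≤ F) → 0 ≤ ε →
      (∀ k ∈ u, ∀ σ < Sg k, ‖iteratedDeriv σ f (μ k)‖ ≤ σ.factorial * ε) →
      ∃ g : ℂ → ℂ, Differentiable ℂ g ∧ ∀ z : ℂ,
        ‖f z - (∏ k ∈ u, (z - μ k) ^ Sg k) * g z‖ ≤ (n : ℝ) * ((F + 1) * (‖z‖ + ρ)) ^ n * ε := by
  classical
  induction n with
  | zero =>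
    intro Sg ε f hn hf _ _ _
    refine ⟨f, hf, fun z => ?_⟩
    rw [Finset.prod_eq_one fun k hk => by rw [Finset.sum_eq_zero_iff.1 hn k hk, pow_zero]]
    simp
  | succ n ih =>
    intro Sg ε f hn hf hF hε hd
    obtain ⟨k₀, hk₀, hS⟩ := Finset.exists_ne_zero_of_sum_ne_zero (hn.trans_ne n.succ_ne_zero)
    have hg : Differentiable ℂ (dslope f (μ k₀)) := by
      rw [← differentiableOn_univ]
      exact (Complex.differentiableOn_dslope Filter.univ_mem).2 hf.differentiableOn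
    have hfe : f = fun z => f (μ k₀) + (z - μ k₀) * dslope f (μ k₀) z := by
      funext z
      have := sub_smul_dslope f (μ k₀) z
      rw [smul_eq_mul] at this
      rw [this]
      ring
    have hc : ‖f (μ k₀)‖ ≤ ε := by simpa using hd k₀ hk₀ 0 (Nat.pos_of_ne_zero hS)
    generalize dslope f (μ k₀) = g₁ at hg hfe
    generalize f (μ k₀) = c at hfe hc
    subst hfe
    have hF0 : (0 : ℝ) ≤ F := by positivity
    obtain ⟨g, hg', hb⟩ := ih (Function.update Sg k₀ (Sg k₀ - 1)) ((F + 1) * ε) g₁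
      (by
        rw [Finset.sum_update_of_mem hk₀]
        rw [← Finset.add_sum_erase _ _ hk₀, ← Finset.sdiff_singleton_eq_erase] at hn
        omega) hg
      (fun k hk => by
        by_cases h : k = k₀
        · subst h
          rw [Function.update_self]
          exact (Nat.sub_le _ _).trans (hF k hk)
        · rw [Function.update_of_ne h]
          exact hF k hk) (by positivity)
      (fun k hk σ hσ => by
        by_cases h : k = k₀
        · subst h
          rw [Function.update_self] at hσ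
          refine (at_node hg (μ k) c σ (hd k hk (σ + 1) (by omega))).trans ?_
          exact mul_le_mul_of_nonneg_left (by nlinarith) (by positivity)
        · rw [Function.update_of_ne h] at hσ
          refine (off_node hg (μ k₀) c (μ k) hε hc (hsep k hk k₀ hk₀ h) σ
            fun τ hτ => hd k hk τ (by omega)).trans ?_
          have h1 : ((σ + 1 : ℕ) : ℝ) ≤ F := by exact_mod_cast (Nat.succ_le_of_lt hσ).trans (hF k hk)
          push_cast at h1
          exact mul_le_mul_of_nonneg_left (mul_le_mul_of_nonneg_right (by linarith) hε)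
            (by positivity))
    refine ⟨g, hg', fun z => ?_⟩
    have hp : ∏ k ∈ u, (z - μ k) ^ Sg k =
        (z - μ k₀) * ∏ k ∈ u, (z - μ k) ^ Function.update Sg k₀ (Sg k₀ - 1) k := by
      rw [← Finset.mul_prod_erase _ _ hk₀, ← Finset.mul_prod_erase _ _ hk₀, Function.update_self,
        ← mul_assoc, ← pow_succ', Nat.sub_add_cancel (Nat.pos_of_ne_zero hS)]
      congr 1
      exact Finset.prod_congr rfl fun k hk => by
        rw [Function.update_of_ne (Finset.ne_of_mem_erase hk)]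
    have hb' := hb z
    rw [hp]
    generalize (∏ k ∈ u, (z - μ k) ^ Function.update Sg k₀ (Sg k₀ - 1) k) = P at hb'
    have e : c + (z - μ k₀) * g₁ z - (z - μ k₀) * P * g z = c + (z - μ k₀) * (g₁ z - P * g z) := by
      ring
    have hz : ‖z - μ k₀‖ ≤ ‖z‖ + ρ := (norm_sub_le _ _).trans (by linarith [hμ k₀ hk₀])
    have hz0 := norm_nonneg z
    have hΦ : 1 ≤ ((F : ℝ) + 1) * (‖z‖ + ρ) :=
      one_le_mul_of_one_le_of_one_le (by linarith) (by linarith)
    have h1 : ε ≤ (((F : ℝ) + 1) * (‖z‖ + ρ)) ^ (n + 1) * ε :=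
      le_mul_of_one_le_left hε (one_le_pow₀ hΦ)
    show ‖c + (z - μ k₀) * g₁ z - (z - μ k₀) * P * g z‖ ≤ _
    rw [e]
    refine (norm_add_le _ _).trans ?_
    rw [norm_mul]
    have h2 := mul_le_mul hz hb' (norm_nonneg _) (by linarith)
    calc _ ≤ (((F : ℝ) + 1) * (‖z‖ + ρ)) ^ (n + 1) * ε +
          (‖z‖ + ρ) * (n * (((F : ℝ) + 1) * (‖z‖ + ρ)) ^ n * ((F + 1) * ε)) :=
          add_le_add (hc.trans h1) h2
      _ = _ := by push_cast; ring

end NewtonL

theorem newtonStmt : NewtonStmt := fun _ u μ Sg F _ ε f hf hρ hμ hsep hF hε hd =>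
  NewtonL.main u μ F hρ hμ hsep _ Sg ε f rfl hf hF hε hd

end LogPow

end

section

open Polynomial NumberField Finset

namespace LogPow

namespace GrowL

theorem diff_Dop {f : ℂ → ℂ} (hf : Differentiable ℂ f) (w : ℂ) : Differentiable ℂ (Dop w f) := by
  intro z
  unfold Dop
  exact (hf.analyticAt z).deriv.differentiableAt.sub ((hf z).const_mul w)

theorem deriv_g {f : ℂ → ℂ} (hf : Differentiable ℂ f) (w z : ℂ) (s : ℝ) :
    HasDerivAt (fun s : ℝ => Complex.exp (w * (1 - (s : ℂ)) * z) * f ((s : ℂ) * z))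
      (Complex.exp (w * (1 - (s : ℂ)) * z) * z * Dop w f ((s : ℂ) * z)) s := by
  have h1 : HasDerivAt (fun t : ℂ => Complex.exp (w * (1 - t) * z))
      (Complex.exp (w * (1 - (s : ℂ)) * z) * (w * (-1) * z)) (s : ℂ) :=
    ((((hasDerivAt_id (s : ℂ)).const_sub 1).const_mul w).mul_const z).cexp
  have h2 : HasDerivAt (fun t : ℂ => f (t * z)) (deriv f ((s : ℂ) * z) * (1 * z)) (s : ℂ) :=
    (hf ((s : ℂ) * z)).hasDerivAt.comp (s : ℂ) ((hasDerivAt_id (s : ℂ)).mul_const z)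
  refine ((h1.mul h2).comp_ofReal).congr_deriv ?_
  unfold Dop
  ring

theorem norm_exp_le (w z : ℂ) (Ω s : ℝ) (hw : ‖w‖ ≤ Ω) (hs : s ≤ 1) :
    ‖Complex.exp (w * (1 - (s : ℂ)) * z)‖ ≤ Real.exp (Ω * (1 - s) * ‖z‖) := by
  rw [Complex.norm_exp]
  refine Real.exp_le_exp.2 ((Complex.re_le_norm _).trans ?_)
  have h1 : ‖(1 - (s : ℂ))‖ = 1 - s := by
    rw [← Complex.ofReal_one, ← Complex.ofReal_sub, Complex.norm_real, Real.norm_eq_abs,
      abs_of_nonneg (by linarith)]
  rw [norm_mul, norm_mul, h1]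
  exact mul_le_mul_of_nonneg_right (mul_le_mul_of_nonneg_right hw (by linarith)) (norm_nonneg _)

theorem step {f : ℂ → ℂ} (hf : Differentiable ℂ f) (w : ℂ) (Ω : ℝ) (hw : ‖w‖ ≤ Ω) (n : ℕ)
    (c : ℕ → ℝ) (h : ∀ z : ℂ, ‖Dop w f z‖ ≤ Real.exp (Ω * ‖z‖) *
      ∑ k ∈ range n, c k * ‖z‖ ^ k / k.factorial) (z : ℂ) :
    ‖f z‖ ≤ Real.exp (Ω * ‖z‖) *
      (∑ k ∈ range n, c k * ‖z‖ ^ (k + 1) / (k + 1).factorial + ‖f 0‖) := by
  have hB : ∀ s : ℝ, HasDerivAt (fun s : ℝ => Real.exp (Ω * ‖z‖) *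
      (∑ k ∈ range n, c k * ‖z‖ ^ (k + 1) / (k + 1).factorial * s ^ (k + 1) + ‖f 0‖))
      (Real.exp (Ω * ‖z‖) * ∑ k ∈ range n, c k * ‖z‖ ^ (k + 1) / k.factorial * s ^ k) s := by
    intro s
    refine HasDerivAt.const_mul _ (HasDerivAt.add_const _ ?_)
    refine HasDerivAt.fun_sum fun k _ => ?_
    refine ((hasDerivAt_pow (k + 1) s).const_mul _).congr_deriv ?_
    rw [Nat.factorial_succ, Nat.add_sub_cancel]
    push_cast
    field_simp
  have h1 := image_norm_le_of_norm_deriv_right_le_deriv_boundary (a := 0) (b := 1)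
    (f := fun s : ℝ => Complex.exp (w * (1 - (s : ℂ)) * z) * f ((s : ℂ) * z))
    (fun s _ => (deriv_g hf w z s).continuousAt.continuousWithinAt)
    (fun s _ => (deriv_g hf w z s).hasDerivWithinAt) (by
      have h2 := norm_exp_le w z Ω 0 hw zero_le_one
      rw [norm_mul]
      simp only [Complex.ofReal_zero, zero_mul, sub_zero, mul_one, ne_eq, Nat.add_eq_zero_iff,
        one_ne_zero, and_false, not_false_eq_true, zero_pow, mul_zero, sum_const_zero,
        zero_add] at h2 ⊢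
      exact mul_le_mul_of_nonneg_right h2 (norm_nonneg _)) hB (by
      intro s hs
      have h2 := norm_exp_le w z Ω s hw hs.2.le
      have h3 := h ((s : ℂ) * z)
      rw [norm_mul, Complex.norm_real, Real.norm_eq_abs, abs_of_nonneg hs.1] at h3
      rw [norm_mul, norm_mul]
      calc _ ≤ Real.exp (Ω * (1 - s) * ‖z‖) * ‖z‖ * (Real.exp (Ω * (s * ‖z‖)) *
            ∑ k ∈ range n, c k * (s * ‖z‖) ^ k / k.factorial) :=
            mul_le_mul (mul_le_mul_of_nonneg_right h2 (norm_nonneg _)) h3 (norm_nonneg _)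
              (by positivity)
        _ = (Real.exp (Ω * (1 - s) * ‖z‖) * Real.exp (Ω * (s * ‖z‖))) *
            (‖z‖ * ∑ k ∈ range n, c k * (s * ‖z‖) ^ k / k.factorial) := by ring
        _ = _ := by
            rw [← Real.exp_add, mul_sum]
            congr 1
            · congr 1
              ring
            · refine sum_congr rfl fun k _ => ?_
              ring) (x := 1) ⟨zero_le_one, le_rfl⟩
  simpa using h1

end GrowL

theorem growStmt : GrowStmt := by
  intro f l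
  induction l generalizing f with
  | nil =>
    intro Ω _ _ _ h z
    have h1 : f = 0 := h
    simp [h1]
  | cons w l ih =>
    intro Ω hf hΩ hl h z
    have h1 := ih (Dop w f) Ω (GrowL.diff_Dop hf w) hΩ (fun x hx => hl x (List.mem_cons_of_mem _ hx)) h
    have h2 := GrowL.step hf w Ω (hl w List.mem_cons_self) l.length
      (fun k => ‖Dl (l.take k) (Dop w f) 0‖) h1 z
    rw [List.length_cons, sum_range_succ']
    simpa [Dl] using h2

end LogPow

end

section

open Polynomial Finset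

namespace Pool.Agent.MP_655169_nt.FL

namespace CoreL

theorem sz_sum {θ : ℂ} (S : Sys θ) {ι : Type} (s : Finset ι) (x : ι → ℂ) (m n : ℕ) (H : ℝ)
    (hx : ∀ i ∈ s, S.Sz (x i) m n H) : S.Sz (∑ i ∈ s, x i) m n (s.card * H) := by
  classical
  induction s using Finset.induction_on with
  | empty =>
    have := S.mono (S.int 0) (Nat.zero_le m) (Nat.zero_le n) le_rfl
    simpa using this
  | insert a s ha ih =>
    rw [sum_insert ha, card_insert_of_notMem ha]
    have := S.add (hx a (mem_insert_self _ _)) (ih fun i hi => hx i (mem_insert_of_mem hi))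
    refine S.mono this le_rfl le_rfl (le_of_eq ?_)
    push_cast
    ring

theorem sz_pow {θ : ℂ} (S : Sys θ) (hθ : S.Sz θ 0 1 1) (i : ℕ) : S.Sz (θ ^ i) 0 i 1 := by
  induction i with
  | zero => simpa using S.int 1
  | succ i ih => simpa [pow_succ] using S.mul ih hθ

theorem coef_zero {θ : ℂ} (hθ : Transcendental ℚ θ) {n : ℕ} (a : Fin n → ℤ)
    (h : ∑ i, (a i : ℂ) * θ ^ (i : ℕ) = 0) (i : Fin n) : a i = 0 := by
  have h1 := transcendental_iff.1 hθ (∑ j : Fin n, monomial (j : ℕ) (a j : ℚ)) (by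
    rw [map_sum, ← h]
    exact sum_congr rfl fun j _ => by simp [aeval_monomial])
  have h2 := congrArg (fun Q => coeff Q (i : ℕ)) h1
  simp only [finsetSum_coeff, coeff_monomial, coeff_zero] at h2
  rw [sum_eq_single i (fun j _ hj => if_neg fun e => hj (Fin.ext e)) (by simp), if_pos rfl] at h2
  exact_mod_cast h2

theorem norm_comb {a b : ℂ} {K : ℝ} (ha : ‖a‖ ≤ K) (hb : ‖b‖ ≤ K) {s t S T : ℕ} (hs : s ≤ S)
    (ht : t ≤ T) : ‖(s : ℂ) * a + t * b‖ ≤ K * (S + T) := by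
  have hK : 0 ≤ K := (norm_nonneg _).trans ha
  have h1 : (s : ℝ) ≤ S := by exact_mod_cast hs
  have h2 : (t : ℝ) ≤ T := by exact_mod_cast ht
  refine (norm_add_le _ _).trans ?_
  rw [norm_mul, norm_mul, Complex.norm_natCast, Complex.norm_natCast]
  calc _ ≤ (S : ℝ) * K + T * K := by gcongr
    _ = _ := by ring

theorem box {M N P : ℕ} {h U : ℝ} (hU : 1 ≤ U) (hN : 1 ≤ N) (hP : Real.exp h < P + 1)
    (hL : (N : ℝ) * P ≤ Real.exp U) (hb : 10 * M * U ≤ N * h) :
    (2 * ((N : ℝ) * P * Real.exp U) / Real.exp (-(2 * U)) + 3) ^ (2 * M) < ((P : ℝ) + 1) ^ N := by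
  have e1 : (2.7 : ℝ) ≤ Real.exp U :=
    le_trans (by linarith [Real.exp_one_gt_d9]) (Real.exp_le_exp.2 hU)
  have e2 : Real.exp (-(2 * U)) = (Real.exp U ^ 2)⁻¹ := by
    rw [Real.exp_neg, ← Real.exp_nat_mul]; norm_num
  have e3 : 2 * ((N : ℝ) * P * Real.exp U) / Real.exp (-(2 * U)) + 3 ≤ Real.exp U ^ 5 := by
    rw [e2, div_inv_eq_mul]
    generalize Real.exp U = y at *
    have y2 : 7 ≤ y ^ 2 := by nlinarith
    have y4 : 49 ≤ y ^ 4 := by nlinarith
    have a1 : 2 * ((N : ℝ) * P * y) * y ^ 2 ≤ 2 * (y * y) * y ^ 2 := by gcongr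
    nlinarith
  calc _ ≤ (Real.exp U ^ 5) ^ (2 * M) := by gcongr
    _ = Real.exp (10 * M * U) := by
        rw [← pow_mul, ← Real.exp_nat_mul]; congr 1; push_cast; ring
    _ ≤ Real.exp h ^ N := by rw [← Real.exp_nat_mul]; exact Real.exp_le_exp.2 hb
    _ < _ := pow_lt_pow_left₀ hP (Real.exp_pos _).le (by omega)

theorem small {M S0 : ℕ} {A U E : ℝ} (hE : 1 ≤ E) (hA : A ≤ Real.exp U)
    (hS : (S0.factorial : ℝ) * (2 * M + 2) ≤ Real.exp U) (hM : Real.exp (4 * U) ≤ E ^ M) :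
    (S0.factorial : ℝ) * (2 * M * Real.exp (-(2 * U)) + 2 * (A * Real.exp U) * (E⁻¹) ^ M)
      ≤ Real.exp (-U) := by
  have a1 : (E⁻¹) ^ M ≤ Real.exp (-(4 * U)) := by
    rw [inv_pow, Real.exp_neg]
    exact inv_anti₀ (Real.exp_pos _) hM
  have a2 : A * Real.exp U * (E⁻¹) ^ M ≤ Real.exp (-(2 * U)) := by
    calc _ ≤ Real.exp U * Real.exp U * Real.exp (-(4 * U)) := by gcongr
      _ = _ := by rw [← Real.exp_add, ← Real.exp_add]; congr 1; ring
  calc _ ≤ (S0.factorial : ℝ) * (2 * M * Real.exp (-(2 * U)) + 2 * Real.exp (-(2 * U))) := by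
        rw [mul_assoc 2 (A * _)]; gcongr
    _ = (S0.factorial : ℝ) * (2 * M + 2) * Real.exp (-(2 * U)) := by ring
    _ ≤ Real.exp U * Real.exp (-(2 * U)) := by gcongr
    _ = _ := by rw [← Real.exp_add]; congr 1; ring

theorem ent {τ σ s t j k T0 S0 S1 S2 T1 T2 : ℕ} (h1 : τ < T0) (h2 : σ < S0) (h3 : s < S1)
    (h4 : t < S2) (h5 : j < T1) (h6 : k < T2) :
    (2 ^ σ * (τ : ℝ) ^ τ * ((s : ℝ) + t + 1) ^ τ * ((j : ℝ) + k + 1) ^ σ) ≤
      2 ^ S0 * (T0 : ℝ) ^ T0 * ((S1 : ℝ) + S2) ^ T0 * ((T1 : ℝ) + T2) ^ S0 := by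
  have key : ∀ a b c d : ℕ, a ≤ b → 1 ≤ b → c ≤ d → a ^ c ≤ b ^ d := fun a b c d x y z =>
    (Nat.pow_le_pow_left x c).trans (Nat.pow_le_pow_right y z)
  have : 2 ^ σ * τ ^ τ * (s + t + 1) ^ τ * (j + k + 1) ^ σ ≤
      2 ^ S0 * T0 ^ T0 * (S1 + S2) ^ T0 * (T1 + T2) ^ S0 :=
    Nat.mul_le_mul (Nat.mul_le_mul (Nat.mul_le_mul (key _ _ _ _ le_rfl (by omega) h2.le)
      (key _ _ _ _ h1.le (by omega) h1.le)) (key _ _ _ _ (by omega) (by omega) h1.le))
      (key _ _ _ _ (by omega) (by omega) h2.le)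
  exact_mod_cast this

end CoreL

open CoreL in
theorem core (h1 : SmallStmt) (h2 : RankStmt) (h3 : EntryStmt) : CoreStmt := by
  intro θ S β L₁ L₂ eL ew T0 T1 T2 S0 S1 S2 n0 M h U E K hθ hG ok kθ kβ k₁ k₂ hI
  have hK := ok.hK
  have hE := ok.hE
  have hcard : Fintype.card (Fin n0 × Fin T0 × Fin T1 × Fin T2) = n0 * T0 * T1 * T2 := by
    simp only [Fintype.card_prod, Fintype.card_fin]; ring
  have hN1 : 1 ≤ n0 * T0 * T1 * T2 :=
    Nat.mul_pos (Nat.mul_pos (Nat.mul_pos ok.hn0 ok.hT0) ok.hT1) ok.hT2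
  have hρ : 1 ≤ K * ((S1 : ℝ) + S2) := by
    have a : (1 : ℝ) ≤ S1 := by exact_mod_cast ok.hS1
    have b : (0 : ℝ) ≤ S2 := Nat.cast_nonneg _
    nlinarith
  have hPle : ((⌊Real.exp h⌋₊ : ℕ) : ℝ) ≤ Real.exp h := Nat.floor_le (Real.exp_pos _).le
  have hNP : ((n0 * T0 * T1 * T2 : ℕ) : ℝ) * (⌊Real.exp h⌋₊ : ℕ) ≤ Real.exp U := by
    refine le_trans ?_ ok.hL
    push_cast
    gcongr
  have hω : ∀ (j : Fin T1) (k : Fin T2), ‖((j : ℕ) : ℂ) + (k : ℕ) * β‖ ≤ K * (T1 + T2) := by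
    intro j k
    have := norm_comb (a := 1) (b := β) (by simpa using hK) kβ j.2.le k.2.le
    simpa using this
  obtain ⟨p, hp0, hpP, hp⟩ := h1 (Fin n0 × Fin T0 × Fin T1 × Fin T2)
    (fun i z => θ ^ (i.1 : ℕ) * (z ^ (i.2.1 : ℕ) *
      Complex.exp ((((i.2.2.1 : ℕ) : ℂ) + (i.2.2.2 : ℕ) * β) * z)))
    M ⌊Real.exp h⌋₊ S0 (K * (S1 + S2)) E (Real.exp U) (Real.exp (-(2 * U)))
    (fun i => by fun_prop) hρ hE (Real.exp_pos _) (Real.exp_pos _).le
    (by
      intro i z hz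
      refine le_trans ?_ ok.hB
      have hR : 1 ≤ 2 * Real.exp 1 * (K * ((S1 : ℝ) + S2)) * E := by
        have a : 1 ≤ 2 * Real.exp 1 := by linarith [Real.exp_one_gt_d9]
        exact one_le_mul_of_one_le_of_one_le (one_le_mul_of_one_le_of_one_le a hρ) hE
      rw [norm_mul, norm_mul, norm_pow, norm_pow, hz, mul_assoc (K ^ n0)]
      refine mul_le_mul ((pow_le_pow_left₀ (norm_nonneg _) kθ _).trans
        (pow_le_pow_right₀ hK i.1.2.le)) (mul_le_mul (pow_le_pow_right₀ hR i.2.1.2.le) ?_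
        (norm_nonneg _) (by positivity)) (by positivity) (by positivity)
      refine (Complex.norm_exp_le_exp_norm _).trans (Real.exp_le_exp.2 ?_)
      rw [norm_mul, hz]
      exact mul_le_mul_of_nonneg_right (hω _ _) (by positivity))
    (by
      rw [hcard]
      refine box (h := h) ok.hU hN1 (Nat.lt_floor_add_one _) hNP ?_
      push_cast
      exact ok.box)
  rw [hcard] at hp
  have hF : (fun z : ℂ => ∑ i : Fin T1 × Fin T2, ∑ τ : Fin T0,
      (∑ l : Fin n0, (p (l, τ, i) : ℂ) * θ ^ (l : ℕ)) *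
        (z ^ (τ : ℕ) * Complex.exp ((((i.1 : ℕ) : ℂ) + (i.2 : ℕ) * β) * z))) =
      fun z => ∑ i : Fin n0 × Fin T0 × Fin T1 × Fin T2, (p i : ℂ) * (θ ^ (i.1 : ℕ) *
        (z ^ (i.2.1 : ℕ) * Complex.exp ((((i.2.2.1 : ℕ) : ℂ) + (i.2.2.2 : ℕ) * β) * z))) := by
    funext z
    rw [Fintype.sum_prod_type (α₁ := Fin n0), sum_comm (s := univ (α := Fin n0)),
      Fintype.sum_prod_type (α₁ := Fin T0), sum_comm (s := univ (α := Fin T0))]
    refine sum_congr rfl fun i _ => sum_congr rfl fun τ _ => ?_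
    rw [sum_mul]
    exact sum_congr rfl fun l _ => mul_assoc _ _ _
  have hex : ¬ ∀ k : Fin S1 × Fin S2, ∀ σ < S0, iteratedDeriv σ
      (fun z => ∑ i : Fin n0 × Fin T0 × Fin T1 × Fin T2, (p i : ℂ) * (θ ^ (i.1 : ℕ) *
        (z ^ (i.2.1 : ℕ) * Complex.exp ((((i.2.2.1 : ℕ) : ℂ) + (i.2.2.2 : ℕ) * β) * z))))
      (((k.1 : ℕ) : ℂ) * L₁ + (k.2 : ℕ) * L₂) = 0 := by
    intro hz
    rw [← hF] at hz
    have hc := h2 (Fin T1 × Fin T2) (Fin S1 × Fin S2)
      (fun i => ((i.1 : ℕ) : ℂ) + (i.2 : ℕ) * β) (fun k => ((k.1 : ℕ) : ℂ) * L₁ + (k.2 : ℕ) * L₂)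
      T0 S0 (K * (T1 + T2)) (K * (S1 + S2))
      (fun i τ => ∑ l : Fin n0, (p (l, τ, i) : ℂ) * θ ^ (l : ℕ))
      (fun a b e => by
        have := hI.fr _ _ _ _ a.1.2 a.2.2 b.1.2 b.2.2 e
        exact Prod.ext (Fin.ext this.1) (Fin.ext this.2))
      (fun a b e => by
        have := hI.pt _ _ _ _ a.1.2 a.2.2 b.1.2 b.2.2 e
        exact Prod.ext (Fin.ext this.1) (Fin.ext this.2))
      (by positivity) (fun i => hω _ _) hρ (fun k => norm_comb k₁ k₂ k.1.2.le k.2.2.le)
      (by simpa using ok.rank) hz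
    refine hp0 (funext fun i => ?_)
    exact coef_zero hθ (fun l => p (l, i.2.1, i.2.2)) (congrFun (congrFun hc i.2.2) i.2.1) i.1
  push Not at hex
  obtain ⟨k, σ, hσ, hx⟩ := hex
  refine ⟨_, hx, ?_, (hp _ (norm_comb k₁ k₂ k.1.2.le k.2.2.le) σ hσ.le).trans
    (small hE hNP ok.hS ok.hM)⟩
  rw [iteratedDeriv_fun_sum fun i _ => by fun_prop]
  refine S.mono (sz_sum S univ _ _ _ (Real.exp h *
    (2 ^ S0 * (T0 : ℝ) ^ T0 * ((S1 : ℝ) + S2) ^ T0 * ((T1 : ℝ) + T2) ^ S0)) fun i _ => ?_)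
    le_rfl le_rfl ?_
  · rw [iteratedDeriv_const_mul_field, iteratedDeriv_const_mul_field]
    have a1 := i.1.2
    have a2 := i.2.1.2
    have a3 := i.2.2.1.2
    have a4 := i.2.2.2.2
    have a5 := k.1.2
    have a6 := k.2.2
    refine S.mono (S.mul (S.int (p i)) (S.mul (sz_pow S hG.hθ i.1)
      (h3 θ S β L₁ L₂ eL ew hG i.2.1 i.2.2.1 i.2.2.2 σ k.1 k.2))) ?_ ?_ ?_
    · have := Nat.mul_le_mul (Nat.add_le_add a3.le a4.le) (Nat.add_le_add a5.le a6.le)
      omega
    · have b1 := Nat.mul_le_mul_right eL (show (i.2.1 : ℕ) ≤ T0 - 1 by omega)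
      have b2 := Nat.mul_le_mul_right ew (Nat.mul_le_mul (show (i.2.2.2 : ℕ) ≤ T2 - 1 by omega)
        (Nat.add_le_add a5.le a6.le))
      omega
    · rw [one_mul]
      refine mul_le_mul (le_trans ?_ hPle) (ent a2 hσ a5 a6 a3 a4) (by positivity)
        (Real.exp_pos _).le
      exact_mod_cast hpP i
  · rw [card_univ, hcard, two_mul, Real.exp_add, mul_left_comm]
    refine mul_le_mul_of_nonneg_left (le_trans (le_of_eq ?_) ok.hH) (Real.exp_pos _).le
    push_cast
    rfl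

end Pool.Agent.MP_655169_nt.FL

end
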