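import Pool.Agent.Mg.F655169b.Gb2be7b
import Pool.Agent.Mg.F655169a.G7edb1d
import Pool.Agent.Mg.F655169a.G0e1328
import Pool.Agent.Mg.F655169b.Ge9c8b0

set_option linter.all false

section

/-! A number acting by a matrix over `ℤ[θ]` gives a small integer polynomial in `θ`. -/

open Polynomial Finset

namespace Pool.Agent.MP_655169_nt.FL

namespace RepOutL

theorem root_le {D : ℕ} (N : Matrix (Fin D) (Fin D) ℂ) (B : ℝ)
    (hN : ∀ i, ∑ j, ‖N i j‖ ≤ B) (r : ℂ) (hr : N.charpoly.eval r = 0) : ‖r‖ ≤ B := by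
  rw [Matrix.eval_charpoly] at hr
  obtain ⟨v, hv0, hv⟩ := Matrix.exists_mulVec_eq_zero_iff.2 hr
  obtain ⟨i0, hi0⟩ := Function.ne_iff.1 hv0
  obtain ⟨i, -, hi⟩ := Finset.exists_max_image Finset.univ (fun i => ‖v i‖) ⟨i0, mem_univ _⟩
  have hpos : 0 < ‖v i‖ := lt_of_lt_of_le (norm_pos_iff.2 hi0) (hi i0 (mem_univ _))
  have h1 : r * v i = ∑ j, N i j * v j := by
    have h2 := congrFun hv i
    rw [Matrix.sub_mulVec, Pi.sub_apply, Pi.zero_apply, sub_eq_zero, Matrix.scalar_apply,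
      Matrix.mulVec_diagonal] at h2
    rw [h2]
    rfl
  have h3 : ‖r‖ * ‖v i‖ ≤ B * ‖v i‖ := by
    calc ‖r‖ * ‖v i‖ = ‖∑ j, N i j * v j‖ := by rw [← h1, norm_mul]
      _ ≤ ∑ j, ‖N i j * v j‖ := norm_sum_le _ _
      _ ≤ ∑ j, ‖N i j‖ * ‖v i‖ := Finset.sum_le_sum fun j _ => by
          rw [norm_mul]
          exact mul_le_mul_of_nonneg_left (hi j (mem_univ _)) (norm_nonneg _)
      _ = (∑ j, ‖N i j‖) * ‖v i‖ := by rw [Finset.sum_mul]
      _ ≤ B * ‖v i‖ := mul_le_mul_of_nonneg_right (hN i) hpos.le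
  exact le_of_mul_le_mul_right h3 hpos

theorem coeff_le (p : ℂ[X]) (hp : p.Monic) (D : ℕ) (hD : p.natDegree ≤ D) (B : ℝ) (hB : 1 ≤ B)
    (hr : ∀ r : ℂ, p.eval r = 0 → ‖r‖ ≤ B) (i : ℕ) : ‖p.coeff i‖ ≤ (2 * B) ^ D := by
  have h := Polynomial.coeff_le_of_roots_le (p := p) (f := RingHom.id ℂ) (B := B) i hp
    (IsAlgClosed.splits _) (fun z hz => by
      rw [Polynomial.map_id] at hz
      exact hr z (Polynomial.isRoot_of_mem_roots hz))
  rw [Polynomial.map_id] at h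
  refine h.trans ?_
  rw [mul_pow, mul_comm]
  refine mul_le_mul ?_ (pow_le_pow_right₀ hB ((Nat.sub_le _ _).trans hD)) (by positivity)
    (by positivity)
  have h1 : p.natDegree.choose i ≤ 2 ^ D :=
    (Nat.choose_le_two_pow _ _).trans (Nat.pow_le_pow_right (by norm_num) hD)
  exact_mod_cast h1

theorem deg_le (Q : ℤ[X]) (K : ℝ) (n : ℕ)
    (h : ∀ z : ℂ, ‖aeval z Q‖ ≤ K * (max 1 ‖z‖) ^ n) : Q.natDegree ≤ n := by
  by_contra hlt
  have hlt : n < Q.natDegree := not_le.1 hlt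
  have hinj : Function.Injective (Int.castRingHom ℝ) := (Int.castRingHom ℝ).injective_int
  have hdeg : (X ^ n : ℝ[X]).degree < (Q.map (Int.castRingHom ℝ)).degree := by
    rw [degree_X_pow, Polynomial.degree_map_eq_of_injective hinj]
    exact Polynomial.coe_lt_degree.2 hlt
  have ht := Polynomial.abs_div_tendsto_atTop_atTop_of_degree_gt _ _ hdeg
    (pow_ne_zero n X_ne_zero)
  obtain ⟨x, hx1, hx2⟩ := ((ht.eventually_gt_atTop K).and (Filter.eventually_ge_atTop 1)).exists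
  have hx0 : 0 < x := lt_of_lt_of_le one_pos hx2
  have h1 := h (x : ℂ)
  have h2 : aeval (x : ℂ) Q = ((eval x (Q.map (Int.castRingHom ℝ)) : ℝ) : ℂ) := by
    rw [eval_map, ← Complex.ofRealHom_eq_coe, ← Complex.ofRealHom_eq_coe, hom_eval₂, aeval_def]
    congr 1
  rw [h2, Complex.norm_real, Complex.norm_real, Real.norm_eq_abs, Real.norm_eq_abs,
    abs_of_pos hx0, max_eq_right hx2] at h1
  rw [eval_pow, eval_X, abs_div, abs_of_pos (pow_pos hx0 n), lt_div_iff₀ (pow_pos hx0 n)] at hx1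
  linarith

theorem trailing_map {R S : Type*} [CommRing R] [CommRing S] (f : R →+* S)
    (hf : Function.Injective f) (p : R[X]) : (p.map f).trailingCoeff = f p.trailingCoeff := by
  have h : (p.map f).natTrailingDegree = p.natTrailingDegree := by
    unfold natTrailingDegree trailingDegree
    rw [Polynomial.support_map_of_injective _ hf]
  rw [trailingCoeff, h, coeff_map, trailingCoeff]

end RepOutL

open RepOutL in
theorem repOut : RepOutStmt := by
  intro D θ b x d H hθ hb hx hH hrep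
  obtain ⟨M, hM, hxb⟩ := hrep
  have hmon : M.charpoly.Monic := Matrix.charpoly_monic M
  have hB : ∀ z : ℂ, 1 ≤ H * (max 1 ‖z‖) ^ d := fun z =>
    one_le_mul_of_one_le_of_one_le hH (one_le_pow₀ (le_max_left _ _))
  have hroot : ∀ z r : ℂ, (M.map (aeval z : ℤ[X] →ₐ[ℤ] ℂ).toRingHom).charpoly.eval r = 0 →
      ‖r‖ ≤ H * (max 1 ‖z‖) ^ d := fun z r hr =>
    root_le _ _ (fun i => hM z i) r hr
  have hall : ∀ z : ℂ, ‖aeval z M.charpoly.trailingCoeff‖ ≤
      (2 * (H * (max 1 ‖z‖) ^ d)) ^ D := fun z => by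
    have h := coeff_le _ (Matrix.charpoly_monic (M.map (aeval z : ℤ[X] →ₐ[ℤ] ℂ).toRingHom)) D
      (by rw [Matrix.charpoly_natDegree_eq_dim, Fintype.card_fin]) _ (hB z) (hroot z)
      M.charpoly.natTrailingDegree
    rw [Matrix.charpoly_map, coeff_map] at h
    exact h
  refine ⟨M.charpoly.trailingCoeff, trailingCoeff_nonzero_iff_nonzero.2 hmon.ne_zero, ?_, ?_, ?_⟩
  · refine deg_le _ ((2 * H) ^ D) _ fun z => (hall z).trans (le_of_eq ?_)
    rw [← mul_assoc, mul_pow, ← pow_mul, mul_comm d D]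
  · refine LogPow.mahlerStmt _ _ fun z hz => ?_
    have h := hall z
    rw [hz, max_self, one_pow, mul_one] at h
    rw [eval_map]
    exact h
  · have hinj : Function.Injective (aeval θ : ℤ[X] →ₐ[ℤ] ℂ).toRingHom := by
      have h1 : Transcendental ℤ θ := fun h => hθ (h.extendScalars (RingHom.injective_int _))
      exact transcendental_iff_injective.1 h1
    set N := M.map (aeval θ : ℤ[X] →ₐ[ℤ] ℂ).toRingHom with hN
    have hxr : N.charpoly.IsRoot x := by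
      rw [IsRoot, Matrix.eval_charpoly]
      refine Matrix.exists_mulVec_eq_zero_iff.1 ⟨b, hb, ?_⟩
      funext i
      rw [Matrix.sub_mulVec, Pi.sub_apply, Pi.zero_apply, sub_eq_zero, Matrix.scalar_apply,
        Matrix.mulVec_diagonal, hxb i]
      rfl
    obtain ⟨p, hp⟩ := dvd_iff_isRoot.2 hxr
    have hNm : N.charpoly.Monic := Matrix.charpoly_monic N
    have hpm : p.Monic := (monic_X_sub_C x).of_mul_monic_left (hp ▸ hNm)
    have hpd : p.natDegree ≤ D := by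
      have h1 : N.charpoly.natDegree = D := by
        rw [Matrix.charpoly_natDegree_eq_dim, Fintype.card_fin]
      rw [hp, (monic_X_sub_C x).natDegree_mul hpm] at h1
      omega
    have hc := coeff_le p hpm D hpd _ (hB θ) (fun r hr => hroot θ r (by
      rw [hp, eval_mul, hr, mul_zero])) p.natTrailingDegree
    have h1 : aeval θ M.charpoly.trailingCoeff = N.charpoly.trailingCoeff := by
      rw [hN, Matrix.charpoly_map, trailing_map _ hinj]
      rfl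
    have h2 : (X - C x : ℂ[X]).trailingCoeff = -x := by
      have h0 : (X - C x : ℂ[X]).coeff 0 = -x := by simp
      have h3 : (X - C x : ℂ[X]).natTrailingDegree = 0 :=
        natTrailingDegree_eq_zero.2 (Or.inr (by rw [h0]; exact neg_ne_zero.2 hx))
      rw [trailingCoeff, h3, h0]
    rw [h1, hp, trailingCoeff_mul, h2, norm_mul, norm_neg, mul_assoc 2]
    exact mul_le_mul_of_nonneg_left hc (norm_nonneg _)

end Pool.Agent.MP_655169_nt.FL

end

section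

/-! The box principle for simultaneous small linear forms. -/

open Polynomial Finset

namespace Pool.Agent.MP_655169_nt.FL

namespace BoxL

lemma floor_mem {x X ε : ℝ} (hε : 0 < ε) (hx : |x| ≤ X) :
    ⌊x / ε⌋ ∈ Finset.Icc (-((⌊X / ε⌋₊ : ℤ) + 1)) (⌊X / ε⌋₊ : ℤ) := by
  have h1 : X / ε < (⌊X / ε⌋₊ : ℝ) + 1 := Nat.lt_floor_add_one _
  have h2 : x / ε ≤ X / ε := div_le_div_of_nonneg_right (abs_le.1 hx).2 hε.le
  have h3 : -(X / ε) ≤ x / ε := by
    rw [← neg_div]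
    exact div_le_div_of_nonneg_right (abs_le.1 hx).1 hε.le
  rw [Finset.mem_Icc]
  constructor
  · rw [Int.le_floor]
    push_cast
    linarith
  · rw [← Int.lt_add_one_iff, Int.floor_lt]
    push_cast
    linarith

lemma close {x y ε : ℝ} (hε : 0 < ε) (h : ⌊x / ε⌋ = ⌊y / ε⌋) : |x - y| ≤ ε := by
  have h1 := Int.abs_sub_lt_one_of_floor_eq_floor h
  rw [← sub_div, abs_div, abs_of_pos hε, div_lt_one hε] at h1
  exact h1.le

end BoxL

theorem box : BoxStmt := by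
  intro ι _ M P a B ε hε hB ha hlt
  classical
  set X : ℝ := (Fintype.card ι : ℝ) * P * B with hX
  have hX0 : 0 ≤ X := by positivity
  set N : ℕ := ⌊X / ε⌋₊ with hN
  let T : Finset ℤ := Finset.Icc (-((N : ℤ) + 1)) (N : ℤ)
  have hT : T.card = 2 * N + 2 := by
    simp only [T, Int.card_Icc]
    omega
  let s : (ι → Fin (P + 1)) → ℕ → ℂ := fun ξ m => ∑ i, (((ξ i : ℕ) : ℤ) : ℂ) * a m i
  have hs : ∀ ξ, ∀ m < M, ‖s ξ m‖ ≤ X := by
    intro ξ m hm
    calc ‖s ξ m‖ ≤ ∑ i, ‖(((ξ i : ℕ) : ℤ) : ℂ) * a m i‖ := norm_sum_le _ _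
      _ ≤ ∑ _i : ι, (P : ℝ) * B := by
        refine Finset.sum_le_sum fun i _ => ?_
        rw [norm_mul]
        refine mul_le_mul ?_ (ha m hm i) (norm_nonneg _) (Nat.cast_nonneg _)
        have h1 : (ξ i : ℕ) ≤ P := Nat.lt_succ_iff.1 (ξ i).2
        rw [Int.cast_natCast, Complex.norm_natCast]
        exact_mod_cast h1
      _ = X := by
        rw [Finset.sum_const, Finset.card_univ, nsmul_eq_mul, hX, mul_assoc]
  let f : (ι → Fin (P + 1)) → (Fin M → ℤ × ℤ) := fun ξ m =>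
    (⌊(s ξ m).re / ε⌋, ⌊(s ξ m).im / ε⌋)
  have hmaps : ∀ ξ ∈ (Finset.univ : Finset (ι → Fin (P + 1))),
      f ξ ∈ Fintype.piFinset (fun _ : Fin M => T ×ˢ T) := by
    intro ξ _
    rw [Fintype.mem_piFinset]
    intro m
    rw [Finset.mem_product]
    exact ⟨BoxL.floor_mem hε ((Complex.abs_re_le_norm _).trans (hs ξ m m.2)),
      BoxL.floor_mem hε ((Complex.abs_im_le_norm _).trans (hs ξ m m.2))⟩
  have hcard : (Fintype.piFinset (fun _ : Fin M => T ×ˢ T)).card <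
      (Finset.univ : Finset (ι → Fin (P + 1))).card := by
    rw [Fintype.card_piFinset, Finset.prod_const, Finset.card_product, hT, Finset.card_univ,
      Finset.card_univ, Fintype.card_fin, Fintype.card_fun, Fintype.card_fin, ← sq, ← pow_mul]
    have h1 : ((2 * N + 2 : ℕ) : ℝ) ≤ 2 * X / ε + 3 := by
      have h2 : (N : ℝ) ≤ X / ε := Nat.floor_le (div_nonneg hX0 hε.le)
      have h3 : 2 * X / ε = 2 * (X / ε) := by ring
      push_cast
      linarith
    have h4 : ((2 * N + 2 : ℕ) : ℝ) ^ (2 * M) ≤ (2 * X / ε + 3) ^ (2 * M) :=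
      pow_le_pow_left₀ (Nat.cast_nonneg _) h1 _
    have h5 := h4.trans_lt hlt
    exact_mod_cast h5
  obtain ⟨ξ, -, ξ', -, hne, hf⟩ := Finset.exists_ne_map_eq_of_card_lt_of_maps_to hcard hmaps
  refine ⟨fun i => ((ξ i : ℕ) : ℤ) - ((ξ' i : ℕ) : ℤ), ?_, ?_, ?_⟩
  · intro h0
    apply hne
    funext i
    have h1 := congrFun h0 i
    simp only [Pi.zero_apply] at h1
    apply Fin.ext
    omega
  · intro i
    have h1 : (ξ i : ℕ) ≤ P := Nat.lt_succ_iff.1 (ξ i).2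
    have h2 : (ξ' i : ℕ) ≤ P := Nat.lt_succ_iff.1 (ξ' i).2
    show |((ξ i : ℕ) : ℤ) - ((ξ' i : ℕ) : ℤ)| ≤ (P : ℤ)
    rw [abs_le]
    constructor <;> omega
  · intro m hm
    have h1 := congrFun hf ⟨m, hm⟩
    simp only [f, Prod.mk.injEq] at h1
    have h2 := BoxL.close hε h1.1
    have h3 := BoxL.close hε h1.2
    have h4 : ∑ i, (((((ξ i : ℕ) : ℤ) - ((ξ' i : ℕ) : ℤ) : ℤ)) : ℂ) * a m i = s ξ m - s ξ' m := by
      simp only [s]
      rw [← Finset.sum_sub_distrib]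
      refine Finset.sum_congr rfl fun i _ => ?_
      rw [Int.cast_sub, sub_mul]
    rw [h4]
    have h5 := Complex.norm_le_abs_re_add_abs_im (s ξ m - s ξ' m)
    rw [Complex.sub_re, Complex.sub_im] at h5
    linarith

end Pool.Agent.MP_655169_nt.FL

end

section

open Polynomial Finset

namespace Pool.Agent.MP_655169_nt.FL

namespace SmallL

lemma coef {f : ℂ → ℂ} (hf : Differentiable ℂ f) {r E B : ℝ} (hr : 0 < r) (hE : 1 ≤ E) (hB : 0 ≤ B)
    (hm : ∀ z : ℂ, ‖z‖ = r * E → ‖f z‖ ≤ B) (n : ℕ) :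
    ‖((r ^ n / n.factorial : ℝ) : ℂ) * iteratedDeriv n f 0‖ ≤ B := by
  have h1 := Complex.norm_iteratedDeriv_le_of_forall_mem_sphere_norm_le (c := 0) (f := f) n
    (by positivity : 0 < r * E) hf.diffContOnCl fun z hz => hm z (by simpa using hz)
  rw [norm_mul, Complex.norm_real, Real.norm_of_nonneg (by positivity)]
  calc _ ≤ r ^ n / n.factorial * (n.factorial * B / (r * E) ^ n) := by gcongr
    _ = B / E ^ n := by
        rw [mul_pow]
        field_simp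
    _ ≤ B := div_le_self hB (one_le_pow₀ hE)

lemma term {μ d : ℂ} {ρ ε : ℝ} (σ n : ℕ) (hρ : 1 ≤ ρ) (hμ : ‖μ‖ ≤ ρ) (hε : 0 ≤ ε)
    (hd : ‖(((2 * Real.exp 1 * ρ) ^ n / n.factorial : ℝ) : ℂ) * d‖ ≤ ε) :
    ‖LogPow.tc μ σ n * d‖ ≤ σ.factorial * ε := by
  unfold LogPow.tc
  split_ifs with h
  · rw [norm_mul, Complex.norm_real, Real.norm_of_nonneg (by positivity), div_mul_eq_mul_div,
      div_le_iff₀ (by positivity), ← le_div_iff₀' (by positivity)] at hd
    have h2 : ‖μ‖ ^ (n - σ) ≤ ρ ^ n :=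
      (pow_le_pow_left₀ (norm_nonneg _) hμ _).trans (pow_le_pow_right₀ hρ (Nat.sub_le _ _))
    rw [norm_mul, norm_div, norm_pow, Complex.norm_natCast]
    calc _ ≤ ρ ^ n / (n - σ).factorial * (ε * n.factorial / (2 * Real.exp 1 * ρ) ^ n) := by
          gcongr
      _ = (n.factorial : ℝ) / (n - σ).factorial * (ε / 2 ^ n / Real.exp 1 ^ n) := by
          simp only [mul_pow]
          field_simp
      _ ≤ σ.factorial * Real.exp 1 ^ n * (ε / 2 ^ n / Real.exp 1 ^ n) := by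
          gcongr
          exact LogPow.TaylorL.fac σ n h
      _ = σ.factorial * (ε / 2 ^ n) := by field_simp
      _ ≤ σ.factorial * ε := by
          gcongr
          exact div_le_self hε (one_le_pow₀ one_le_two)
  · rw [zero_mul, norm_zero]
    positivity

end SmallL

theorem small (h : BoxStmt) : SmallStmt := by
  intro ι _ f M P S0 ρ E B ε hf hρ hE hε hB hm hbox
  obtain ⟨p, hp0, hp, hs⟩ := h ι M P
    (fun m i => (((2 * Real.exp 1 * ρ) ^ m / m.factorial : ℝ) : ℂ) * iteratedDeriv m (f i) 0) B ε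
    hε hB (fun m _ i => SmallL.coef (hf i) (by positivity) hE hB (hm i) m) hbox
  refine ⟨p, hp0, hp, fun μ hμ σ hσ => ?_⟩
  have hF : Differentiable ℂ fun z => ∑ i, (p i : ℂ) * f i z :=
    Differentiable.fun_sum fun i _ => (hf i).const_mul _
  have hlin : ∀ n, iteratedDeriv n (fun z => ∑ i, (p i : ℂ) * f i z) 0 =
      ∑ i, (p i : ℂ) * iteratedDeriv n (f i) 0 := by
    intro n
    rw [iteratedDeriv_fun_sum fun i _ => (((hf i).const_mul _).contDiff).contDiffAt]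
    simp only [iteratedDeriv_const_mul_field]
  have hbd : ∀ z : ℂ, ‖z‖ = 2 * Real.exp 1 * ρ * E →
      ‖∑ i, (p i : ℂ) * f i z‖ ≤ (Fintype.card ι : ℝ) * P * B := by
    intro z hz
    refine (norm_sum_le _ _).trans ?_
    rw [mul_assoc, ← nsmul_eq_mul, ← card_univ]
    refine sum_le_card_nsmul _ _ _ fun i _ => ?_
    rw [norm_mul, Complex.norm_intCast]
    exact mul_le_mul (by exact_mod_cast hp i) (hm i z hz) (norm_nonneg _) (Nat.cast_nonneg _)
  have h1 := (LogPow.taylorStmt _ μ σ M ρ E _ hF hρ hE hμ hbd).2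
  have h2 : ‖∑ n ∈ range M, LogPow.tc μ σ n *
      iteratedDeriv n (fun z => ∑ i, (p i : ℂ) * f i z) 0‖ ≤ M * (σ.factorial * (2 * ε)) := by
    refine (norm_sum_le _ _).trans ?_
    conv_rhs => rw [← nsmul_eq_mul, ← card_range M]
    refine sum_le_card_nsmul _ _ _ fun n hn => ?_
    refine SmallL.term σ n hρ hμ (by positivity) ?_
    rw [hlin, mul_sum]
    refine le_of_eq_of_le ?_ (hs n (mem_range.1 hn))
    congr 1
    exact sum_congr rfl fun i _ => by ring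
  have h3 : (σ.factorial : ℝ) ≤ S0.factorial := by exact_mod_cast Nat.factorial_le hσ
  have h4 := norm_sub_norm_le (iteratedDeriv σ (fun z => ∑ i, (p i : ℂ) * f i z) μ)
    (∑ n ∈ range M, LogPow.tc μ σ n * iteratedDeriv n (fun z => ∑ i, (p i : ℂ) * f i z) 0)
  calc _ ≤ σ.factorial * (2 * M * ε + 2 * ((Fintype.card ι : ℝ) * P * B) * (E⁻¹) ^ M) := by
        linarith
    _ ≤ _ := by gcongr

end Pool.Agent.MP_655169_nt.FL

end

section

open Polynomial NumberField Finset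

namespace LogPow

namespace DlZeroL

theorem gen (Ω : ℝ) (l : List ℂ) : ∀ (f : ℂ → ℂ) (A : ℕ → ℝ), Differentiable ℂ f →
    (∀ x ∈ l, ‖x‖ ≤ Ω) → (∀ j, ‖iteratedDeriv j f 0‖ ≤ A j) →
    ‖Dl l f 0‖ ≤ ∑ i ∈ range (l.length + 1), (l.length.choose i : ℝ) *
      (A i * Ω ^ (l.length - i)) := by
  induction l with
  | nil =>
    intro f A _ _ hA
    simpa [Dl] using hA 0
  | cons ω l ih =>
    intro f A hf hl hA
    have hω := hl ω List.mem_cons_self
    have hd : Differentiable ℂ (Dop ω f) := hf.deriv.sub (hf.const_mul ω)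
    have h1 := ih (Dop ω f) (fun j => A (j + 1) + Ω * A j) hd
      (fun x hx => hl x (List.mem_cons_of_mem _ hx)) (fun j => by
        have e : iteratedDeriv j (Dop ω f) 0 =
            iteratedDeriv (j + 1) f 0 - ω * iteratedDeriv j f 0 := by
          have c1 : ContDiffAt ℂ j (deriv f) 0 := hf.deriv.contDiff.contDiffAt
          have c2 : ContDiffAt ℂ j f 0 := hf.contDiff.contDiffAt
          rw [iteratedDeriv_succ', ← iteratedDeriv_const_mul ω c2]
          exact iteratedDeriv_sub c1 (contDiffAt_const.mul c2)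
        rw [e]
        refine (norm_sub_le _ _).trans (add_le_add (hA _) ?_)
        rw [norm_mul]
        exact mul_le_mul hω (hA j) (norm_nonneg _) ((norm_nonneg _).trans hω))
    refine h1.trans (le_of_eq ?_)
    rw [List.length_cons, sum_choose_succ_mul (fun i n => A i * Ω ^ n), ← sum_add_distrib]
    refine sum_congr rfl fun i hi => ?_
    have : l.length + 1 - i = l.length - i + 1 := by
      have := mem_range.1 hi
      omega
    rw [this, pow_succ]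
    ring

end DlZeroL

theorem dlZero : DlZeroStmt := by
  intro f l Ω ρ m hf hΩ hρ hl hm
  have m0 : 0 ≤ m := (norm_nonneg _).trans (hm ρ (by simp [abs_of_pos hρ]))
  refine (DlZeroL.gen Ω l f (fun j => j.factorial * m / ρ ^ j) hf hl fun j =>
    Complex.norm_iteratedDeriv_le_of_forall_mem_sphere_norm_le j hρ hf.diffContOnCl
      fun z hz => hm z (by simpa using hz)).trans ?_
  set k := l.length
  have e : ∑ i ∈ range (k + 1), (k.choose i : ℝ) * (i.factorial * m / ρ ^ i * Ω ^ (k - i)) =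
      m * k.factorial / ρ ^ k * ∑ i ∈ range (k + 1), (Ω * ρ) ^ i / i.factorial := by
    rw [← sum_flip (fun i => (Ω * ρ) ^ i / (i.factorial : ℝ)), mul_sum]
    refine sum_congr rfl fun i hi => ?_
    have hik : i ≤ k := Nat.lt_succ_iff.1 (mem_range.1 hi)
    have e1 : (k.factorial : ℝ) = k.choose i * i.factorial * (k - i).factorial := by
      exact_mod_cast (Nat.choose_mul_factorial_mul_factorial hik).symm
    have e2 : ρ ^ k = ρ ^ i * ρ ^ (k - i) := by rw [← pow_add, Nat.add_sub_cancel' hik]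
    have e3 : ((k - i).factorial : ℝ) ≠ 0 := by positivity
    rw [e1, e2, mul_pow]
    field_simp
  rw [e]
  exact mul_le_mul_of_nonneg_left (Real.sum_le_exp_of_nonneg (by positivity) _) (by positivity)

end LogPow

end

section

/-! The quantitative zero lemma for points at mutual distance at least `1 / c`. -/

open Polynomial Finset

namespace LogPow

theorem qz2 (ι κ : Type) (s : Finset ι) (u : Finset κ) (ω : ι → ℂ) (T : ι → ℕ) (p : ι → ℂ[X])
    (μ : κ → ℂ) (Sg : κ → ℕ) (F : ℕ) (c η Ω ρ G ε : ℝ) (hc : 1 ≤ c)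
    (h1 : ∀ i ∈ s, (p i).degree < T i) (h2 : 0 < η) (h3 : η ≤ 1)
    (h4 : ∀ i ∈ s, ∀ j ∈ s, i ≠ j → η ≤ ‖ω i - ω j‖) (h5 : 0 ≤ Ω) (h6 : ∀ i ∈ s, ‖ω i‖ ≤ Ω)
    (h7 : 1 ≤ ρ) (h8 : ∀ k ∈ u, ‖μ k‖ ≤ ρ) (h9 : ∀ k ∈ u, ∀ l ∈ u, k ≠ l → 1 ≤ c * ‖μ k - μ l‖)
    (h10 : ∀ k ∈ u, Sg k ≤ F) (h11 : 3 ≤ G)
    (h12 : (4 / G) ^ (∑ k ∈ u, Sg k) * ((∑ i ∈ s, T i : ℕ) * G ^ (∑ i ∈ s, T i) *
      Real.exp (Ω * ρ * (1 + G))) ≤ 1 / 2) (h13 : 0 ≤ ε)
    (h14 : ∀ k ∈ u, ∀ σ < Sg k, ‖iteratedDeriv σ (ep s ω p) (μ k)‖ ≤ ε) :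
    ∀ i ∈ s, ∀ τ : ℕ, ‖(p i).coeff τ‖ ≤ c ^ τ *
      ((2 / (η / c)) ^ (∑ i ∈ s, T i) * ((∑ i ∈ s, T i : ℕ) : ℝ) ^ (∑ i ∈ s, T i) *
        Real.exp (Ω * ρ) * (4 * ((∑ k ∈ u, Sg k : ℕ) *
          ((F + 1) * ((G + 1) * (c * ρ))) ^ (∑ k ∈ u, Sg k) * ε))) := by
  intro i hi τ
  have hc0 : 0 < c := by linarith
  have hcC : (c : ℂ) ≠ 0 := by exact_mod_cast hc0.ne'
  have hn : ‖(c : ℂ)‖ = c := by rw [Complex.norm_real, Real.norm_of_nonneg hc0.le]
  have hni : ‖(c : ℂ)⁻¹‖ = c⁻¹ := by rw [norm_inv, hn]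
  have hΩ : Ω / c * (c * ρ) = Ω * ρ := by field_simp
  have he : ep s (fun i => ω i * (c : ℂ)⁻¹) (fun i => (p i).comp (C (c : ℂ)⁻¹ * X)) =
      fun z => ep s ω p ((c : ℂ)⁻¹ * z) := by
    funext z
    unfold ep
    refine sum_congr rfl fun i _ => ?_
    rw [eval_comp, eval_mul, eval_C, eval_X, mul_assoc]
  have hd : ContDiff ℂ ⊤ (ep s ω p) := by
    have : Differentiable ℂ (ep s ω p) := by
      unfold ep
      refine Differentiable.fun_sum fun i _ => (p i).differentiable.mul ?_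
      fun_prop
    exact this.contDiff
  have key := qzStmt (epGrow dlZero growStmt) (epCoeff dlZero) newtonStmt ι κ s u
    (fun i => ω i * (c : ℂ)⁻¹) T (fun i => (p i).comp (C (c : ℂ)⁻¹ * X)) (fun k => c * μ k) Sg F
    (η / c) (Ω / c) (c * ρ) G ε
    (fun i hi => by
      rw [degree_lt_iff_coeff_zero]
      intro m hm
      rw [comp_C_mul_X_coeff, (degree_lt_iff_coeff_zero _ _).1 (h1 i hi) m hm, zero_mul])
    (by positivity) ((div_le_self h2.le hc).trans h3)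
    (fun i hi j hj hij => by
      rw [← sub_mul, norm_mul, hni, ← div_eq_mul_inv]
      exact div_le_div_of_nonneg_right (h4 i hi j hj hij) hc0.le)
    (by positivity)
    (fun i hi => by
      rw [norm_mul, hni, ← div_eq_mul_inv]
      exact div_le_div_of_nonneg_right (h6 i hi) hc0.le)
    (one_le_mul_of_one_le_of_one_le hc h7)
    (fun k hk => by
      rw [norm_mul, hn]
      exact mul_le_mul_of_nonneg_left (h8 k hk) hc0.le)
    (fun k hk l hl hkl => by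
      rw [← mul_sub, norm_mul, hn]
      exact h9 k hk l hl hkl)
    h10 h11 (by rw [hΩ]; exact h12) h13
    (fun k hk σ hσ => by
      rw [he, iteratedDeriv_comp_const_mul (hd.of_le le_top)]
      simp only
      rw [inv_mul_cancel_left₀ hcC, norm_mul, norm_pow, hni]
      exact (mul_le_of_le_one_left (norm_nonneg _)
        (pow_le_one₀ (by positivity) (inv_le_one_of_one_le₀ hc))).trans (h14 k hk σ hσ))
    i hi τ
  rw [comp_C_mul_X_coeff, norm_mul, norm_pow, hni, hΩ, inv_pow, ← div_eq_mul_inv,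
    div_le_iff₀' (by positivity)] at key
  exact key

end LogPow

end

section

open Polynomial Finset

namespace Pool.Agent.MP_655169_nt.FL

namespace RankL

theorem gap {ι : Type} [Fintype ι] (ω : ι → ℂ) (h : Function.Injective ω) :
    ∃ η : ℝ, 0 < η ∧ η ≤ 1 ∧ ∀ i j, i ≠ j → η ≤ ‖ω i - ω j‖ := by
  have h1 : ∀ᶠ η in nhdsWithin (0 : ℝ) (Set.Ioi 0),
      ∀ x : ι × ι, x.1 ≠ x.2 → η ≤ ‖ω x.1 - ω x.2‖ := by
    refine Filter.eventually_all.2 fun x => ?_
    by_cases hx : x.1 = x.2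
    · exact Filter.Eventually.of_forall fun _ h => absurd hx h
    · have : 0 < ‖ω x.1 - ω x.2‖ := norm_pos_iff.2 (sub_ne_zero.2 fun e => hx (h e))
      exact ((eventually_le_nhds this).filter_mono nhdsWithin_le_nhds).mono fun _ h _ => h
  have h2 : ∀ᶠ η in nhdsWithin (0 : ℝ) (Set.Ioi 0), η ≤ 1 :=
    (eventually_le_nhds one_pos).filter_mono nhdsWithin_le_nhds
  obtain ⟨η, ⟨a, b⟩, c⟩ := ((h1.and h2).and self_mem_nhdsWithin).exists
  exact ⟨η, c, b, fun i j hij => a (i, j) hij⟩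

theorem num (L N : ℕ) (x : ℝ) (hx : 0 ≤ x) (h : 4 * (L : ℝ) + 13 * x + 1 ≤ N) :
    (4 / 8 : ℝ) ^ N * (L * 8 ^ L * Real.exp (x * (1 + 8))) ≤ 1 / 2 := by
  have l2 := Real.log_two_gt_d9
  have e : ∀ n : ℕ, (2 : ℝ) ^ n = Real.exp (n * Real.log 2) := fun n => by
    rw [Real.exp_nat_mul, Real.exp_log two_pos]
  have a1 : (L : ℝ) ≤ 2 ^ L := by exact_mod_cast Nat.lt_two_pow_self.le
  have a2 : (L : ℝ) * 8 ^ L * Real.exp (x * (1 + 8)) * 2 ≤ 2 ^ N := by
    calc (L : ℝ) * 8 ^ L * Real.exp (x * (1 + 8)) * 2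
        ≤ 2 ^ L * 8 ^ L * Real.exp (x * (1 + 8)) * 2 := by gcongr
      _ = 2 ^ (4 * L + 1) * Real.exp (x * (1 + 8)) := by
        rw [pow_succ, pow_mul, show (2 : ℝ) ^ 4 = 2 * 8 by norm_num, mul_pow]
        ring
      _ ≤ 2 ^ N := by
        rw [e, e, ← Real.exp_add, Real.exp_le_exp]
        push_cast
        nlinarith
  rw [show (4 / 8 : ℝ) = 2⁻¹ by norm_num, inv_pow, inv_mul_le_iff₀ (by positivity), mul_one_div,
    le_div_iff₀ two_pos]
  exact a2

end RankL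

theorem rank : RankStmt := by
  intro ι κ _ _ ω y T0 S0 Ω ρ c hω hy hΩ h1 hρ h2 h3 h4
  obtain ⟨η, e0, e1, e2⟩ := RankL.gap ω hω
  obtain ⟨δ, d0, d1, d2⟩ := RankL.gap y hy
  have key := LogPow.qz2 ι κ univ univ ω (fun _ => T0)
    (fun i => ∑ τ : Fin T0, C (c i τ) * X ^ (τ : ℕ)) y (fun _ => S0) S0 δ⁻¹ η Ω ρ 8 0
    (one_le_inv₀ d0 |>.2 d1) (fun i _ => degree_sum_fin_lt _) e0 e1
    (fun i _ j _ => e2 i j) hΩ (fun i _ => h1 i) hρ (fun k _ => h2 k)
    (fun k _ l _ h => by rw [le_inv_mul_iff₀ d0, mul_one]; exact d2 k l h)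
    (fun _ _ => le_rfl) (by norm_num)
    (RankL.num _ _ _ (by positivity) (by simpa using h3)) le_rfl fun k _ σ hσ => by
      rw [norm_le_zero_iff, ← h4 k σ hσ]
      congr 1
      funext z
      simp only [LogPow.ep, eval_finsetSum, eval_mul, eval_C, eval_pow, eval_X, sum_mul,
        mul_assoc]
  funext i τ
  have h5 := key i (mem_univ i) τ
  simp only [mul_zero, norm_le_zero_iff, finsetSum_coeff, coeff_C_mul_X_pow] at h5
  rw [sum_eq_single τ (fun b _ hb => if_neg fun e => hb (Fin.ext e.symm)) (by simp),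
    if_pos rfl] at h5
  exact h5

end Pool.Agent.MP_655169_nt.FL

end

section

open Polynomial Finset

namespace Pool.Agent.MP_655169_nt.FL

namespace IndL

/-- The bijection sending `0` to `none`. -/
def e₀ : Fin 2 ≃ Option Unit where
  toFun i := if i = 0 then none else some ()
  invFun o := o.elim 0 fun _ => 1
  left_inv i := by fin_cases i <;> rfl
  right_inv o := by rcases o with _ | _ <;> rfl

/-- The bijection sending `1` to `none`. -/
def e₁ : Fin 2 ≃ Option Unit where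
  toFun i := if i = 0 then some () else none
  invFun o := o.elim 1 fun _ => 0
  left_inv i := by fin_cases i <;> rfl
  right_inv o := by rcases o with _ | _ <;> rfl

theorem opt (x w : ℂ) (hw : Transcendental ℚ w)
    (hx : ¬ IsAlgebraic (Algebra.adjoin ℚ ({w} : Set ℂ)) x) :
    AlgebraicIndependent ℚ (fun o : Option Unit => o.elim x (fun _ => w)) := by
  refine AlgebraicIndependent.option_iff.2 ⟨algebraicIndependent_unique_type_iff.2 hw, ?_⟩
  rw [Set.range_const]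
  exact hx

theorem alg_left (x w : ℂ) (hw : Transcendental ℚ w) (h : ¬ AlgebraicIndependent ℚ ![x, w]) :
    IsAlgebraic (Algebra.adjoin ℚ ({w} : Set ℂ)) x := by
  by_contra hx
  refine h ((algebraicIndependent_equiv' e₀ ?_).2 (opt x w hw hx))
  funext i
  fin_cases i <;> rfl

theorem alg_right (x w : ℂ) (hw : Transcendental ℚ w) (h : ¬ AlgebraicIndependent ℚ ![w, x]) :
    IsAlgebraic (Algebra.adjoin ℚ ({w} : Set ℂ)) x := by
  by_contra hx
  refine h ((algebraicIndependent_equiv' e₁ ?_).2 (opt x w hw hx))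
  funext i
  fin_cases i <;> rfl

end IndL

theorem ind (h1 : GSStmt) (h2 : BWStmt) : IndStmt := by
  intro β L₁ L₂ hβ hr hL₁ hL₂ hq ha₁ ha₂ hd₁ hd₂
  have t₁ := h1 β L₁ hβ hr hL₁ ha₁
  have t₂ := h1 β L₂ hβ hr hL₂ ha₂
  by_contra hd
  have a₁ := IndL.alg_left _ _ t₁ hd₁
  have a₂ := IndL.alg_left _ _ t₂ hd₂
  have a₃ := IndL.alg_right _ _ t₁ hd
  have a₄ : IsAlgebraic (Algebra.adjoin ℚ ({Complex.exp (β * L₁)} : Set ℂ)) L₂ := by
    refine IsAlgebraic.adjoin_of_forall_isAlgebraic ?_ a₂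
    rintro x ⟨hx, -⟩
    rw [Set.mem_singleton_iff.1 hx]
    exact a₃
  have a₅ : IsAlgebraic (Algebra.adjoin ℚ ({Complex.exp (β * L₁)} : Set ℂ))
      (Complex.exp (β * L₁)) :=
    isAlgebraic_algebraMap (⟨_, Algebra.subset_adjoin (Set.mem_singleton _)⟩ :
      Algebra.adjoin ℚ ({Complex.exp (β * L₁)} : Set ℂ))
  refine h2 β L₁ L₂ _ hβ hr ?_ ha₁ ha₂ t₁ a₁ a₄ a₅ a₃
  intro s t hst
  by_cases ht : t = 0
  · subst ht
    refine ⟨?_, rfl⟩
    have : (s : ℂ) * L₁ = 0 := by simpa using hst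
    exact_mod_cast (mul_eq_zero.1 this).resolve_right hL₁
  · exfalso
    have ht' : (t : ℂ) ≠ 0 := by exact_mod_cast ht
    refine hq (-(s : ℚ) / t) ?_
    push_cast
    field_simp
    linear_combination hst

end Pool.Agent.MP_655169_nt.FL

end

section

/-! Hermite-Lindemann, Gel'fond-Schneider and Brownawell-Waldschmidt from one construction. -/

open Polynomial Finset

namespace Pool.Agent.MP_655169_nt.FL

namespace FinalL

theorem mid (h1 : CoreStmt) (h2 : NumStmt) {θ : ℂ} (hθ : Transcendental ℚ θ) (S : Sys θ)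
    {β L₁ L₂ : ℂ} {eL ew : ℕ} (hg : Gen S β L₁ L₂ eL ew) (u : ℝ) (hu : 2 ≤ u) :
    ∃ w : ℕ, 1 ≤ w ∧ ∃ k₀ : ℕ, ∀ k, k₀ ≤ k → ∀ T0 T1 T2 S1 S2 n0 n : ℕ,
      Shape w k T0 T1 T2 S1 S2 n0 → Inj β L₁ L₂ T1 T2 S1 S2 →
      n0 - 1 + (T0 - 1) * eL + (T2 - 1) * (S1 + S2) * ew ≤ n → (n : ℝ) ≤ hh w k →
      ∃ Q : ℤ[X], Q ≠ 0 ∧ (Q.natDegree : ℝ) ≤ S.c * n ∧ MM Q ≤ Real.exp (5 * S.c * hh w k) ∧
        ‖aeval θ Q‖ ≤ Real.exp (5 * S.c * hh w k - u * n0 * hh w k) := by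
  have n1 := norm_nonneg θ
  have n2 := norm_nonneg β
  have n3 := norm_nonneg L₁
  have n4 := norm_nonneg L₂
  obtain ⟨w, hw, k₀, hk⟩ := h2 (1 + ‖θ‖ + ‖β‖ + ‖L₁‖ + ‖L₂‖) u (by linarith) hu
  refine ⟨w, hw, k₀, fun k hk' T0 T1 T2 S1 S2 n0 n hs hi hn hn' => ?_⟩
  obtain ⟨M, hM⟩ := hk k hk' T0 T1 T2 S1 S2 n0 hs
  obtain ⟨x, hx, hsz, hsm⟩ := h1 θ S β L₁ L₂ eL ew _ _ _ _ _ _ _ _ _ _ _ _ hθ hg hM (by linarith)
    (by linarith) (by linarith) (by linarith) hi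
  have hm := hM.hm
  have hT : (1 : ℝ) ≤ T0 := by exact_mod_cast hM.hT0
  have hh1 : 1 ≤ hh w k := by
    have : (0 : ℝ) ≤ ((5 * (2 ^ k) ^ 2 * w : ℕ) : ℝ) := Nat.cast_nonneg _
    have : (0 : ℝ) ≤ ((T1 : ℝ) + T2) * (S1 + S2) := by positivity
    linarith
  obtain ⟨Q, hQ, hd, hmm, hv⟩ := S.out hx (by linarith) (S.mono hsz le_rfl hn le_rfl)
  have hc := S.hc
  have hb : S.c * (((5 * (2 ^ k) ^ 2 * w + T0 + (T1 + T2) * (S1 + S2) : ℕ) : ℝ) + n +
      2 * hh w k + 1) ≤ 5 * S.c * hh w k := by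
    have : ((5 * (2 ^ k) ^ 2 * w + T0 + (T1 + T2) * (S1 + S2) : ℕ) : ℝ) ≤ hh w k := by
      refine le_trans (le_of_eq ?_) hm
      push_cast; ring
    nlinarith
  refine ⟨Q, hQ, hd, hmm.trans (Real.exp_le_exp.2 hb), hv.trans ?_⟩
  rw [sub_eq_neg_add, Real.exp_add]
  exact mul_le_mul hsm (Real.exp_le_exp.2 hb) (Real.exp_pos _).le (Real.exp_pos _).le

theorem hh_pos {w k : ℕ} (hw : 1 ≤ w) (hk : 1 ≤ k) : 0 < hh w k := by
  unfold hh
  have : (0 : ℝ) < w := by exact_mod_cast hw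
  have : (0 : ℝ) < k := by exact_mod_cast hk
  positivity

theorem deg0 {θ : ℂ} {c h : ℝ} (hc : 1 ≤ c) (hh : 0 < h) {Q : ℤ[X]} (hQ : Q ≠ 0)
    (hd : (Q.natDegree : ℝ) ≤ c * (0 : ℕ))
    (hv : ‖aeval θ Q‖ ≤ Real.exp (5 * c * h - 6 * c * (1 : ℕ) * h)) : False := by
  have h0 : Q.natDegree = 0 := by
    have : (Q.natDegree : ℝ) ≤ 0 := by simpa using hd
    exact_mod_cast le_antisymm this (Nat.cast_nonneg _)
  rw [eq_C_of_natDegree_eq_zero h0] at hv hQ
  have hz : Q.coeff 0 ≠ 0 := fun h => hQ (by rw [h, C_0])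
  have h1 : (1 : ℝ) ≤ ‖aeval θ (C (Q.coeff 0))‖ := by
    rw [aeval_C, eq_intCast, Complex.norm_intCast]
    exact_mod_cast Int.one_le_abs hz
  have h2 : Real.exp (5 * c * h - 6 * c * (1 : ℕ) * h) < 1 := by
    rw [Real.exp_lt_one_iff]
    push_cast
    nlinarith
  linarith

theorem self_alg (θ : ℂ) : IsAlgebraic (Algebra.adjoin ℚ ({θ} : Set ℂ)) θ :=
  isAlgebraic_algebraMap (R := Algebra.adjoin ℚ ({θ} : Set ℂ))
    ⟨θ, Algebra.self_mem_adjoin_singleton ℚ θ⟩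

theorem ex_tr : ∃ θ : ℂ, Transcendental ℚ θ := by
  by_contra h
  have h' : ∀ θ : ℂ, IsAlgebraic ℚ θ := fun θ => by
    by_contra h2
    exact h ⟨θ, h2⟩
  have := Algebraic.countable ℚ ℂ
  rw [show {x : ℂ | IsAlgebraic ℚ x} = Set.univ from Set.eq_univ_of_forall h'] at this
  exact not_countable_complex this

theorem fr_inj {β : ℂ} (hirr : ∀ r : ℚ, β ≠ (r : ℂ)) {j k j' k' : ℕ}
    (h : (j : ℂ) + k * β = (j' : ℂ) + k' * β) : j = j' ∧ k = k' := by
  by_cases hk : k = k'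
  · subst hk
    exact ⟨by exact_mod_cast add_right_cancel h, rfl⟩
  · exfalso
    have hk' : (k : ℂ) - k' ≠ 0 := sub_ne_zero.2 (by exact_mod_cast hk)
    refine hirr (((j' : ℚ) - j) / ((k : ℚ) - k')) ?_
    push_cast
    rw [eq_div_iff hk']
    linear_combination h

theorem pt_inj {L : ℂ} (hL : L ≠ 0) {s t s' t' : ℕ} (ht : t < 1) (ht' : t' < 1)
    (h : (s : ℂ) * L + t * 0 = (s' : ℂ) * L + t' * 0) : s = s' ∧ t = t' := by
  refine ⟨?_, by omega⟩
  simp only [mul_zero, add_zero] at h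
  exact_mod_cast mul_right_cancel₀ hL h

end FinalL

open FinalL

theorem hl (h0 : SysStmt) (h1 : CoreStmt) (h2 : NumStmt) : HLStmt := by
  classical
  intro L hL ha hLa
  obtain ⟨θ, hθ⟩ := ex_tr
  obtain ⟨S, hA, hB⟩ := h0 θ {L, Complex.exp L, 0, 1} {θ} hθ
    (by simp [hLa, ha, isAlgebraic_zero, isAlgebraic_one]) (by simp [self_alg])
  have hg : Gen S 0 L 0 0 0 :=
    ⟨hB _ (by simp), hA _ (by simp), hA _ (by simp), hA _ (by simp), hA _ (by simp),
      hA _ (by simp), hA _ (by simp), hA _ (by simp)⟩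
  have hc := S.hc
  obtain ⟨w, hw, k₀, hk⟩ := mid h1 h2 hθ S hg (6 * S.c) (by linarith)
  have ha1 : 1 ≤ 2 ^ (k₀ + 1) := Nat.one_le_two_pow
  obtain ⟨Q, hQ, hd, -, hv⟩ := hk (k₀ + 1) (by omega) ((2 ^ (k₀ + 1)) ^ 2 * w) w 1 w 1 1 0
    (by
      generalize hk : k₀ + 1 = k at ha1 ⊢
      refine ⟨?_, hw, le_rfl, hw, le_rfl, le_rfl, by ring, rfl, ?_, le_rfl, ?_, ?_⟩ <;>
        generalize 2 ^ k = a at ha1 ⊢
      · exact Nat.mul_pos (Nat.pow_pos ha1) hw
      · exact Nat.mul_pos (Nat.pow_pos ha1) hw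
      · calc (w + 1) * (w + 1) ≤ (2 * w) * (2 * w) := Nat.mul_le_mul (by omega) (by omega)
          _ = 4 * 1 ^ 2 * (w ^ 2 * 1) := by ring
          _ ≤ 4 * a ^ 2 * (w ^ 2 * w) := by gcongr
          _ = _ := by ring
      · calc (w + 1) * (w + 1) ≤ (2 * w) * (2 * w) := Nat.mul_le_mul (by omega) (by omega)
          _ = 4 * 1 * w ^ 2 * 1 := by ring
          _ ≤ _ := by gcongr)
    ⟨fun j k j' k' _ hk _ hk' h => ⟨by simpa using h, by omega⟩,
      fun s t s' t' _ ht _ ht' h => pt_inj hL ht ht' h⟩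
    (by simp) (by simpa using (hh_pos hw (by omega)).le)
  exact deg0 hc (hh_pos hw (by omega)) hQ hd hv

theorem gs (h0 : SysStmt) (h1 : CoreStmt) (h2 : NumStmt) : GSStmt := by
  classical
  intro β L hβ hirr hL ha hwa
  have hθ := hl h0 h1 h2 L hL ha
  obtain ⟨S, hA, hB⟩ := h0 L {β, Complex.exp L, Complex.exp (β * L), 0, 1} {L} hθ
    (by simp [hβ, ha, hwa, isAlgebraic_zero, isAlgebraic_one]) (by simp [self_alg])
  have hg : Gen S β L 0 1 0 :=
    ⟨hB _ (by simp), hA _ (by simp), hA _ (by simp), hA _ (by simp),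
      S.mono (hB _ (by simp)) (by omega) le_rfl le_rfl,
      S.mono (hA _ (by simp)) le_rfl (by omega) le_rfl, hA _ (by simp), hA _ (by simp)⟩
  have hc := S.hc
  obtain ⟨w, hw, k₀, hk⟩ := mid h1 h2 hθ S hg (6 * S.c) (by linarith)
  have ha1 : 1 ≤ 2 ^ (k₀ + 1) := Nat.one_le_two_pow
  obtain ⟨Q, hQ, hd, -, hv⟩ := hk (k₀ + 1) (by omega) 1 (2 ^ (k₀ + 1) * w) (2 ^ (k₀ + 1) * w)
    w 1 1 0
    (by
      generalize hk : k₀ + 1 = k at ha1 ⊢
      refine ⟨le_rfl, ?_, ?_, hw, le_rfl, le_rfl, by ring, rfl, ?_, ?_, ?_, ?_⟩ <;>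
        generalize 2 ^ k = a at ha1 ⊢
      · exact Nat.mul_pos ha1 hw
      · exact Nat.mul_pos ha1 hw
      · exact Nat.mul_pos (Nat.pow_pos ha1) hw
      · exact Nat.mul_pos (Nat.pow_pos ha1) hw
      · calc (a * w + a * w) * (w + 1) ≤ (a * w + a * w) * (2 * w) :=
            Nat.mul_le_mul le_rfl (by omega)
          _ = 4 * (a * 1) * (w ^ 2 * 1) := by ring
          _ ≤ 4 * (a * a) * (w ^ 2 * w) := by gcongr
          _ = _ := by ring
      · calc (a * w + a * w) * (w + 1) ≤ (a * w + a * w) * (2 * w) :=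
            Nat.mul_le_mul le_rfl (by omega)
          _ = _ := by ring)
    ⟨fun j k j' k' _ _ _ _ h => fr_inj hirr h, fun s t s' t' _ ht _ ht' h => pt_inj hL ht ht' h⟩
    (by simp) (by simpa using (hh_pos hw (by omega)).le)
  exact deg0 hc (hh_pos hw (by omega)) hQ hd hv

theorem bw (h0 : SysStmt) (h1 : CoreStmt) (h2 : NumStmt) (h3 : CritStmt) : BWStmt := by
  classical
  intro β L₁ L₂ θ hβ hirr hind ha₁ ha₂ hθ hl₁ hl₂ hw₁ hw₂
  obtain ⟨S, hA, hB⟩ := h0 θ {β, Complex.exp L₁, Complex.exp L₂}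
    {θ, L₁, L₂, Complex.exp (β * L₁), Complex.exp (β * L₂)} hθ
    (by simp [hβ, ha₁, ha₂]) (by simp [self_alg, hl₁, hl₂, hw₁, hw₂])
  have hg : Gen S β L₁ L₂ 1 1 :=
    ⟨hB _ (by simp), hA _ (by simp), hA _ (by simp), hA _ (by simp),
      S.mono (hB _ (by simp)) (by omega) le_rfl le_rfl,
      S.mono (hB _ (by simp)) (by omega) le_rfl le_rfl,
      S.mono (hB _ (by simp)) (by omega) le_rfl le_rfl,
      S.mono (hB _ (by simp)) (by omega) le_rfl le_rfl⟩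
  have hc := S.hc
  obtain ⟨w, hw, k₀, hk⟩ := mid h1 h2 hθ S hg (1605 * S.c ^ 2) (by nlinarith)
  have hw' : (1 : ℝ) ≤ w := by exact_mod_cast hw
  have hN : ∀ k : ℕ, (1 : ℝ) ≤ ((2 : ℝ) ^ k) ^ 2 * w := fun k =>
    one_le_mul_of_one_le_of_one_le (one_le_pow₀ (one_le_pow₀ one_le_two)) hw'
  refine h3 θ 8 (fun k => S.c * (4 * (((2 : ℝ) ^ k) ^ 2 * w))) (fun k => 5 * S.c * hh w k) (k₀ + 1)
    hθ (by norm_num) (fun k hk' => ?_) ?_ (fun k hk' => ?_)
  · have hk1 : (1 : ℝ) ≤ k := by exact_mod_cast (by omega : 1 ≤ k)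
    have e1 : ((2 : ℝ) ^ (k + 1)) ^ 2 * w = 4 * (((2 : ℝ) ^ k) ^ 2 * w) := by ring
    have e2 : hh w k = 100 * (((2 : ℝ) ^ k) ^ 2 * w) * k := by unfold hh; ring
    have e3 : hh w (k + 1) = 400 * (((2 : ℝ) ^ k) ^ 2 * w) * (k + 1) := by
      unfold hh; push_cast; ring
    have := hN k
    simp only [e1, e2, e3]
    generalize ((2 : ℝ) ^ k) ^ 2 * w = N at this ⊢
    have hcN : 1 ≤ S.c * N := one_le_mul_of_one_le_of_one_le hc this
    have hcNk : S.c * N ≤ S.c * N * k := le_mul_of_one_le_right (by linarith) hk1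
    refine ⟨?_, ?_, ?_, ?_, ?_, ?_⟩ <;> nlinarith
  · refine Filter.tendsto_atTop_mono (f := fun k : ℕ => (k : ℝ)) (fun k => ?_)
      tendsto_natCast_atTop_atTop
    have e2 : hh w k = 100 * (((2 : ℝ) ^ k) ^ 2 * w) * k := by unfold hh; ring
    have := hN k
    rw [e2]
    generalize ((2 : ℝ) ^ k) ^ 2 * w = N at this ⊢
    have hcN : 1 ≤ S.c * N := one_le_mul_of_one_le_of_one_le hc this
    have : (0 : ℝ) ≤ k := Nat.cast_nonneg k
    nlinarith
  · have hk1 : (1 : ℝ) ≤ k := by exact_mod_cast (by omega : 1 ≤ k)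
    have ha1 : 1 ≤ 2 ^ k := Nat.one_le_two_pow
    have e2 : hh w k = 100 * (((2 : ℝ) ^ k) ^ 2 * w) * k := by unfold hh; ring
    have hNk := hN k
    obtain ⟨Q, hQ, hd, hm, hv⟩ := hk k (by omega) ((2 ^ k) ^ 2 * w) (2 ^ k * w ^ 2) (2 ^ k)
      (2 ^ k * w) (2 ^ k * w) ((2 ^ k) ^ 2 * w) (4 * ((2 ^ k) ^ 2 * w))
      (by
        have hw2 : 1 ≤ w ^ 2 := Nat.pow_pos hw
        refine ⟨?_, ?_, ha1, ?_, ?_, ?_, by ring, by ring, le_rfl, le_rfl, ?_, ?_⟩ <;>
          generalize 2 ^ k = a at ha1 ⊢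
        · exact Nat.mul_pos (Nat.pow_pos ha1) hw
        · exact Nat.mul_pos ha1 hw2
        · exact Nat.mul_pos ha1 hw
        · exact Nat.mul_pos ha1 hw
        · exact Nat.mul_pos (Nat.pow_pos ha1) hw
        · calc (a * w ^ 2 + a) * (a * w + a * w) = (a * w ^ 2 + a * 1) * (a * w + a * w) := by ring
            _ ≤ (a * w ^ 2 + a * w ^ 2) * (a * w + a * w) := by gcongr
            _ = _ := by ring
        · calc (a * w ^ 2 + a) * (a * w + a * w) = (a * w ^ 2 + a * 1) * (a * w + a * w) := by ring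
            _ ≤ (a * w ^ 2 + a * w ^ 2) * (a * w + a * w) := by gcongr
            _ = 4 * 1 * w ^ 2 * (a ^ 2 * w) := by ring
            _ ≤ _ := by gcongr)
      ⟨fun j k j' k' _ _ _ _ h => fr_inj hirr h, fun s t s' t' _ _ _ _ h => by
        have := hind ((s : ℤ) - s') ((t : ℤ) - t') (by push_cast; linear_combination h)
        omega⟩
      (by
        generalize 2 ^ k = a
        calc a ^ 2 * w - 1 + (a ^ 2 * w - 1) * 1 + (a - 1) * (a * w + a * w) * 1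
            ≤ a ^ 2 * w + (a ^ 2 * w) * 1 + a * (a * w + a * w) * 1 := by
              gcongr <;> exact Nat.sub_le _ _
          _ = _ := by ring)
      (by rw [e2]; push_cast; nlinarith)
    refine ⟨Q, hQ, by simpa using hd, hm, hv.trans (Real.exp_le_exp.2 ?_)⟩
    have hp := hh_pos hw (by omega : 1 ≤ k)
    push_cast
    generalize ((2 : ℝ) ^ k) ^ 2 * w = N at hNk ⊢
    generalize hh w k = h at hp ⊢
    have h1 : S.c * h ≤ S.c ^ 2 * N * h := by
      have : S.c ≤ S.c ^ 2 * N := by nlinarith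
      exact mul_le_mul_of_nonneg_right this hp.le
    nlinarith

end Pool.Agent.MP_655169_nt.FL

end

section

/-! The exceptional logarithms lie in two proper subspaces; induction on the dimension. -/

open Finset

namespace Pool.Agent.MP_655169_nt.FL

namespace LinesL

/-- The logarithms whose power has a value commensurable with `A`. -/
def HA (O : ValuationSubring ℂ) (A : O.ValueGroup) (hA : A ≠ 0) (β : ℂ) (V : Submodule ℚ ℂ) :
    Submodule ℚ ℂ where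
  carrier := {L | L ∈ V ∧ ∃ i j : ℤ, j ≠ 0 ∧ O.valuation (Complex.exp (β * L)) ^ j = A ^ i}
  zero_mem' := ⟨V.zero_mem, 0, 1, one_ne_zero, by simp⟩
  add_mem' := by
    rintro x y ⟨hx, i, j, hj, e⟩ ⟨hy, i', j', hj', e'⟩
    refine ⟨V.add_mem hx hy, i * j' + i' * j, j * j', mul_ne_zero hj hj', ?_⟩
    rw [mul_add, Complex.exp_add, map_mul, mul_zpow, zpow_mul, e, mul_comm j j', zpow_mul, e',
      zpow_add₀ hA, zpow_mul, zpow_mul]
  smul_mem' := by
    rintro q x ⟨hx, i, j, hj, e⟩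
    refine ⟨V.smul_mem q hx, i * q.num, q.den * j,
      mul_ne_zero (by exact_mod_cast q.den_ne_zero) hj, ?_⟩
    have h : Complex.exp (β * (q • x)) ^ (q.den : ℤ) = Complex.exp (β * x) ^ q.num := by
      rw [← Complex.exp_int_mul, ← Complex.exp_int_mul]
      congr 1
      have : ((q.den : ℤ) : ℂ) * (q : ℂ) = q.num := by exact_mod_cast Rat.den_mul_eq_num q
      rw [Rat.smul_def, ← this]
      ring
    rw [zpow_mul, ← map_zpow₀, h, map_zpow₀, ← zpow_mul, mul_comm q.num j, zpow_mul, e, zpow_mul]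

end LinesL

open LinesL

theorem two_of (h0 : HLStmt) (h1 : GSStmt) (h2 : IndStmt) (h3 : ValStmt) (h4 : CoverStmt) {β : ℂ}
    (hβ : IsAlgebraic ℚ β) (hirr : ∀ r : ℚ, β ≠ (r : ℂ)) (V : Submodule ℚ ℂ)
    [hf : FiniteDimensional ℚ V] (hV : ∀ L ∈ V, IsAlgebraic ℚ (Complex.exp L))
    (hr : 2 ≤ Module.finrank ℚ V) :
    ∃ H₁ H₂ : Submodule ℚ ℂ, H₁ < V ∧ H₂ < V ∧ ∀ L ∈ V,
      ¬ AlgebraicIndependent ℚ ![L, Complex.exp (β * L)] → L ∈ H₁ ∨ L ∈ H₂ := by
  have hline : ∀ L ∈ V, (ℚ ∙ L) < V := fun L hL => by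
    refine lt_of_le_of_ne ((Submodule.span_singleton_le_iff_mem _ _).2 hL) fun h => ?_
    have h1 : Module.finrank ℚ (ℚ ∙ L) ≤ 1 := by
      simpa using finrank_span_le_card (R := ℚ) ({L} : Set ℂ)
    rw [h] at h1
    omega
  by_cases hex : ∃ L₁ ∈ V, ∃ L₂ ∈ V, L₁ ≠ 0 ∧ L₂ ≠ 0 ∧ (∀ q : ℚ, L₂ ≠ (q : ℂ) * L₁) ∧
      ¬ AlgebraicIndependent ℚ ![L₁, Complex.exp (β * L₁)] ∧
      ¬ AlgebraicIndependent ℚ ![L₂, Complex.exp (β * L₂)]
  · obtain ⟨L₁, m₁, L₂, m₂, n₁, n₂, hq, d₁, d₂⟩ := hex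
    obtain ⟨O, hO, hv⟩ := h3 _ _ (h2 β L₁ L₂ hβ hirr n₁ n₂ hq (hV _ m₁) (hV _ m₂) d₁ d₂)
    obtain ⟨A, H, hA, hH, hc⟩ := h4 O hO V hf ⟨L₁, m₁, h0 _ n₁ (hV _ m₁)⟩
    refine ⟨HA O A hA β V, H, lt_of_le_of_ne (fun x hx => hx.1) fun h => ?_, hH, fun L hL hd => ?_⟩
    · obtain ⟨-, i₁, j₁, k₁, e₁⟩ : L₁ ∈ HA O A hA β V := h.symm ▸ m₁
      obtain ⟨-, i₂, j₂, k₂, e₂⟩ : L₂ ∈ HA O A hA β V := h.symm ▸ m₂
      have h5 := hv (j₁ * i₂) (j₂ * (-i₁)) (by
        rw [zpow_mul, zpow_mul, e₁, e₂, ← zpow_mul, ← zpow_mul, ← zpow_add₀ hA]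
        rw [show i₁ * i₂ + i₂ * -i₁ = 0 by ring, zpow_zero])
      have h6 : i₁ = 0 := by simpa [k₂] using h5.2
      exact k₁ (hv j₁ 0 (by rw [e₁, h6]; simp)).1
    · by_cases hL0 : L = 0
      · exact Or.inr (hL0 ▸ H.zero_mem)
      by_cases hLH : L ∈ H
      · exact Or.inr hLH
      · exact Or.inl ⟨hL, hc L hL hLH _ (h1 β L hβ hirr hL0 (hV _ hL)) hd⟩
  · by_cases hex' : ∃ L₁ ∈ V, L₁ ≠ 0 ∧ ¬ AlgebraicIndependent ℚ ![L₁, Complex.exp (β * L₁)]
    · obtain ⟨L₁, m₁, n₁, d₁⟩ := hex'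
      refine ⟨_, _, hline L₁ m₁, hline L₁ m₁, fun L hL hd => Or.inl ?_⟩
      by_contra hn
      refine hex ⟨L₁, m₁, L, hL, n₁, fun h => hn (h ▸ Submodule.zero_mem _), fun q h => hn ?_, d₁, hd⟩
      exact Submodule.mem_span_singleton.2 ⟨q, by rw [h, Rat.smul_def]⟩
    · refine ⟨_, _, hline 0 V.zero_mem, hline 0 V.zero_mem, fun L hL hd => Or.inl ?_⟩
      by_contra hn
      exact hex' ⟨L, hL, fun h => hn (Submodule.mem_span_singleton.2 ⟨0, by simp [h]⟩), hd⟩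

theorem count_of {P : ℂ → Prop} (W : Submodule ℚ ℂ) [FiniteDimensional ℚ W]
    (h : ∀ V : Submodule ℚ ℂ, V ≤ W → 2 ≤ Module.finrank ℚ V →
      ∃ H₁ H₂ : Submodule ℚ ℂ, H₁ < V ∧ H₂ < V ∧ ∀ L ∈ V, P L → L ∈ H₁ ∨ L ∈ H₂) (r : ℕ) :
    ∀ V : Submodule ℚ ℂ, V ≤ W → Module.finrank ℚ V ≤ r → ∀ E : Finset ℂ,
      (∀ L ∈ E, L ∈ V ∧ L ≠ 0 ∧ P L) →
      (∀ L ∈ E, ∀ L' ∈ E, L ≠ L' → ∀ q : ℚ, L' ≠ (q : ℂ) * L) → 2 * E.card ≤ 2 ^ r := by
  classical
  induction r with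
  | zero =>
    intro V hV hr E hE _
    have : FiniteDimensional ℚ V := Submodule.finiteDimensional_of_le hV
    have hb : V = ⊥ := Submodule.finrank_eq_zero.1 (by omega)
    have : E = ∅ := eq_empty_of_forall_notMem fun L hL =>
      (hE L hL).2.1 ((Submodule.mem_bot ℚ).1 (hb ▸ (hE L hL).1))
    simp [this]
  | succ r ih =>
    intro V hV hr E hE hq
    have : FiniteDimensional ℚ V := Submodule.finiteDimensional_of_le hV
    by_cases h2 : 2 ≤ Module.finrank ℚ V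
    · obtain ⟨H₁, H₂, l₁, l₂, hc⟩ := h V hV h2
      have f₁ := Submodule.finrank_lt_finrank_of_lt l₁
      have f₂ := Submodule.finrank_lt_finrank_of_lt l₂
      have b₁ := ih H₁ (l₁.le.trans hV) (by omega) (E.filter (· ∈ H₁))
        (fun L hL => ⟨(mem_filter.1 hL).2, (hE L (mem_filter.1 hL).1).2⟩)
        (fun L hL L' hL' => hq L (mem_filter.1 hL).1 L' (mem_filter.1 hL').1)
      have b₂ := ih H₂ (l₂.le.trans hV) (by omega) (E.filter (· ∈ H₂))
        (fun L hL => ⟨(mem_filter.1 hL).2, (hE L (mem_filter.1 hL).1).2⟩)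
        (fun L hL L' hL' => hq L (mem_filter.1 hL).1 L' (mem_filter.1 hL').1)
      have : E.card ≤ (E.filter (· ∈ H₁)).card + (E.filter (· ∈ H₂)).card := by
        refine le_trans (card_le_card fun L hL => ?_) (card_union_le _ _)
        rcases hc L (hE L hL).1 (hE L hL).2.2 with h | h
        · exact mem_union_left _ (mem_filter.2 ⟨hL, h⟩)
        · exact mem_union_right _ (mem_filter.2 ⟨hL, h⟩)
      rw [pow_succ]
      omega
    · have h1 : E.card ≤ 1 := by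
        refine card_le_one.2 fun L hL L' hL' => ?_
        by_contra hne
        obtain ⟨v, hv⟩ := finrank_le_one_iff.1 (show Module.finrank ℚ V ≤ 1 by omega)
        obtain ⟨a, ha⟩ := hv ⟨L, (hE L hL).1⟩
        obtain ⟨b, hb⟩ := hv ⟨L', (hE L' hL').1⟩
        have ha' : (a : ℂ) * v = L := by simpa [Rat.smul_def] using congrArg Subtype.val ha
        have hb' : (b : ℂ) * v = L' := by simpa [Rat.smul_def] using congrArg Subtype.val hb
        have ha0 : (a : ℂ) ≠ 0 := fun h => (hE L hL).2.1 (by rw [← ha', h, zero_mul])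
        refine hq L hL L' hL' hne (b / a) ?_
        rw [← ha', ← hb']
        push_cast
        field_simp
      have : 1 ≤ 2 ^ r := Nat.one_le_two_pow
      rw [pow_succ]
      omega

end Pool.Agent.MP_655169_nt.FL

end

section

/-! Assembly: the exceptional logarithms lie on few lines. -/

open Finset

namespace Pool.Agent.MP_655169_nt.FL

theorem two_sub (hn : NumStmt) {β : ℂ} (hβ : IsAlgebraic ℚ β) (hirr : ∀ r : ℚ, β ≠ (r : ℂ))
    (V : Submodule ℚ ℂ) [FiniteDimensional ℚ V] (hV : ∀ L ∈ V, IsAlgebraic ℚ (Complex.exp L))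
    (hr : 2 ≤ Module.finrank ℚ V) :
    ∃ H₁ H₂ : Submodule ℚ ℂ, H₁ < V ∧ H₂ < V ∧ ∀ L ∈ V,
      ¬ AlgebraicIndependent ℚ ![L, Complex.exp (β * L)] → L ∈ H₁ ∨ L ∈ H₂ :=
  have h0 : SysStmt := sysB repOut fam
  have h1 : CoreStmt := core (small box) rank entry
  two_of (hl h0 h1 hn) (gs h0 h1 hn) (ind (gs h0 h1 hn) (bw h0 h1 hn (crit res))) val (cover pair)
    hβ hirr V hV hr

/-- A largest family of pairwise non-proportional elements meets every line. -/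
theorem ex_reps {P : ℂ → Prop} (N : ℕ) (h0 : ∀ L, P L → L ≠ 0)
    (h : ∀ E : Finset ℂ, (∀ L ∈ E, P L) →
      (∀ L ∈ E, ∀ L' ∈ E, L ≠ L' → ∀ q : ℚ, L' ≠ (q : ℂ) * L) → E.card ≤ N) :
    ∃ T : Finset ℂ, T.card ≤ N ∧ (∀ t ∈ T, P t) ∧ ∀ L, P L → ∃ t ∈ T, ∃ q : ℚ, L = (q : ℂ) * t := by
  classical
  let G : ℕ → Prop := fun n => ∃ E : Finset ℂ, (∀ L ∈ E, P L) ∧
    (∀ L ∈ E, ∀ L' ∈ E, L ≠ L' → ∀ q : ℚ, L' ≠ (q : ℂ) * L) ∧ E.card = n
  have g0 : G 0 := ⟨∅, by simp, by simp, rfl⟩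
  obtain ⟨T, hP, hq, hc⟩ : G (Nat.findGreatest G N) := Nat.findGreatest_spec (Nat.zero_le N) g0
  refine ⟨T, h T hP hq, hP, fun L hL => ?_⟩
  by_contra hne
  push Not at hne
  have hLT : L ∉ T := fun hm => hne L hm 1 (by simp)
  have hP' : ∀ x ∈ insert L T, P x := fun x hx => by
    rcases mem_insert.1 hx with rfl | hx
    exacts [hL, hP x hx]
  have hq' : ∀ x ∈ insert L T, ∀ y ∈ insert L T, x ≠ y → ∀ q : ℚ, y ≠ (q : ℂ) * x := by
    intro x hx y hy hxy q e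
    rcases mem_insert.1 hx with rfl | hx' <;> rcases mem_insert.1 hy with rfl | hy'
    · exact hxy rfl
    · have hq0 : (q : ℂ) ≠ 0 := fun h => h0 y (hP y hy') (by rw [e, h, zero_mul])
      refine hne y hy' q⁻¹ ?_
      rw [e]
      push_cast
      field_simp
    · exact hne x hx' q e
    · exact hq x hx' y hy' hxy q e
  have h1 := h _ hP' hq'
  have h2 : G (T.card + 1) := ⟨_, hP', hq', card_insert_of_notMem hLT⟩
  rw [card_insert_of_notMem hLT] at h1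
  have := Nat.le_findGreatest h1 h2
  omega

theorem fewLines (hn : NumStmt) (β : ℂ) (hβ : IsAlgebraic ℚ β) (hirr : ¬ ∃ q : ℚ, (q : ℂ) = β)
    (V : Submodule ℚ ℂ) [FiniteDimensional ℚ V] (hV : ∀ L ∈ V, IsAlgebraic ℚ (Complex.exp L))
    (hr : 2 ≤ Module.finrank ℚ V) :
    ∃ (T : Finset ℂ) (H₁ H₂ : Submodule ℚ ℂ), T.card ≤ 2 ^ (Module.finrank ℚ V - 1) ∧
      H₁ < V ∧ H₂ < V ∧ (∀ t ∈ T, t ∈ H₁ ∨ t ∈ H₂) ∧
      ∀ L ∈ V, L ≠ 0 → (∀ t ∈ T, ∀ q : ℚ, L ≠ (q : ℂ) * t) →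
        AlgebraicIndependent ℚ ![L, Complex.exp (β * L)] := by
  have hirr' : ∀ r : ℚ, β ≠ (r : ℂ) := fun r h => hirr ⟨r, h.symm⟩
  obtain ⟨H₁, H₂, l₁, l₂, hc⟩ := two_sub hn hβ hirr' V hV hr
  obtain ⟨T, hT, hP, hall⟩ := ex_reps
    (P := fun L => L ∈ V ∧ L ≠ 0 ∧ ¬ AlgebraicIndependent ℚ ![L, Complex.exp (β * L)])
    (2 ^ (Module.finrank ℚ V - 1)) (fun L h => h.2.1) (fun E hE hq => by
      have := count_of (P := fun L => ¬ AlgebraicIndependent ℚ ![L, Complex.exp (β * L)]) V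
        (fun W hW h2 => by
          have : FiniteDimensional ℚ W := Submodule.finiteDimensional_of_le hW
          exact two_sub hn hβ hirr' W (fun L hL => hV L (hW hL)) h2)
        (Module.finrank ℚ V) V le_rfl le_rfl E hE hq
      obtain ⟨r, hr'⟩ : ∃ r, Module.finrank ℚ V = r + 1 := ⟨Module.finrank ℚ V - 1, by omega⟩
      rw [hr'] at this ⊢
      rw [pow_succ] at this
      simp only [Nat.add_sub_cancel]
      omega)
  refine ⟨T, H₁, H₂, hT, l₁, l₂, fun t ht => hc t (hP t ht).1 (hP t ht).2.2, fun L hL h0 hq => ?_⟩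
  by_contra hd
  obtain ⟨t, ht, q, e⟩ := hall L ⟨hL, h0, hd⟩
  exact hq t ht q e

end Pool.Agent.MP_655169_nt.FL

end
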