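import Pool.Agent.Mg.F655169b.Gb2be7b

set_option linter.all false

/-! The choice of the parameters. -/

open Polynomial Finset

namespace Pool.Agent.MP_655169_nt.FL

namespace NumL

theorem pw {x c y : ℝ} {n : ℕ} (h0 : 0 ≤ x) (h : x ≤ Real.exp c) (hc : 0 ≤ c) (hn : (n : ℝ) ≤ y) :
    x ^ n ≤ Real.exp (c * y) := by
  refine (pow_le_pow_left₀ h0 h n).trans ?_
  rw [← Real.exp_nat_mul, Real.exp_le_exp, mul_comm]
  exact mul_le_mul_of_nonneg_left hn hc

theorem bas {K u w k : ℝ} (hK : 1 ≤ K) (hu : 2 ≤ u) (hw : 7000 * u ^ 2 ≤ w) (k1 : w ^ 2 ≤ k)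
    (k2 : 53 * K ^ 2 * w ≤ k) : 12 ≤ w ∧ K ≤ K ^ 2 ∧ 12 * w ≤ k ∧ 53 * K ^ 2 ≤ k ∧ 1 ≤ w ^ 2 := by
  have w1 : 12 ≤ w := by nlinarith
  exact ⟨w1, by nlinarith, by nlinarith, by nlinarith, by nlinarith⟩

theorem lg {k : ℝ} (h : 0 < k) : Real.log 2 * k ≤ k := by
  nlinarith [Real.log_two_lt_d9]

theorem eK {K k : ℝ} (hK : 1 ≤ K) (h : 53 * K ≤ k) : 2 * Real.exp 1 * K ≤ k := by
  nlinarith [Real.exp_one_lt_d9]

theorem sm {U k M : ℝ} (hU : 200 ≤ U) (hk : 12 ≤ k) (h : M ≤ 6 * U / k + 1) :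
    2 * M + 2 ≤ Real.exp (U / 4) * Real.exp (U / 4) := by
  have b3 : 6 * U / k ≤ U / 2 := by
    rw [div_le_iff₀ (by linarith)]
    nlinarith
  have := Real.add_one_le_exp (U / 4)
  have := mul_self_le_mul_self (by linarith) this
  nlinarith

theorem bg {U k M : ℝ} (hU : 0 ≤ U) (hk : 0 < k) (h : 6 * U / k ≤ M) :
    4 * U ≤ M * (Real.log 2 * k) := by
  rw [div_le_iff₀ hk] at h
  nlinarith [Real.log_two_gt_d9]

theorem main (K u a w k N h U : ℝ) (T0 T1 T2 S0 S1 S2 n0 M : ℕ) (hK : 1 ≤ K) (hu : 2 ≤ u)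
    (hw : 7000 * u ^ 2 ≤ w) (k1 : w ^ 2 ≤ k) (k2 : 53 * K ^ 2 * w ≤ k) (ak : k ≤ a)
    (ea : a = Real.exp (Real.log 2 * k)) (eN : N = a ^ 2 * w) (eh : h = 100 * N * k)
    (eU : U = u * n0 * h) (e0 : (S0 : ℝ) = 5 * N) (M1 : 6 * U / k ≤ M) (M2 : (M : ℝ) ≤ 6 * U / k + 1)
    (hT0 : 1 ≤ T0) (hT1 : 1 ≤ T1) (hT2 : 1 ≤ T2) (hS1 : 1 ≤ S1) (hS2 : 1 ≤ S2) (hn0 : 1 ≤ n0)
    (eT : (T0 : ℝ) * T1 * T2 = a ^ 2 * w ^ 2 * n0) (eS : (S1 : ℝ) * S2 = w * n0)
    (n0le : (n0 : ℝ) ≤ N) (T0le : (T0 : ℝ) ≤ N)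
    (p₁ : ((T1 : ℝ) + T2) * (S1 + S2) ≤ 4 * a ^ 2 * w ^ 3)
    (p₂ : ((T1 : ℝ) + T2) * (S1 + S2) ≤ 4 * a * w ^ 2 * n0) :
    Ok T0 T1 T2 S0 S1 S2 n0 M h U a K := by
  obtain ⟨w1, K2, kw, kK, w2⟩ := bas hK hu hw k1 k2
  have k0 : 0 < k := by linarith
  have a0 : 0 < a := by linarith
  have w0 : 0 < w := by linarith
  have wa : w ≤ a := by linarith
  have a1 : 1 ≤ a := by linarith
  have n1 : (1 : ℝ) ≤ n0 := by exact_mod_cast hn0
  have t1 : (1 : ℝ) ≤ T1 := by exact_mod_cast hT1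
  have t2 : (1 : ℝ) ≤ T2 := by exact_mod_cast hT2
  have s1 : (1 : ℝ) ≤ S1 := by exact_mod_cast hS1
  have s2 : (1 : ℝ) ≤ S2 := by exact_mod_cast hS2
  have N1 : 1 ≤ N := n1.trans n0le
  have ae : ∀ j : ℕ, a ^ j ≤ Real.exp (j * k) := fun j => by
    rw [mul_comm]
    refine pw a0.le ?_ k0.le le_rfl
    rw [ea, Real.exp_le_exp]
    exact lg k0
  have Nk : k ≤ N * k := le_mul_of_one_le_left k0.le N1
  have h0 : 0 < h := by rw [eh]; positivity
  have U1 : 2 * (n0 * h) ≤ U := by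
    rw [eU, mul_assoc]; exact mul_le_mul_of_nonneg_right hu (by positivity)
  have U2 : h ≤ n0 * h := le_mul_of_one_le_left h0.le n1
  have N3 : N ≤ a ^ 3 := by rw [eN, pow_succ a 2]; gcongr
  have P6 : ((T1 : ℝ) + T2) * (S1 + S2) ≤ a ^ 6 := by
    refine p₁.trans ?_
    calc 4 * a ^ 2 * w ^ 3 ≤ a * a ^ 2 * a ^ 3 := by gcongr; linarith
      _ = a ^ 6 := by ring
  have A6 : (T1 : ℝ) + T2 ≤ a ^ 6 := (le_mul_of_one_le_right (by linarith) (by linarith)).trans P6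
  have B6 : (S1 : ℝ) + S2 ≤ a ^ 6 := (le_mul_of_one_le_left (by linarith) (by linarith)).trans P6
  have Q : (n0 : ℝ) * T0 * T1 * T2 = n0 * (a ^ 2 * w ^ 2 * n0) := by rw [← eT]; ring
  have Q10 : (n0 : ℝ) * T0 * T1 * T2 ≤ Real.exp (10 * k) := by
    refine le_trans ?_ (by exact_mod_cast ae 10)
    calc (n0 : ℝ) * T0 * T1 * T2 = n0 * (a ^ 2 * w ^ 2 * n0) := Q
      _ ≤ a ^ 3 * (a ^ 2 * a ^ 2 * a ^ 3) := by gcongr <;> linarith
      _ = a ^ 10 := by ring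
  have Q0 : (0 : ℝ) ≤ n0 * T0 * T1 * T2 := by positivity
  refine ⟨hK, a1, by linarith, hT0, hT1, hT2, hS1, hS2, hn0, ?_, ?_, ?_, ?_, ?_, ?_, ?_, ?_⟩
  · have b1 : 1 ≤ K ^ 2 * (a * w ^ 2 * n0) :=
      one_le_mul_of_one_le_of_one_le (by linarith) (one_le_mul_of_one_le_of_one_le
        (one_le_mul_of_one_le_of_one_le a1 w2) n1)
    have b2 := mul_le_mul_of_nonneg_left p₂ (by positivity : 0 ≤ K ^ 2)
    have b3 := mul_le_mul_of_nonneg_right (kK.trans ak) (by positivity : 0 ≤ a * w ^ 2 * n0)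
    rw [eS, e0, eN]
    linarith
  · have b1 := mul_le_mul_of_nonneg_left k1 (by linarith : 0 ≤ N)
    have b2 := mul_le_mul_of_nonneg_left (by linarith : 1 ≤ k) (by linarith : 0 ≤ N)
    have b3 : N * w ^ 2 = a ^ 2 * w ^ 3 := by rw [eN]; ring
    linarith
  · have b1 : (2 : ℝ) ^ S0 ≤ Real.exp (k * (5 * N)) :=
      pw zero_le_two (by linarith [Real.add_one_le_exp k]) k0.le e0.le
    have b2 : (T0 : ℝ) ^ T0 ≤ Real.exp (3 * k * N) :=
      pw (by positivity) (T0le.trans (N3.trans (by exact_mod_cast ae 3))) (by positivity) T0le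
    have b3 : ((S1 : ℝ) + S2) ^ T0 ≤ Real.exp (6 * k * N) :=
      pw (by positivity) (B6.trans (by exact_mod_cast ae 6)) (by positivity) T0le
    have b4 : ((T1 : ℝ) + T2) ^ S0 ≤ Real.exp (6 * k * (5 * N)) :=
      pw (by positivity) (A6.trans (by exact_mod_cast ae 6)) (by positivity) e0.le
    refine (mul_le_mul Q10 (mul_le_mul (mul_le_mul (mul_le_mul b1 b2 (by positivity)
      (by positivity)) b3 (by positivity) (by positivity)) b4 (by positivity) (by positivity))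
      (by positivity) (by positivity)).trans ?_
    simp only [← Real.exp_add]
    exact Real.exp_le_exp.2 (by linarith)
  · have b1 : K ^ n0 ≤ Real.exp (k * n0) :=
      pw (by linarith) (by linarith [Real.add_one_le_exp k]) k0.le le_rfl
    have b2 : 2 * Real.exp 1 * (K * (S1 + S2)) * a ≤ a ^ 8 := by
      calc 2 * Real.exp 1 * (K * (S1 + S2)) * a = (2 * Real.exp 1 * K) * (S1 + S2) * a := by ring
        _ ≤ a * a ^ 6 * a := by
          gcongr
          exact (eK hK (by linarith)).trans ak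
        _ = a ^ 8 := by ring
    have b3 : (2 * Real.exp 1 * (K * (S1 + S2)) * a) ^ T0 ≤ Real.exp (8 * k * N) :=
      pw (by positivity) (b2.trans (by exact_mod_cast ae 8)) (by positivity) T0le
    have b4 : K * (T1 + T2) * (2 * Real.exp 1 * (K * (S1 + S2)) * a) ≤ k * (n0 * N) := by
      calc K * (T1 + T2) * (2 * Real.exp 1 * (K * (S1 + S2)) * a) =
            Real.exp 1 * (2 * K ^ 2 * a) * ((T1 + T2) * (S1 + S2)) := by ring
        _ ≤ 3 * (2 * K ^ 2 * a) * (4 * a * w ^ 2 * n0) := by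
          gcongr
          exact Real.exp_one_lt_d9.le.trans (by norm_num)
        _ = 24 * (K ^ 2 * w) * (n0 * N) := by rw [eN]; ring
        _ ≤ k * (n0 * N) := by
          have : 0 ≤ K ^ 2 * w := by positivity
          gcongr
          linarith
    have b5 : k * n0 ≤ k * n0 * N := le_mul_of_one_le_right (by positivity) N1
    have b6 : k * N ≤ n0 * (k * N) := le_mul_of_one_le_left (by positivity) n1
    have b7 : 0 ≤ n0 * (k * N) := by positivity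
    refine (mul_le_mul (mul_le_mul b1 b3 (by positivity) (by positivity))
      (Real.exp_le_exp.2 b4) (by positivity) (by positivity)).trans ?_
    simp only [← Real.exp_add]
    rw [eh] at U1
    exact Real.exp_le_exp.2 (by linarith)
  · have b1 : (S0 : ℝ) ≤ a ^ 4 := by
      rw [e0, pow_succ' a 3]
      gcongr
      linarith
    have b2 : (S0.factorial : ℝ) ≤ Real.exp (4 * k * (5 * N)) :=
      le_trans (by exact_mod_cast S0.factorial_le_pow)
        (pw (by positivity) (b1.trans (by exact_mod_cast ae 4)) (by positivity) e0.le)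
    refine (mul_le_mul b2 (sm (by linarith) (by linarith) M2) (by positivity)
      (by positivity)).trans ?_
    simp only [← Real.exp_add]
    exact Real.exp_le_exp.2 (by linarith)
  · refine (mul_le_mul_of_nonneg_right Q10 (by positivity)).trans ?_
    rw [← Real.exp_add]
    exact Real.exp_le_exp.2 (by linarith)
  · rw [ea, ← Real.exp_nat_mul, Real.exp_le_exp]
    exact bg (by linarith) k0 M1
  · have b1 : U / k = 100 * (u * n0 * N) := by rw [eU, eh]; field_simp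
    have b2 : 1 ≤ u * n0 * N :=
      one_le_mul_of_one_le_of_one_le (one_le_mul_of_one_le_of_one_le (by linarith) n1) N1
    have b3 : (M : ℝ) ≤ 700 * (u * n0 * N) := by rw [mul_div_assoc, b1] at M2; linarith
    calc 10 * (M : ℝ) * U ≤ 10 * (700 * (u * n0 * N)) * U := by gcongr; linarith
      _ = 7000 * u ^ 2 * (n0 * (N * n0) * h) := by rw [eU]; ring
      _ ≤ w * (n0 * (N * n0) * h) := by gcongr
      _ = _ := by rw [Q, eN]; ring

end NumL

theorem num : NumStmt := by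
  intro K u hK hu
  refine ⟨⌈7000 * u ^ 2⌉₊, Nat.ceil_pos.2 (by positivity), ?_⟩
  have hw := Nat.le_ceil (7000 * u ^ 2)
  generalize ⌈7000 * u ^ 2⌉₊ = w at hw ⊢
  refine ⟨⌈(w : ℝ) ^ 2 + 53 * K ^ 2 * w⌉₊, fun k hk T0 T1 T2 S1 S2 n0 s => ?_⟩
  have h1 := Nat.ceil_le.1 hk
  have h2 : (0 : ℝ) ≤ (w : ℝ) ^ 2 := by positivity
  have h3 : (0 : ℝ) ≤ 53 * K ^ 2 * w := by positivity
  refine ⟨⌈6 * (u * n0 * hh w k) / k⌉₊, NumL.main K u (2 ^ k) w k ((2 ^ k) ^ 2 * w) _ _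
    T0 T1 T2 _ S1 S2 n0 _ hK hu hw (by linarith) (by linarith)
    (by exact_mod_cast k.lt_two_pow_self.le)
    (by rw [mul_comm, Real.exp_nat_mul, Real.exp_log two_pos]) rfl (by rw [hh]; ring) rfl
    (by push_cast; ring) (Nat.le_ceil _) (Nat.ceil_lt_add_one (by unfold hh; positivity)).le
    s.hT0 s.hT1 s.hT2 s.hS1 s.hS2 s.hn0 (by exact_mod_cast s.eT) (by exact_mod_cast s.eS)
    (by exact_mod_cast s.n0le) (by exact_mod_cast s.T0le) (by exact_mod_cast s.p₁)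
    (by exact_mod_cast s.p₂)⟩

end Pool.Agent.MP_655169_nt.FL
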